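import Mathlib

/-!
# Project RA7 (MP_65b7ad_lc): path consistency suffices for symmetric relation algebras with a
flexible atom.  Combinatorial part: definitions and statements of the modules.

* `Family` level: closed tournaments of a family of graphs (Theorem NI).
* `Core` level: a finite set with a symmetric function `δ` (Theorem A: no invertible pairs).
* `N` level: the non-identity atoms with the ternary relation `R` of allowed triples.
-/

namespace RA7

open Relation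

/-! ## Family level -/

section Family

variable {D I : Type}

/-- a family of symmetric relations -/
def SymF (E : I → D → D → Prop) : Prop := ∀ i p q, E i p q → E i q p

/-- tournaments (`T p q`: `p` comes before `q`, `p` wins against `q`) -/
def Tour (T : D → D → Prop) : Prop :=
  (∀ p, ¬ T p p) ∧ (∀ p q, T p q → ¬ T q p) ∧ (∀ p q, p ≠ q → T p q ∨ T q p)

/-- a relation closed under the implications of the family -/
def ClosedT (E : I → D → D → Prop) (T : D → D → Prop) : Prop :=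
  ∀ i p q r, T p q → E i p r → ¬ E i p q → T r q

/-- strict linear orders -/
def LinT (T : D → D → Prop) : Prop := Tour T ∧ ∀ p q r, T p q → T q r → T p r

/-- 3-cycles -/
def Cyc3 (T : D → D → Prop) (x y z : D) : Prop := T x y ∧ T y z ∧ T z x

/-- walks of given length -/
def Wk (T : D → D → Prop) : ℕ → D → D → Prop
  | 0, a, b => a = b
  | n + 1, a, b => ∃ c, T a c ∧ Wk T n c b

/-- `Y` is homogeneous for `T` -/
def Hom (T : D → D → Prop) (Y : D → Prop) : Prop :=
  ∀ z, ¬ Y z → (∀ y, Y y → T z y) ∨ (∀ y, Y y → T y z)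

/-- `Y` is strongly connected (inside `Y`) -/
def SC (T : D → D → Prop) (Y : D → Prop) : Prop :=
  ∀ a b, Y a → Y b → ReflTransGen (fun p q => Y p ∧ Y q ∧ T p q) a b

end Family

/-- THEOREM NI: a closed tournament gives a closed linear order, agreeing with the tournament
on pairs in different strong components. -/
def StNI : Prop := ∀ (D I : Type) [Finite D] (E : I → D → D → Prop) (T : D → D → Prop),
  SymF E → Tour T → ClosedT E T →
  ∃ L : D → D → Prop, LinT L ∧ ClosedT E L ∧ ∀ p q, T p q → ¬ ReflTransGen T q p → L p q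

/-- NI, module SP: adjacency propagates along shortest paths. -/
def StSP : Prop := ∀ (D I : Type) (E : I → D → D → Prop) (T : D → D → Prop),
  SymF E → Tour T → ClosedT E T → ∀ (i : I) (k : ℕ) (u v u1 : D),
  T u u1 → Wk T k u1 v → (∀ j, j ≤ k → ¬ Wk T j u v) → E i u u1 → E i u v

/-- NI, module RE: a homogeneous strongly connected set can be reordered. -/
def StRE : Prop := ∀ (D I : Type) (E : I → D → D → Prop) (T : D → D → Prop) (Y : D → Prop),
  SymF E → Tour T → ClosedT E T → Hom T Y → SC T Y →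
  ∀ LY : {x // Y x} → {x // Y x} → Prop, Tour LY →
    ClosedT (fun i (a b : {x // Y x}) => E i a.1 b.1) LY →
    Tour (fun p q => (∃ (hp : Y p) (hq : Y q), LY ⟨p, hp⟩ ⟨q, hq⟩) ∨ (¬ (Y p ∧ Y q) ∧ T p q)) ∧
    ClosedT E
      (fun p q => (∃ (hp : Y p) (hq : Y q), LY ⟨p, hp⟩ ⟨q, hq⟩) ∨ (¬ (Y p ∧ Y q) ∧ T p q))

/-- NI, module S1: for a 3-cycle of a strongly connected closed tournament there is either a
proper homogeneous strongly connected set containing a 3-cycle, or a partition `K` such that the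
tournament is constant between classes and pairs in different classes are not adjacent in all
graphs in which the cycle is not adjacent. -/
def StS1 : Prop := ∀ (D I : Type) [Finite D] (E : I → D → D → Prop) (T : D → D → Prop),
  SymF E → Tour T → ClosedT E T → (∀ p q, ReflTransGen T p q) → ∀ x y z, Cyc3 T x y z →
  (∃ Y : D → Prop, Hom T Y ∧ SC T Y ∧ (∃ x y z, Y x ∧ Y y ∧ Y z ∧ Cyc3 T x y z) ∧ ∃ z, ¬ Y z) ∨
  (∃ K : D → D → Prop, Equivalence K ∧ ¬ K x y ∧ (∀ u u' v, K u u' → ¬ K u v → T u v → T u' v) ∧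
    ∀ u v, ¬ K u v → ∀ i, ¬ E i x y → ¬ E i u v)

/-- NI, module S2: choose the 3-cycle well. -/
def StS2 : Prop := ∀ (D I : Type) [Finite D] (E : I → D → D → Prop) (T : D → D → Prop),
  SymF E → Tour T → ClosedT E T → (∀ p q, ReflTransGen T p q) → (∃ x y z, Cyc3 T x y z) →
  (∃ Y : D → Prop, Hom T Y ∧ SC T Y ∧ (∃ x y z, Y x ∧ Y y ∧ Y z ∧ Cyc3 T x y z) ∧ ∃ z, ¬ Y z) ∨
  (∃ K : D → D → Prop, Equivalence K ∧ (∃ a b, ¬ K a b) ∧
    ∀ i, (∀ u v, ¬ K u v → ¬ E i u v) ∨ (∀ u v, u ≠ v → E i u v))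

/-! ## 2-SAT -/

/-- 2-SAT completion: `neg` an involution on literals, `Im` skew-symmetric implications, `U` unit
literals without conflicts. -/
def StSAT : Prop := ∀ (Λ : Type) [Finite Λ] (neg : Λ → Λ) (Im : Λ → Λ → Prop) (U : Λ → Prop),
  (∀ a, neg (neg a) = a) → (∀ a b, Im a b → Im (neg b) (neg a)) →
  (∀ u v, U u → U v → ¬ ReflTransGen Im u (neg v)) →
  ∃ T : Λ → Prop, (∀ a, U a → T a ∧ ¬ T (neg a)) ∧ (∀ a b, T a → Im a b → T b) ∧
    (∀ a, T a ∨ T (neg a)) ∧
    (∀ a, T a → T (neg a) → ReflTransGen Im a (neg a) ∧ ReflTransGen Im (neg a) a)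

/-! ## Core level -/

section Core

variable {D : Type}

/-- `δ` is symmetric and vanishes on the diagonal (nothing else is assumed) -/
structure Met (δ : D → D → ℕ) : Prop where
  symm : ∀ a b, δ a b = δ b a
  zero : ∀ a, δ a a = 0

/-- implications between ordered pairs -/
def CImp (δ : D → D → ℕ) (a b : D × D) : Prop :=
  (δ a.1 b.1 < δ a.1 a.2 ∧ a.2 = b.2) ∨ (δ a.2 b.2 < δ a.1 b.2 ∧ a.1 = b.1)

/-- invertible pairs -/
def Inv (δ : D → D → ℕ) (p q : D) : Prop :=
  p ≠ q ∧ ReflTransGen (CImp δ) (p, q) (q, p) ∧ ReflTransGen (CImp δ) (q, p) (p, q)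

/-- everything reachable from an invertible pair -/
def FF (δ : D → D → ℕ) (p q : D) : Prop :=
  ∃ a b, Inv δ a b ∧ ReflTransGen (CImp δ) (a, b) (p, q)

/-- one-directional pairs -/
def WW (δ : D → D → ℕ) (p q : D) : Prop := FF δ p q ∧ ¬ FF δ q p

/-- conservative nonexpansive operation, majority on the invertible pairs -/
structure IsMaj (δ : D → D → ℕ) (g : D → D → D → D) : Prop where
  cons : ∀ a b c, g a b c = a ∨ g a b c = b ∨ g a b c = c
  nonexp : ∀ a b c a' b' c', δ (g a b c) (g a' b' c') ≤ max (δ a a') (max (δ b b') (δ c c'))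
  maj : ∀ p q, Inv δ p q → g p p q = p ∧ g p q p = p ∧ g q p p = p

/-- orderable -/
def Ordb (δ : D → D → ℕ) : Prop :=
  ∃ L : D → D → Prop, LinT L ∧ ∀ x y z, L x y → L y z → δ x y ≤ δ x z

/-- minimal counterexample to Theorem A -/
structure Ctx (δ : D → D → ℕ) : Prop where
  met : Met δ
  maj : ∃ g, IsMaj δ g
  inv : ∃ p q, Inv δ p q
  ord : ∀ P : D → Prop, (∃ x, ¬ P x) → Ordb (fun a b : {x // P x} => δ a.1 b.1)

/-- basic facts in a minimal counterexample (module A1 and A2) -/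
structure Facts (δ : D → D → ℕ) : Prop where
  met : Met δ
  irr : ∀ p, ¬ FF δ p p
  s1 : ∀ p q p', FF δ p q → δ p p' < δ p q → FF δ p' q
  s2 : ∀ p q q', FF δ p q → δ q q' < δ p q' → FF δ p q'
  inv : ∀ p q, Inv δ p q ↔ (FF δ p q ∧ FF δ q p)
  cov : ∀ t, ∃ q, Inv δ t q
  nt : ∀ p q t, FF δ p q → t ≠ p → t ≠ q → FF δ p t ∨ FF δ t q
  fA : ∀ y z w, WW δ y z → ¬ WW δ y w → δ y w ≤ δ z w
  fB : ∀ z y w, WW δ z y → ¬ WW δ w y → δ z y ≤ δ z w
  fne : ∀ a b a' b', ¬ WW δ b a → WW δ b' a' → δ a b' ≤ max (δ a a') (δ b b')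

/-- `t` is forced at `{p, q, t}` -/
def Forced (δ : D → D → ℕ) (p q t : D) : Prop := ∀ g, IsMaj δ g → g p q t = t

/-- lexicographic breadth first search: `ρ` is the visiting time -/
structure LexB (δ : D → D → ℕ) (c : D) (ρ : D → ℕ) : Prop where
  inj : ∀ u v, ρ u = ρ v → u = v
  first : ∀ x, x ≠ c → ρ c < ρ x
  rule : ∀ u w, ρ u < ρ w → (∀ d, ρ d < ρ u → δ d u = δ d w) ∨
    ∃ d, ρ d < ρ u ∧ δ d u < δ d w ∧ ∀ e, ρ e < ρ d → δ e u = δ e w

end Core

/-- THEOREM A -/
def StA : Prop := ∀ (D : Type) [Finite D] (δ : D → D → ℕ), Met δ → (∃ g, IsMaj δ g) →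
  ¬ ∃ p q, Inv δ p q

/-- no minimal counterexample -/
def StCtx : Prop := ∀ (D : Type) [Finite D] (δ : D → D → ℕ), ¬ Ctx δ

/-- orderable iff no invertible pair -/
def StOrd : Prop := ∀ (D : Type) [Finite D] (δ : D → D → ℕ), Met δ →
  ((¬ ∃ p q, Inv δ p q) ↔ Ordb δ)

/-- module A1: facts -/
def StA1 : Prop := ∀ (D : Type) [Finite D] (δ : D → D → ℕ), Ctx δ → Facts δ

/-- module A3: no modules with at least 3 elements -/
def StA3 : Prop := ∀ (D : Type) [Finite D] (δ : D → D → ℕ), Ctx δ → ∀ Λ : D → Prop,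
  (∃ x, ¬ Λ x) → (∃ a b c, Λ a ∧ Λ b ∧ Λ c ∧ a ≠ b ∧ a ≠ c ∧ b ≠ c) →
  ¬ (∀ x a b, ¬ Λ x → Λ a → Λ b → δ x a = δ x b)

/-- module A4: lexBFS exists -/
def StA4 : Prop := ∀ (D : Type) [Finite D] (δ : D → D → ℕ) (c : D), ∃ ρ, LexB δ c ρ

/-- module A5: twins: the transposition preserves everything -/
def StA5 : Prop := ∀ (D : Type) (δ : D → D → ℕ), Met δ → ∀ u t : D, u ≠ t →
  (∀ x, x ≠ u → x ≠ t → δ x u = δ x t) →
  (FF δ t u → FF δ u t) ∧ (∀ p, p ≠ u → p ≠ t → Forced δ p u t → Forced δ p t u)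

/-- module A6: forced triangles exist -/
def StA6 : Prop := ∀ (D : Type) [Finite D] (δ : D → D → ℕ), Ctx δ → ∀ t : D,
  ∃ p q, Inv δ p q ∧ p ≠ t ∧ q ≠ t ∧ Forced δ p q t

/-- module A7: the last vertex of a lexBFS from a suitable vertex is before nobody -/
def StA7 : Prop := ∀ (D : Type) [Finite D] (δ : D → D → ℕ), Ctx δ → ∃ (c t : D) (ρ : D → ℕ),
  LexB δ c ρ ∧ (∀ x, x ≠ t → ρ x < ρ t) ∧ c ≠ t ∧ (∀ x y, δ x y ≤ δ c t) ∧ ∀ u, ¬ WW δ t u

/-- module A8: the local inequality -/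
def StA8 : Prop := ∀ (D : Type) [Finite D] (δ : D → D → ℕ), Ctx δ → ∀ t : D,
  (∀ u, ¬ WW δ t u) → ∀ p q d, Inv δ p q → p ≠ t → q ≠ t → Forced δ p q t →
  d ≠ q → δ d q < δ d t → (Inv δ p d → ¬ Forced δ p d t) →
  Inv δ q t ∧ Inv δ d t ∧ d ≠ p ∧ δ p t ≤ δ d q

/-- module A9: the 5-point configuration is impossible -/
def StA9 : Prop := ∀ (D : Type) [Finite D] (δ : D → D → ℕ), Ctx δ → ∀ A B p q t : D,
  (∀ u, ¬ WW δ t u) → Inv δ p q → Inv δ p t → Inv δ q t → Inv δ A t → Inv δ B t → A ≠ B →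
  Forced δ p q t → δ A p < δ A t → δ A t = δ A q → δ B q < δ B t →
  δ p t ≤ δ B q → δ q t ≤ δ A p → (Inv δ A B → ¬ Forced δ A B t) → False

/-! ## N level -/

section NLevel

variable {N : Type}

/-- the non-identity atoms with the relation of allowed triples and the flexible atom -/
structure NS (N : Type) where
  R : N → N → N → Prop
  r12 : ∀ a b c, R a b c → R b a c
  r23 : ∀ a b c, R a b c → R a c b
  s : N
  flex : ∀ a b, R s a b

/-- unit pairs: `w` must win against `y` -/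
def U1 (S : NS N) (w y : N) : Prop := ∃ c z, S.R c z w ∧ ¬ S.R c z y ∧ ¬ S.R c y y

/-- free implications -/
def FImp (S : NS N) (a b : N × N) : Prop :=
  (∃ x, S.R x a.1 b.1 ∧ ¬ S.R x a.1 a.2 ∧ S.R x a.2 a.2 ∧ a.2 = b.2) ∨
  (∃ x, S.R x a.2 b.2 ∧ ¬ S.R x a.1 b.2 ∧ S.R x a.1 a.1 ∧ a.1 = b.1)

/-- (H1) -/
def H1 (S : NS N) : Prop := ∀ c, S.R c c c

/-- (H2): units are conflict free -/
def H2 (S : NS N) : Prop := ∀ w y w' y', U1 S w y → U1 S w' y' →
  ¬ ReflTransGen (FImp S) (w, y) (y', w')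

/-- conservative operations of arity `ι` preserving all `R_x` -/
structure Pol (S : NS N) {ι : Type} (h : (ι → N) → N) : Prop where
  cons : ∀ t, ∃ i, h t = t i
  pres : ∀ x t t', (∀ i, S.R x (t i) (t' i)) → S.R x (h t) (h t')

/-- (H4): every two-element set has a commutative binary or a majority operation -/
def H4 (S : NS N) : Prop := ∀ a b, a ≠ b →
  (∃ m : (Fin 2 → N) → N, Pol S m ∧ m ![a, b] = m ![b, a]) ∨
  (∃ m : (Fin 3 → N) → N, Pol S m ∧
    m ![a, a, b] = a ∧ m ![a, b, a] = a ∧ m ![b, a, a] = a ∧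
    m ![b, b, a] = b ∧ m ![b, a, b] = b ∧ m ![a, b, b] = b)

/-- the good linear orders (`L x y`: `x` wins against `y`) -/
structure Good (S : NS N) (L : N → N → Prop) : Prop where
  lin : LinT L
  c1 : ∀ x z y w, L z y → L y w → S.R x z w → S.R x z y
  c1' : ∀ x z y w, L y z → L y w → S.R x z w → S.R x y y
  c2 : ∀ x y, L x y → S.R x x y
  c3 : ∀ x z w, L z w → S.R x z w → S.R x z z

/-- invertible pairs at the N level -/
def NInv (S : NS N) (p q : N) : Prop :=
  p ≠ q ∧ ReflTransGen (FImp S) (p, q) (q, p) ∧ ReflTransGen (FImp S) (q, p) (p, q)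

/-- a 2-SAT solution -/
structure TS (S : NS N) (T : N → N → Prop) : Prop where
  irr : ∀ p, ¬ T p p
  tot : ∀ p q, p ≠ q → T p q ∨ T q p
  unit : ∀ w y, U1 S w y → T w y ∧ ¬ T y w
  clos : ∀ a b : N × N, T a.1 a.2 → FImp S a b → T b.1 b.2
  bi : ∀ p q, T p q → T q p → NInv S p q

/-- the operation `f` (with winner relation `W`): `f a b = b` iff `b` strictly wins -/
structure FOp (S : NS N) (T : N → N → Prop) (f : N → N → N) : Prop where
  fb : ∀ a b, T b a → ¬ T a b → f a b = b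
  fa : ∀ a b, ¬ (T b a ∧ ¬ T a b) → f a b = a
  f1 : ∀ x y, ¬ (T y x ∧ ¬ T x y) → S.R x x y
  f2 : ∀ x y z w, S.R x z w → S.R x (f y z) (f y w)
  f2' : ∀ x y z w, S.R x z w → S.R x (f z y) (f w y)
  pres : ∀ x a b a' b', S.R x a b → S.R x a' b' → S.R x (f a a') (f b b')

/-- the operation `g` -/
structure GOp (S : NS N) (g : N → N → N → N) : Prop where
  cons : ∀ a b c, g a b c = a ∨ g a b c = b ∨ g a b c = c
  pres : ∀ x a b a' b' a'' b'', S.R x a b → S.R x a' b' → S.R x a'' b'' →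
    S.R x (g a a' a'') (g b b' b'')
  maj : ∀ p q, NInv S p q → g p p q = p ∧ g p q p = p ∧ g q p p = p

end NLevel

/-- module O1: from 2-SAT to `T` -/
def StO1 : Prop := ∀ (N : Type) [Finite N] (S : NS N), H1 S → H2 S → ∃ T, TS S T

/-- module O2: the operation `f` -/
def StO2 : Prop := ∀ (N : Type) [Finite N] (S : NS N), H1 S → ∀ T, TS S T → ∃ f, FOp S T f

/-- module O3: the operation `g` -/
def StO3 : Prop := ∀ (N : Type) [Finite N] (S : NS N), H4 S → ∃ g, GOp S g

/-- module O4: `g` can be normalised: on the pairs that are not invertible it gives the winner -/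
def StO4 : Prop := ∀ (N : Type) [Finite N] (S : NS N) (T : N → N → Prop), TS S T →
  ∀ f, FOp S T f → ∀ g, GOp S g → ∃ g', GOp S g' ∧ ∀ a b, T b a → ¬ T a b →
    g' a a b = b ∧ g' a b a = b ∧ g' b a a = b

/-- module O5: witnesses of steps between invertible pairs lie below all three elements -/
def StO5 : Prop := ∀ (N : Type) [Finite N] (S : NS N) (T : N → N → Prop), TS S T →
  ∀ f, FOp S T f → ∀ g, GOp S g → ∀ x z w y, S.R x z w → ¬ S.R x z y → NInv S z y → NInv S w y →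
    (T z x ∧ ¬ T x z) ∧ (T w x ∧ ¬ T x w) ∧ (T y x ∧ ¬ T x y)

/-- module O6 (Lemma D, local part) -/
def StO6 : Prop := ∀ (N : Type) [Finite N] (S : NS N) (T : N → N → Prop), TS S T →
  ∀ f, FOp S T f → ∀ g, GOp S g → ∀ x z w y r, S.R x z w → ¬ S.R x z y → NInv S z y →
    NInv S w y → NInv S x r → S.R r z w ∧ ¬ S.R r z y

/-- module O7: no invertible pairs at the N level -/
def StO7 : Prop := ∀ (N : Type) [Finite N] (S : NS N) (T : N → N → Prop), TS S T →
  ∀ f, FOp S T f → ∀ g, GOp S g → ¬ ∃ p q, NInv S p q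

/-- module O8: the good linear order -/
def StO8 : Prop := ∀ (N : Type) [Finite N] (S : NS N), H1 S → ∀ T, TS S T →
  (¬ ∃ p q, NInv S p q) → ∃ L, Good S L

/-- THEOREM COMB -/
def StComb : Prop := ∀ (N : Type) [Finite N] (S : NS N), H1 S → H2 S → H4 S → ∃ L, Good S L

end RA7
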