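import Pool.Agent.Helper74.RA7.Base
import Pool.Agent.Helper32.RA7.St

set_option autoImplicit false

/-!
# Project RA7 (MP_65b7ad_lc): from the induction theorem to the combinatorial part

Module X is the file `Pool/Agent/Helper74/RA7/M_X.lean` (namespace RA7, imports this file) with the
theorem named in the docstring; the proofs are in the docstrings.  Notation in the proofs: `e` is
`T.e`, `s` is `T.s`, `R` is `T.R` (a totally symmetric relation by `sw`, `rot`; `R e a b ↔ a = b`),
`N` is the type `{a : O // a ≠ T.e}`.
-/

namespace RA7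

open Relation Pool.Agent.Helper32.RA7

section Defs

variable {O : Type}

/-- the non-identity atoms -/
def toNS (T : Str O) : NS {a : O // a ≠ T.e} where
  R a b c := T.R a.1 b.1 c.1
  r12 _ _ _ h := T.sw _ _ _ h
  r23 _ _ _ h := T.rot _ _ _ (T.sw _ _ _ h)
  s := ⟨T.s, T.se⟩
  flex a b := T.flex _ _ a.2 b.2

/-- universal network: closed, different points have a label different from `e`, and every
consistent one-point extension of finitely many points is realised -/
structure UNet (T : Str O) {V : Type} (col : V → V → O) : Prop where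
  closed : Closed T col
  strict : ∀ x y, col x y = T.e → x = y
  ext : ∀ (k : ℕ) (p : Fin k → V) (d : Fin k → O),
    (∀ i j, T.R (d i) (d j) (col (p i) (p j))) → ∃ z, ∀ i, col z (p i) = d i

/-- the outcome of the induction theorem -/
structure Chi (T : Str O) {V : Type} (col : V → V → O) (n : ℕ)
    (χ : (i : Fin n) → (Row n i → V) → (Row n i → V) → O) : Prop where
  closed : ∀ i, Closed T (χ i)
  cons : ∀ i p q, ∃ a : Row n i, χ i p q = col (p a) (q a)
  minor : ∀ (i j : Fin n) (x y : ZMod 2 → V), i ≠ j →
    χ i (fun a => x (a.1 j)) (fun a => y (a.1 j)) = χ j (fun b => x (b.1 i)) (fun b => y (b.1 i))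

/-- `(u, v)` is a `c`-`S`-pair: label `c` at the coordinates in `S`, equal at the others -/
def SPair {V A : Type} (col : V → V → O) (c : O) (S : Set A) (u v : A → V) : Prop :=
  ∀ a, (a ∈ S → col (u a) (v a) = c) ∧ (a ∉ S → u a = v a)

/-- `a` wins or ties against `b` (the identity is lowest) -/
def Ge (T : Str O) (L : {a : O // a ≠ T.e} → {a : O // a ≠ T.e} → Prop) (a b : O) : Prop :=
  a = b ∨ b = T.e ∨ ∃ (ha : a ≠ T.e) (hb : b ≠ T.e), L ⟨a, ha⟩ ⟨b, hb⟩

end Defs

/-- MODULE EXI, `theorem m_EXI : StEXI` (about 120 lines).  V = ℕ.  The type of lists `List (ℕ × O)` is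
countable and nonempty, so there is a surjection ℕ → List (ℕ × O) × ℕ; its first component
D : ℕ → List (ℕ × O) takes every value at arbitrarily large n (the preimage of an infinite set is
infinite).  For a list ℓ put τ ℓ j := some o with (j, o) ∈ ℓ if there is one, s otherwise.
Build c by recursion on n: rows r n : ℕ → O (the labels c n j for j < n), c i j := e if i = j, r i j if
j < i, r j i if i < j.  Given the rows < n: if for all i, j < n: τ (D n) i ≠ e and
R (τ (D n) i) (τ (D n) j) (c i j), put r n j := τ (D n) j; otherwise r n j := s.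
Closed: by strong induction all triangles in {0..n} are allowed (the new ones R (r n i) (r n j) (c i j)
by the condition, or R s s (c i j): flex if c i j ≠ e, and i = j gives R s s e ok; permute with sw, rot;
degenerate triangles by idl).  Strict: r n j ≠ e.
Extension: p, d given.  If some d i = e: z := p i (R e (d j) (c (p i) (p j)) gives d j = c (p i) (p j)).
Otherwise ℓ := List.ofFn (i ↦ (p i, d i)) (p i = p j implies R (d i) (d j) e, so d i = d j: τ ℓ (p i) = d i),
take n larger than all p i with D n = ℓ: the condition holds (both indices among the p: hypothesis;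
otherwise one value is s and the other one is not e; c i j = e only for i = j): z = n works.
(k = 0 is included.) -/
def StEXI : Prop := ∀ (O : Type) [Finite O] (T : Str O), ∃ (V : Type) (col : V → V → O), UNet T col

/-- MODULE IU, `theorem m_IU : StIB → StIU` (about 100 lines): the induction theorem for infinite V by
compactness.  Let 𝒰 be an ultrafilter on `Finset V` containing all {F | F0 ⊆ F} (`Ultrafilter.of atTop`).
For every F : Finset V apply StIB to the finite type ↥F with the restriction of col: χ^F.  For
p q : Row n i → V put G F := χ^F i p' q' if all p a, q a ∈ F (p', q' the corestrictions), e otherwise.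
As O is finite there is a unique value o with {F | G F = o} ∈ 𝒰; χ i p q := o.  For finitely many points
almost all F contain all their values (Row n i is finite), so closedness, conservativity and minors
pass to the limit (for conservativity: there are only finitely many a, or: choose one F in the
intersection). -/
def StIU : Prop := ∀ (O : Type) [Finite O] (T : Str O) (l k : ℕ) (_ : l ≤ k) (_ : CSolves T l k)
  (n : ℕ) (_ : k < n) (V : Type) (col : V → V → O) (_ : Closed T col),
  ∃ χ : (i : Fin n) → (Row n i → V) → (Row n i → V) → O, Chi T col n χ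

/-- MODULE EMB, `theorem m_EMB : StEMB` (about 50 lines).  First for X = Fin m by induction on m: given ι on
Fin m apply `ext` with k = m, p = ι, d j = c0 (last) (castSucc j); then transport along X ≃ Fin m. -/
def StEMB : Prop := ∀ (O : Type) (T : Str O) (V : Type) (col : V → V → O), UNet T col →
  ∀ (X : Type) [Finite X] (c0 : X → X → O), Closed T c0 →
  ∃ ι : X → V, ∀ x y, col (ι x) (ι y) = c0 x y

/-- MODULE FA, `theorem m_FA : StFA` (about 80 lines): fresh pairs and links, by `ext`.
(1) f := ext of (u,v,u',v') with all labels s (R s s (col ..): flex, or R s s e); f' := ext of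
(f,u,v,u',v') with labels (c,s,s,s,s) (R c s s; R s s (col ..)).
(2) r := ext of (u,v,f,f') with labels (y,s,y,s): every condition R d d' l with l the mutual label
(c or s, not e) and d ≠ ... is R y s c, R y y s, R y s s, R s s s, R s y c: all contain s and no e;
diagonal ones are R d d e.  r' := ext of (r,u,v,f,f') with labels (c,s,y,s,y): (r,u): R c s y,
(r,v): R c y s, (r,f): R c s y, (r,f'): R c y s, (u,v): R s y c, (u,f): R s s s, (u,f'): R s y s,
(v,f): R y s s, (v,f'): R y y s, (f,f'): R s y c.
(3) ext of (u,f) with labels (y,y). -/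
def StFA : Prop := ∀ (O : Type) (T : Str O) (V : Type) (col : V → V → O), UNet T col →
  ∀ c y : O, c ≠ T.e → y ≠ T.e →
  (∀ u v u' v' : V, ∃ f f' : V, col f f' = c ∧
    (col f u = T.s ∧ col f v = T.s ∧ col f u' = T.s ∧ col f v' = T.s) ∧
    (col f' u = T.s ∧ col f' v = T.s ∧ col f' u' = T.s ∧ col f' v' = T.s)) ∧
  (∀ u v f f' : V, col u v = c → col f f' = c → col u f = T.s → col u f' = T.s → col v f = T.s →
    col v f' = T.s → ∃ r r' : V, col r r' = c ∧ col u r = y ∧ col f r = y ∧ col v r' = y ∧
      col f' r' = y) ∧
  (∀ u f : V, col u f = T.s → ∃ r : V, col u r = y ∧ col f r = y)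

/-- MODULE FL, `theorem m_FL : StFA → StFL` (about 100 lines).  For a c-S-pair χ i u v is c or e (cons).
(A) If (u,v), (r,r') are c-S-pairs with col (u a) (r a) = y = col (v a) (r' a) for all a, then
χ i u v = e iff χ i r r' = e: by cons χ u r = y = χ v r'.  If χ u v = e then χ v r = χ u r = y (idl), and
the triangle r, v, r' is R y y (χ r r'), so χ r r' ≠ c.  If χ r r' = e then χ v r = χ v r' = y and the
triangle u, r, v is R y y (χ u v), so χ u v ≠ c.
(B) If (u,v), (f,f') are c-S-pairs and all four labels between u a, v a and f a, f' a are s for all a,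
choose (StFA (2) for a ∈ S; (3) with r = r' for a ∉ S) a c-S-pair (r,r') linked with both: by (A) twice
χ u v = e iff χ f f' = e.
(C) For two arbitrary c-S-pairs choose by StFA (1), at each coordinate (f = f' for a ∉ S), a c-S-pair
(f,f') as in (B) for both. -/
def StFL : Prop := ∀ (O : Type) (T : Str O) (V : Type) (col : V → V → O), UNet T col →
  ∀ (n : ℕ) (χ : (i : Fin n) → (Row n i → V) → (Row n i → V) → O), Chi T col n χ →
  ∀ c y : O, c ≠ T.e → y ≠ T.e → ¬ T.R c y y →
  ∀ (i : Fin n) (S : Set (Row n i)) (u v u' v' : Row n i → V),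
    SPair col c S u v → SPair col c S u' v' → (χ i u v = c ↔ χ i u' v' = c)

/-- MODULE H1, `theorem m_H1 : StFL → StIC → StH1` (about 100 lines).  Suppose c ≠ e, not R c c c.
Take x0, x1 in V with col x0 x1 = c (ext with k = 0, then k = 1).  For a set S of coordinates put
pt S a := x1 if a ∈ S, x0 otherwise.  (pt S, pt S') is a c-(S ∆ S')-pair.
v i S := 1 if χ i (pt ∅) (pt S) = c, 0 otherwise.  By StFL (y := c) the value of χ i at every c-S-pair is
c iff v i S = 1 (otherwise e).  Triangle pt ∅, pt S, pt (S ∆ S'): the three pairs are of types S, S',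
S ∆ S'; not all three values are c, and R e a b gives a = b, so the number of c is even: v i additive.
v i univ = 1 by cons.  v i {a | a j = 1} = v j {b | b i = 1}: `minor` with x = (z ↦ x0),
y = (z ↦ x1 if z = 1, x0 otherwise).  StIC gives False. -/
def StH1 : Prop := ∀ (O : Type) (T : Str O) (V : Type) (col : V → V → O), UNet T col →
  ∀ (n : ℕ), 0 < n → ∀ (χ : (i : Fin n) → (Row n i → V) → (Row n i → V) → O), Chi T col n χ →
  H1 (toNS T)

/-- MODULE GR, `theorem m_GR : StFL → StGR` (about 100 lines).  J i S := χ i (pt ∅) (pt S) = c with pt as in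
H1; by StFL the first claim.  J univ and not J ∅ by cons (col x x = e).
J (S ∪ S') → J S ∨ J S': points u, v, w: at a ∈ S ∩ S' three points with mutual labels c (x0, x1 and x2
by ext, R c c c), at a ∈ S \ S': u = x0, v = w = x1; at a ∈ S' \ S: u = v = x0, w = x1; else x0.  (u,v) is a
c-S-pair, (v,w) a c-S'-pair, (u,w) a c-(S ∪ S')-pair; χ u v = e and χ v w = e imply χ u w = e.
S ⊆ S', J S → J S': at a ∈ S three points x0, x1, x2, at a ∈ S' \ S: u = v = x0, w = x1, else x0; types of
(u,v), (v,w), (u,w): S, S', S'.  χ v w = e = χ u w imply χ u v = e.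
Minors as in H1. -/
def StGR : Prop := ∀ (O : Type) (T : Str O) (V : Type) (col : V → V → O), UNet T col →
  ∀ (n : ℕ) (χ : (i : Fin n) → (Row n i → V) → (Row n i → V) → O), Chi T col n χ →
  ∀ c y : O, c ≠ T.e → y ≠ T.e → ¬ T.R c y y → T.R c c c →
  ∃ J : (i : Fin n) → Set (Row n i) → Prop,
    (∀ (i : Fin n) (S : Set (Row n i)) (u v : Row n i → V),
      SPair col c S u v → (χ i u v = c ↔ J i S)) ∧
    (∀ i, J i Set.univ) ∧ (∀ i, ¬ J i ∅) ∧
    (∀ i S S', J i (S ∪ S') → J i S ∨ J i S') ∧
    (∀ i S S', S ⊆ S' → J i S → J i S') ∧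
    ∀ i j : Fin n, i ≠ j → (J i {a | a.1 j = 1} ↔ J j {b | b.1 i = 1})

/-- MODULE GA, `theorem m_GA : StGA` (about 100 lines).  Let i, S be given, P := a constant point.
Start: choose Q0', Q0 coordinatewise: for a ∈ S: col P Q0' = z (ext, k = 1), col P Q0 = w and
col Q0' Q0 = c (ext, k = 2; R c z w); for a ∉ S: Q0 = Q0' with col P Q0 = y.  (Q0', Q0) is a c-S-pair.
Invariant for (p, q): there is Q with col P (Q a) = p for a ∈ S, = q for a ∉ S, and
(χ Q0' Q0 = c → χ P Q = p).  It holds for (w, y): χ P Q0' is z or y, χ P Q0 is w or y; if it were y, the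
triangle would give R c z y or R c y y.
Step FImp (p,q) (p',q'): in both cases there is x with R x p p', R x q q', not R x p q'.  Choose Q' with
col Q Q' = x everywhere, col P Q' = p' on S, q' off S (ext with k = 2: R p' x p, R q' x q).  χ Q Q' = x,
χ P Q' is p' or q', and if χ P Q = p it is not q'.
End (y', w'): choose Q' = Q on S, and off S col P Q' = z', col Q Q' = c' (R c' z' w').  (Q, Q') is a
c'-(complement of S)-pair; if χ P Q = y' then χ Q Q' = e: otherwise it is c', and χ P Q' is y' or z', so
R c' y' y' or R c' z' y'. -/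
def StGA : Prop := ∀ (O : Type) (T : Str O) (V : Type) (col : V → V → O), UNet T col →
  ∀ (n : ℕ) (χ : (i : Fin n) → (Row n i → V) → (Row n i → V) → O), Chi T col n χ →
  ∀ w y w' y' c z c' z' : {a : O // a ≠ T.e},
    T.R c.1 z.1 w.1 → ¬ T.R c.1 z.1 y.1 → ¬ T.R c.1 y.1 y.1 →
    T.R c'.1 z'.1 w'.1 → ¬ T.R c'.1 z'.1 y'.1 → ¬ T.R c'.1 y'.1 y'.1 →
    ReflTransGen (FImp (toNS T)) (w, y) (y', w') →
    ∀ (i : Fin n) (S : Set (Row n i)), ∃ u v u' v' : Row n i → V, SPair col c.1 S u v ∧
      SPair col c'.1 Sᶜ u' v' ∧ (χ i u v = c.1 → χ i u' v' = T.e)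

/-- MODULE UF, `theorem m_UF : StUF` (about 60 lines).  J S ∨ J Sᶜ by the union property and J univ; not
both: otherwise not J' Sᶜ and not J' S, so not J' univ.  Intersections: J S, J S' give not J Sᶜ,
not J S'ᶜ, so not J (Sᶜ ∪ S'ᶜ), so J (S ∩ S').  S ∆ S': if J S and J S': it is contained in
(S ∩ S')ᶜ, not in J.  If J S, not J S': J S'ᶜ, so J (S ∩ S'ᶜ), J (S ∆ S').  If neither: it is contained
in S ∪ S'. -/
def StUF : Prop := ∀ (A : Type) (J J' : Set A → Prop), J Set.univ → J' Set.univ →
  (∀ S S', J (S ∪ S') → J S ∨ J S') → (∀ S S', J' (S ∪ S') → J' S ∨ J' S') →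
  (∀ S S', S ⊆ S' → J S → J S') → (∀ S, J S → ¬ J' Sᶜ) →
  ∀ S S', J (symmDiff S S') ↔ (J S ↔ ¬ J S')

/-- MODULE H2, `theorem m_H2 : StGR → StGA → StUF → StIC → StH2` (about 60 lines).  Suppose U1 w y (with c, z)
and U1 w' y' (with c', z') and a walk from (w,y) to (y',w').  StGR for c, y and for c', y' (R c c c,
R c' c' c' by H1) gives J, J'.  StGA gives J S → not J' Sᶜ.  By StUF, v i S := (1 if J i S, else 0) is
additive; StIC gives False. -/
def StH2 : Prop := ∀ (O : Type) (T : Str O) (V : Type) (col : V → V → O), UNet T col →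
  ∀ (n : ℕ), 0 < n → ∀ (χ : (i : Fin n) → (Row n i → V) → (Row n i → V) → O), Chi T col n χ →
  H1 (toNS T) → H2 (toNS T)

/-- MODULE SH, `theorem m_SH : StSH` (about 60 lines).  Shift graph: W := pairs (a, b) with a < b in
Fin (2 ^ q + 1), E (a,b) (c,d) := b = c ∨ d = a.  Symmetric, irreflexive, triangle-free (compare the
entries: omega).  Let f be a colouring with Q, card Q ≤ q, and suppose no edge is monochromatic.  A a :=
{f (a,b) : b > a}.  For a < b: f (a,b) ∈ A a, and not in A b (if f (a,b) = f (b,c) this is a
monochromatic edge).  So A is injective from Fin (2 ^ q + 1) to Set Q, which has at most 2 ^ q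
elements, contradiction. -/
def StSH : Prop := ∀ q : ℕ, ∃ (W : Type) (_ : Finite W) (E : W → W → Prop),
  (∀ v v', E v v' → E v' v) ∧ (∀ v, ¬ E v v) ∧ (∀ u v w, E u v → E v w → ¬ E u w) ∧
  ∀ (Q : Type) [Finite Q], Nat.card Q ≤ q → ∀ f : W → Q, ∃ v v', E v v' ∧ f v = f v'

/-- MODULE G, `theorem m_G : StSH → StG` (about 100 lines).  Induction on X (`Finite.induction_empty_option`;
strengthen: the class of κ is nonempty, which is in the statement).  Empty X: one point.  Transport
along an equivalence is trivial.  X = Option Y: let G, adj be given for Y, W, E the graph StSH for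
(q ^ Nat.card G) colours; G' := G × W, adj' (some x) (v,w) (v',w') := adj x v v' ∧ w = w',
adj' none (v,w) (v',w') := v = v' ∧ E w w'.  Symmetric, irreflexive, tags unique (both: v ≠ v' or
v = v'), triangle-free: three equal kinds: G resp. W is triangle-free; mixed kinds: two edges of one kind
and one of the other kind give a contradiction with irreflexivity.  Colouring f : G × W → Q: colour w by
the function (v ↦ f (v,w)) : G → Q (at most q ^ card G): there is an edge E w w' with f (v,w) = f (v,w')
for all v.  The induction hypothesis for v ↦ f (v,w) gives κ; edges with tag some x stay in the copy w,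
the edge (v,w), (v,w') with f (v,w) = κ has the tag none. -/
def StG : Prop := ∀ (X : Type) [Finite X] (q : ℕ), ∃ (G : Type) (_ : Finite G)
  (adj : X → G → G → Prop),
  (∀ x v v', adj x v v' → adj x v' v) ∧ (∀ x v, ¬ adj x v v) ∧
  (∀ x y v v', adj x v v' → adj y v v' → x = y) ∧
  (∀ x y z v1 v2 v3, adj x v1 v2 → adj y v2 v3 → ¬ adj z v1 v3) ∧
  ∀ (Q : Type) [Finite Q], Nat.card Q ≤ q → ∀ f : G → Q,
    ∃ κ : Q, (∃ v, f v = κ) ∧ ∀ x, ∃ v v', f v = κ ∧ f v' = κ ∧ adj x v v'

/-- MODULE H4A, `theorem m_H4A : StEMB → StG → StH4A` (about 200 lines).  Let Q be the finite type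
(i : Fin n) → (Row n i → N) → O, q := Nat.card Q, G, adj from StG for X := N.  Labelling lab of
Option (N × G): lab none none = e; lab none (some (t,v)) = t = lab (some (t,v)) none; for
p = some (t,v), p' = some (t',v'): e if p = p', the (unique) x if adj x v v' and R x t t' for some x : N,
and s otherwise.  Closed: triangles with none: R t x t', or flex, or idl; triangles of three different
points of the second kind: if all labels came from adj this would be a triangle, so one label is s, and
no label is e: flex.  StEMB gives ι : Option (N × G) → V.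
For t : Row n i → N and v : G let pt i t v := (a ↦ ι (some (t a, v))), P i := (a ↦ ι none).
F v i t := χ i (P i) (pt i t v); by cons it is (t a).1 for some a.  StG for the colouring v ↦ F v gives a
class κ = F v0; h i t := ⟨κ i t, not e⟩.  cons: clear.  pres: let R x (t a) (t' a) for all a, take v, v'
in the class with adj x v v': χ (pt t v) (pt t' v') = x by cons (here p ≠ p' as v ≠ v' by
irreflexivity), and the triangle P, pt t v, pt t' v' gives R (h t) x (h t').
Minors: `minor` with x := (z ↦ ι none), y := (z ↦ ι (some (x z, v0))). -/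
def StH4A : Prop := ∀ (O : Type) [Finite O] (T : Str O) (V : Type) (col : V → V → O), UNet T col →
  ∀ (n : ℕ) (χ : (i : Fin n) → (Row n i → V) → (Row n i → V) → O), Chi T col n χ →
  ∃ h : (i : Fin n) → (Row n i → {a : O // a ≠ T.e}) → {a : O // a ≠ T.e},
    (∀ i, Pol (toNS T) (h i)) ∧
    ∀ (i j : Fin n), i ≠ j → ∀ x : ZMod 2 → {a : O // a ≠ T.e},
      h i (fun a => x (a.1 j)) = h j (fun b => x (b.1 i))

/-- MODULE H4B, `theorem m_H4B : StIC → StH4B` (about 150 lines).  Suppose a ≠ b, no binary m in Pol is
commutative on {a,b}, and no ternary m in Pol is a majority on {a,b}.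
Minors of h i: for a partition of Row n i (a map φ from Row n i to Fin 2 or Fin 3) the operation
x ↦ h i (r ↦ x (φ r)) is in Pol; compositions of members of Pol are in Pol.
v i S := 1 if h i (b on S, a off S) = b, 0 otherwise.  v univ = 1 by cons, minors clear.
(1) v S + v Sᶜ = 1: for m x y := h i (x on S, y off S), m b a and m a b are different and in {a,b}.
(2) For a partition (A,B,C): v A + v B + v C = 1.  Let M x y z := h i (x on A, y on B, z on C).  By (1)
M a b b = a iff M b a a = b etc.  If all three are 0 then M is a majority on {a,b}.  If exactly two are 1,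
say (permuting the variables) M b a a = b, M a b a = b, M a a b = a, then M a b b = a, M b a b = a,
M b b a = b, i.e. M x y z is x ∨ y for z = a and x ∧ y for z = b (a < b); then
x y z ↦ M x y (M x y z) is a majority on {a,b}.
(3) So v (A ∪ B) = v A + v B for disjoint A, B, and v is additive for the symmetric difference.
StIC gives False. -/
def StH4B : Prop := ∀ (N : Type) (S : NS N) (n : ℕ), 0 < n →
  ∀ h : (i : Fin n) → (Row n i → N) → N, (∀ i, Pol S (h i)) →
  (∀ (i j : Fin n), i ≠ j → ∀ x : ZMod 2 → N,
    h i (fun a => x (a.1 j)) = h j (fun b => x (b.1 i))) → H4 S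

/-- MODULE F1, `theorem m_F1 : StF1` (about 100 lines).  R is totally symmetric.  If c' = c trivial; so c' ≠ e
and (c = e or c' beats c).
Case c = e: then a = b, a ≠ e (otherwise a' = b' = e and c' = e).  a' = e: b' = c' and
R a a c' by H1 (c' = a) or c2.  b' = e: same.  Otherwise R c' a' b': a' = b' = a trivial; a' = a, a beats
b': c3 (R c' a b' → R c' a a), symmetric; a beats a' and b': c1'.
Case c ≠ e, c' beats c.  a = e: then a' = e, b' = c', b = c, and Ge b b' contradicts that c' beats b
(L is a linear order).  b = e same.  So a, b ≠ e.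
 a' = e: b' = c', Ge b c'.  If b = c': R a b c and b beats c: c3 gives R a b b.  If b beats c':
 b > c' > c and R a b c: c1 (x = a, z = b, y = c', w = c).  b' = e same.
 a', b' ≠ e: compare c' with b: if b beats c': c1 as before; if c' = b: c3.  Same with a.  If c' beats a
 and b: R b' c' a', c' > a ≥ a': c1 (or trivial if a = a') gives R b' c' a; then R a c' b', c' > b ≥ b':
 c1 gives R a c' b. -/
def StF1 : Prop := ∀ (O : Type) (T : Str O) (L : {a : O // a ≠ T.e} → {a : O // a ≠ T.e} → Prop),
  H1 (toNS T) → Good (toNS T) L → ∀ a b c a' b' c' : O, T.R a b c → T.R a' b' c' →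
  Ge T L a a' → Ge T L b b' → Ge T L c' c → T.R a b c'

/-- MODULE F2, `theorem m_F2 : StF1 → StF2` (about 120 lines).  Let P be the (2,3)-minimal refinement.
C u v := the set of all σ u v, σ ∈ P {u,v}: nonempty, contained in F u v; C u u = {e}, C u v = C v u.
For all u, v, w and α ∈ C u v there are β ∈ C v w, γ ∈ C u w with R α β γ (extension to {u,v,w}, closed).
Ge is a total order (antisymmetric, transitive, total) on O, so C u v has a Ge-greatest element m u v
(O finite).  m u u = e, m u v = m v u.  Triangle u, v, w: triples (α1,β1,γ1), (α2,β2,γ2), (α3,β3,γ3) in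
R with α1 = m u v, β2 = m v w, γ3 = m u w and all entries in C u v, C v w, C u w.  By StF1 (and total
symmetry of R), the first two give R (m u v) (m v w) γ with γ the greater one of γ1, γ2; then with the
third triple StF1 gives R (m u v) (m v w) (m u w).  So m is a solution. -/
def StF2 : Prop := ∀ (O : Type) [Finite O] (T : Str O), H1 (toNS T) →
  (∃ L, Good (toNS T) L) → CSolves T 2 3

/-- MODULE CORE: `theorem m_CORE : StEXI → StIU → StH1 → StH2 → StH4A → StH4B → StComb → StF2 → StCore`.
Take n = k + 1. -/
def StCORE : Prop := StEXI → StIU → StH1 → StH2 → StH4A → StH4B → StComb → StF2 → StCore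

end RA7
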