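import Pool.Agent.Helper74.RA7.Base

namespace RA7

open Relation

namespace A

/-- invertible pairs of a subset are invertible -/
theorem inv_of_sub {D : Type} {δ : D → D → ℕ} {P : D → Prop} {p q : {x // P x}}
    (h : Inv (fun a b : {x // P x} => δ a.1 b.1) p q) : Inv δ p.1 q.1 := by
  have lift : ∀ x y : {x // P x} × {x // P x},
      ReflTransGen (CImp (fun a b : {x // P x} => δ a.1 b.1)) x y →
      ReflTransGen (CImp δ) (x.1.1, x.2.1) (y.1.1, y.2.1) := by
    intro x y hxy
    refine hxy.lift (fun z : {x // P x} × {x // P x} => (z.1.1, z.2.1)) ?_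
    rintro a b (⟨h1, h2⟩ | ⟨h1, h2⟩)
    · exact Or.inl ⟨h1, congrArg Subtype.val h2⟩
    · exact Or.inr ⟨h1, congrArg Subtype.val h2⟩
  exact ⟨fun he => h.1 (Subtype.ext he), lift _ _ h.2.1, lift _ _ h.2.2⟩

end A

theorem a : StOrd → StCtx → StA := by
  intro hOrd hCtx
  have key : ∀ n : ℕ, ∀ (D : Type) [Finite D] (δ : D → D → ℕ), Nat.card D = n → Met δ →
      (∃ g, IsMaj δ g) → ¬ ∃ p q, Inv δ p q := by
    intro n
    induction n using Nat.strong_induction_on with
    | _ n ih =>
      intro D _ δ hn hM hg hinv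
      refine hCtx D δ ⟨hM, hg, hinv, ?_⟩
      rintro P ⟨x, hx⟩
      have hlt : Nat.card {x // P x} < n := by
        rw [← hn]
        exact Finite.card_subtype_lt hx
      have hM' : Met (fun a b : {x // P x} => δ a.1 b.1) :=
        ⟨fun a b => hM.symm _ _, fun a => hM.zero _⟩
      obtain ⟨g, hg⟩ := hg
      have hP : ∀ a b c : {x // P x}, P (g a.1 b.1 c.1) := by
        intro a b c
        rcases hg.cons a.1 b.1 c.1 with h | h | h
        · rw [h]; exact a.2
        · rw [h]; exact b.2
        · rw [h]; exact c.2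
      have hg' : ∃ g', IsMaj (fun a b : {x // P x} => δ a.1 b.1) g' := by
        refine ⟨fun a b c => ⟨g a.1 b.1 c.1, hP a b c⟩, ?_, ?_, ?_⟩
        · intro a b c
          rcases hg.cons a.1 b.1 c.1 with h | h | h
          · exact Or.inl (Subtype.ext h)
          · exact Or.inr (Or.inl (Subtype.ext h))
          · exact Or.inr (Or.inr (Subtype.ext h))
        · intro a b c a' b' c'
          exact hg.nonexp _ _ _ _ _ _
        · intro p q hpq
          obtain ⟨h1, h2, h3⟩ := hg.maj _ _ (A.inv_of_sub hpq)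
          exact ⟨Subtype.ext h1, Subtype.ext h2, Subtype.ext h3⟩
      exact (hOrd _ _ hM').1 (ih _ hlt _ _ rfl hM' hg')
  intro D _ δ hM hg
  exact key _ D δ rfl hM hg

end RA7
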