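import Pool.Agent.Helper74.RA7.Base

/-!
# Project RA7, module A1: basic facts in a minimal counterexample
-/

namespace RA7

open Relation

namespace A1

variable {D : Type}

theorem swapStep {δ : D → D → ℕ} (hm : Met δ) {a b : D × D} (h : CImp δ a b) :
    CImp δ b.swap a.swap := by
  obtain ⟨a1, a2⟩ := a
  obtain ⟨b1, b2⟩ := b
  simp only [CImp, Prod.swap] at h ⊢
  rcases h with ⟨h1, h2⟩ | ⟨h1, h2⟩
  · right
    subst h2
    refine ⟨?_, rfl⟩
    rw [hm.symm b1 a1, hm.symm a2 a1]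
    exact h1
  · left
    subst h2
    refine ⟨?_, rfl⟩
    rw [hm.symm b2 a2, hm.symm b2 a1]
    exact h1

theorem swapWalk {δ : D → D → ℕ} (hm : Met δ) {a b : D × D}
    (h : ReflTransGen (CImp δ) a b) : ReflTransGen (CImp δ) b.swap a.swap := by
  induction h with
  | refl => exact ReflTransGen.refl
  | tail _ hbc ih => exact ReflTransGen.head (swapStep hm hbc) ih

theorem nondeg {δ : D → D → ℕ} (hm : Met δ) {a b : D × D} (h : CImp δ a b) : b.1 ≠ b.2 := by
  obtain ⟨a1, a2⟩ := a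
  obtain ⟨b1, b2⟩ := b
  simp only [CImp] at h ⊢
  rcases h with ⟨h1, h2⟩ | ⟨h1, h2⟩
  · intro h3
    subst h2
    subst h3
    exact lt_irrefl _ h1
  · intro h3
    subst h2
    subst h3
    rw [hm.zero] at h1
    exact Nat.not_lt_zero _ h1

theorem nondegWalk {δ : D → D → ℕ} (hm : Met δ) {a b : D × D} (ha : a.1 ≠ a.2)
    (h : ReflTransGen (CImp δ) a b) : b.1 ≠ b.2 := by
  cases h with
  | refl => exact ha
  | tail _ hbc => exact nondeg hm hbc

theorem invSymm {δ : D → D → ℕ} {p q : D} (h : Inv δ p q) : Inv δ q p :=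
  ⟨fun e => h.1 e.symm, h.2.2, h.2.1⟩

theorem irr {δ : D → D → ℕ} (hm : Met δ) (p : D) : ¬ FF δ p p := by
  rintro ⟨a, b, hi, hw⟩
  exact nondegWalk hm (a := (a, b)) hi.1 hw rfl

theorem ffStep {δ : D → D → ℕ} {p q p' q' : D} (h : FF δ p q) (hs : CImp δ (p, q) (p', q')) :
    FF δ p' q' := by
  obtain ⟨a, b, hi, hw⟩ := h
  exact ⟨a, b, hi, hw.tail hs⟩

theorem s1 {δ : D → D → ℕ} {p q p' : D} (h : FF δ p q) (hl : δ p p' < δ p q) : FF δ p' q :=
  ffStep h (Or.inl ⟨hl, rfl⟩)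

theorem s2 {δ : D → D → ℕ} {p q q' : D} (h : FF δ p q) (hl : δ q q' < δ p q') : FF δ p q' :=
  ffStep h (Or.inr ⟨hl, rfl⟩)

theorem ffOfInv {δ : D → D → ℕ} {p q : D} (h : Inv δ p q) : FF δ p q :=
  ⟨p, q, h, ReflTransGen.refl⟩

theorem inv {δ : D → D → ℕ} (hm : Met δ) (p q : D) : Inv δ p q ↔ (FF δ p q ∧ FF δ q p) := by
  constructor
  · intro h
    exact ⟨ffOfInv h, ffOfInv (invSymm h)⟩
  · rintro ⟨h1, h2⟩
    have hne : p ≠ q := by
      rintro rfl
      exact irr hm _ h1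
    obtain ⟨a, b, hi, hw⟩ := h1
    obtain ⟨c, d, hj, hv⟩ := h2
    have e1 : ReflTransGen (CImp δ) (q, p) (b, a) := swapWalk hm hw
    have e2 : ReflTransGen (CImp δ) (p, q) (d, c) := swapWalk hm hv
    exact ⟨hne, (e2.trans hj.2.2).trans hv, (e1.trans hi.2.2).trans hw⟩

/-- lifting a walk inside a class to a subtype -/
theorem lift {δ : D → D → ℕ} (P : D → Prop) (s : D × D)
    (hP : ∀ l, ReflTransGen (CImp δ) s l → ReflTransGen (CImp δ) l s → P l.1 ∧ P l.2)
    (hs : P s.1 ∧ P s.2) (l : D × D) (h : ReflTransGen (CImp δ) s l)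
    (h' : ReflTransGen (CImp δ) l s) (hl : P l.1 ∧ P l.2) :
    ReflTransGen (CImp (fun a b : {x // P x} => δ a.1 b.1))
      (⟨s.1, hs.1⟩, ⟨s.2, hs.2⟩) (⟨l.1, hl.1⟩, ⟨l.2, hl.2⟩) := by
  induction h with
  | refl => exact ReflTransGen.refl
  | @tail b c hab hbc ih =>
    have hb' : ReflTransGen (CImp δ) b s := ReflTransGen.head hbc h'
    have hPb := hP b hab hb'
    refine (ih hb' hPb).tail ?_
    obtain ⟨b1, b2⟩ := b
    obtain ⟨c1, c2⟩ := c
    simp only [CImp] at hbc ⊢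
    rcases hbc with ⟨h1, h2⟩ | ⟨h1, h2⟩
    · left
      exact ⟨h1, Subtype.ext h2⟩
    · right
      exact ⟨h1, Subtype.ext h2⟩

theorem cov' (hO : StOrd) [Finite D] {δ : D → D → ℕ} (hc : Ctx δ) {a b : D} (hi : Inv δ a b)
    (t : D) : ∃ y, ReflTransGen (CImp δ) (a, b) (t, y) ∧ ReflTransGen (CImp δ) (t, y) (a, b) := by
  by_contra hcon
  have hm := hc.met
  let P : D → Prop := fun x => ∃ y, ReflTransGen (CImp δ) (a, b) (x, y) ∧
    ReflTransGen (CImp δ) (x, y) (a, b)
  have hord := hc.ord P ⟨t, hcon⟩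
  have hmet : Met (fun a b : {x // P x} => δ a.1 b.1) :=
    ⟨fun u v => hm.symm _ _, fun u => hm.zero _⟩
  have hno := (hO {x // P x} (fun a b : {x // P x} => δ a.1 b.1) hmet).2 hord
  have hP : ∀ l, ReflTransGen (CImp δ) (a, b) l → ReflTransGen (CImp δ) l (a, b) →
      P l.1 ∧ P l.2 := by
    intro l h1 h2
    refine ⟨⟨l.2, h1, h2⟩, ⟨l.1, ?_, ?_⟩⟩
    · have : ReflTransGen (CImp δ) (b, a) l.swap := swapWalk hm h2
      exact hi.2.1.trans this
    · have : ReflTransGen (CImp δ) l.swap (b, a) := swapWalk hm h1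
      exact this.trans hi.2.2
  have hab : P a ∧ P b := hP (a, b) ReflTransGen.refl ReflTransGen.refl
  have hP' : ∀ l, ReflTransGen (CImp δ) (b, a) l → ReflTransGen (CImp δ) l (b, a) →
      P l.1 ∧ P l.2 := by
    intro l h1 h2
    exact hP l (hi.2.1.trans h1) (h2.trans hi.2.2)
  apply hno
  refine ⟨⟨a, hab.1⟩, ⟨b, hab.2⟩, ?_, ?_, ?_⟩
  · intro e
    exact hi.1 (congrArg Subtype.val e)
  · exact lift P (a, b) hP hab (b, a) hi.2.1 hi.2.2 ⟨hab.2, hab.1⟩
  · exact lift P (b, a) hP' ⟨hab.2, hab.1⟩ (a, b) hi.2.2 hi.2.1 hab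

theorem inClass {δ : D → D → ℕ} (hm : Met δ) {a b : D} (hi : Inv δ a b) {p q : D}
    (h1 : ReflTransGen (CImp δ) (a, b) (p, q)) (h2 : ReflTransGen (CImp δ) (p, q) (a, b)) :
    Inv δ p q := by
  rw [inv hm]
  refine ⟨⟨a, b, hi, h1⟩, ⟨b, a, invSymm hi, ?_⟩⟩
  exact swapWalk hm h2

/-- the property used for `nt` -/
def Q (δ : D → D → ℕ) (t : D) (l : D × D) : Prop :=
  t = l.1 ∨ t = l.2 ∨ FF δ l.1 t ∨ FF δ t l.2

theorem qStep {δ : D → D → ℕ} (hm : Met δ) {t : D} {a b : D × D} (hF : FF δ a.1 a.2)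
    (hQ : Q δ t a) (h : CImp δ a b) : Q δ t b := by
  obtain ⟨p, q⟩ := a
  obtain ⟨p', q'⟩ := b
  simp only [CImp] at h
  simp only [Q] at hQ ⊢
  simp only at hF
  rcases h with ⟨h1, h2⟩ | ⟨h1, h2⟩
  · subst h2
    rcases hQ with e | e | e | e
    · right; right; right
      rw [e]; exact hF
    · right; left; exact e
    · by_cases hc : δ p p' < δ p t
      · right; right; left
        exact s1 e hc
      · right; right; right
        exact s1 hF (lt_of_le_of_lt (not_lt.mp hc) h1)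
    · right; right; right; exact e
  · subst h2
    rcases hQ with e | e | e | e
    · left; exact e
    · right; right; left
      rw [e]; exact hF
    · right; right; left; exact e
    · have hF' : FF δ p q' := s2 hF h1
      by_cases hc : δ q q' < δ t q'
      · right; right; right
        exact s2 e hc
      · have h3 : δ t q' < δ p q' := lt_of_le_of_lt (not_lt.mp hc) h1
        by_cases hd : δ p t < δ p q'
        · right; right; right
          exact s1 hF' hd
        · right; right; left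
          apply s2 hF'
          rw [hm.symm q' t]
          exact lt_of_lt_of_le h3 (not_lt.mp hd)

theorem qWalk {δ : D → D → ℕ} (hm : Met δ) {t : D} {a b : D × D} (hF : FF δ a.1 a.2)
    (hQ : Q δ t a) (h : ReflTransGen (CImp δ) a b) : FF δ b.1 b.2 ∧ Q δ t b := by
  induction h with
  | refl => exact ⟨hF, hQ⟩
  | tail _ hbc ih => exact ⟨ffStep ih.1 hbc, qStep hm ih.1 ih.2 hbc⟩

theorem nt (hO : StOrd) [Finite D] {δ : D → D → ℕ} (hc : Ctx δ) {p q t : D} (h : FF δ p q)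
    (h1 : t ≠ p) (h2 : t ≠ q) : FF δ p t ∨ FF δ t q := by
  obtain ⟨a, b, hi, hw⟩ := h
  obtain ⟨y, hy1, hy2⟩ := cov' hO hc hi t
  have hinv : Inv δ t y := inClass hc.met hi hy1 hy2
  have := (qWalk hc.met (t := t) (a := (t, y)) (b := (p, q)) (ffOfInv hinv) (Or.inl rfl)
    (hy2.trans hw)).2
  rcases this with e | e | e | e
  · exact absurd e h1
  · exact absurd e h2
  · exact Or.inl e
  · exact Or.inr e

theorem fne {δ : D → D → ℕ} (hm : Met δ) (a b a' b' : D) (h1 : ¬ WW δ b a)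
    (h2 : WW δ b' a') : δ a b' ≤ max (δ a a') (δ b b') := by
  by_contra hcon
  rw [not_le, max_lt_iff] at hcon
  obtain ⟨c1, c2⟩ := hcon
  have e1 : FF δ b' a := by
    apply s2 h2.1
    rw [hm.symm a' a, hm.symm b' a]
    exact c1
  have e2 : FF δ b a := by
    apply s1 e1
    rw [hm.symm b' b, hm.symm b' a]
    exact c2
  have e3 : FF δ a b := by
    by_contra h3
    exact h1 ⟨e2, h3⟩
  have e4 : FF δ a b' := s2 e3 c2
  have e5 : FF δ a' b' := s1 e4 c1
  exact h2.2 e5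

end A1

theorem a1 : StOrd → StA1 := by
  intro hO D _ δ hc
  have hm := hc.met
  refine
    { met := hm
      irr := A1.irr hm
      s1 := fun p q p' h hl => A1.s1 h hl
      s2 := fun p q q' h hl => A1.s2 h hl
      inv := A1.inv hm
      cov := ?_
      nt := fun p q t h h1 h2 => A1.nt hO hc h h1 h2
      fA := ?_
      fB := ?_
      fne := A1.fne hm }
  · intro t
    obtain ⟨a, b, hi⟩ := hc.inv
    obtain ⟨y, hy1, hy2⟩ := A1.cov' hO hc hi t
    exact ⟨y, A1.inClass hm hi hy1 hy2⟩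
  · intro y z w h1 h2
    have := A1.fne hm w y z y h2 h1
    rw [hm.zero y, Nat.max_zero, hm.symm w y, hm.symm w z] at this
    exact this
  · intro z y w h1 h2
    have := A1.fne hm y w y z h2 h1
    rw [hm.zero y, Nat.zero_max, hm.symm y z, hm.symm w z] at this
    exact this

end RA7
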