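import Pool.Agent.Helper74.RA7.Base

/-!
# Project RA7, module A3: a minimal counterexample has no modules with at least 3 elements
-/

namespace RA7

namespace A3

variable {D : Type}

/-- a valid linear order on the elements satisfying `P` -/
structure OrdOn (P : D → Prop) (δ : D → D → ℕ) (L : D → D → Prop) : Prop where
  irr : ∀ p, P p → ¬ L p p
  asy : ∀ p q, P p → P q → L p q → ¬ L q p
  tot : ∀ p q, P p → P q → p ≠ q → L p q ∨ L q p
  tra : ∀ p q r, P p → P q → P r → L p q → L q r → L p r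
  val : ∀ x y z, P x → P y → P z → L x y → L y z → δ x y ≤ δ x z

theorem ordOn {δ : D → D → ℕ} (P : D → Prop)
    (h : Ordb (fun a b : {x // P x} => δ a.1 b.1)) : ∃ L, OrdOn P δ L := by
  obtain ⟨L, ⟨⟨hirr, hasy, htot⟩, htra⟩, hval⟩ := h
  refine ⟨fun p q => ∃ (hp : P p) (hq : P q), L ⟨p, hp⟩ ⟨q, hq⟩, ?_, ?_, ?_, ?_, ?_⟩
  · rintro p _ ⟨hp, _, h⟩
    exact hirr _ h
  · rintro p q _ _ ⟨hp, hq, h⟩ ⟨_, _, h'⟩
    exact hasy _ _ h h'
  · intro p q hp hq hne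
    rcases htot ⟨p, hp⟩ ⟨q, hq⟩ (fun e => hne (congrArg Subtype.val e)) with h | h
    · exact Or.inl ⟨hp, hq, h⟩
    · exact Or.inr ⟨hq, hp, h⟩
  · rintro p q r _ _ _ ⟨hp, hq, h⟩ ⟨_, hr, h'⟩
    exact ⟨hp, hr, htra _ _ _ h h'⟩
  · rintro x y z _ _ _ ⟨hx, hy, h⟩ ⟨_, hz, h'⟩
    exact hval _ _ _ h h'

theorem key {δ : D → D → ℕ} (hm : Met δ) (Λ : D → Prop)
    (hmod : ∀ x a b, ¬ Λ x → Λ a → Λ b → δ x a = δ x b) (y0 z0 : D) (hy : Λ y0) (hz : Λ z0)
    (hmax : ∀ x y, Λ x → Λ y → δ x y ≤ δ y0 z0) (P : D → Prop) (hP : ∀ x, ¬ Λ x → P x)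
    (hPy : P y0) (hPz : P z0) (L1 L2 : D → D → Prop) (h1 : OrdOn P δ L1)
    (h2 : OrdOn Λ δ L2) (h : L1 y0 z0) : Ordb δ := by
  classical
  let L : D → D → Prop := fun a b => (Λ a ∧ Λ b ∧ L2 a b) ∨ (¬ Λ a ∧ ¬ Λ b ∧ L1 a b) ∨
    (Λ a ∧ ¬ Λ b ∧ L1 z0 b) ∨ (¬ Λ a ∧ Λ b ∧ L1 a z0)
  have ll : ∀ a b, Λ a → Λ b → (L a b ↔ L2 a b) := by
    intro a b ha hb
    simp [L, ha, hb]
  have oo : ∀ a b, ¬ Λ a → ¬ Λ b → (L a b ↔ L1 a b) := by
    intro a b ha hb
    simp [L, ha, hb]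
  have lo : ∀ a b, Λ a → ¬ Λ b → (L a b ↔ L1 z0 b) := by
    intro a b ha hb
    simp [L, ha, hb]
  have ol : ∀ a b, ¬ Λ a → Λ b → (L a b ↔ L1 a z0) := by
    intro a b ha hb
    simp [L, ha, hb]
  have ne : ∀ a, ¬ Λ a → a ≠ z0 := by
    rintro a ha rfl
    exact ha hz
  refine ⟨L, ⟨⟨?_, ?_, ?_⟩, ?_⟩, ?_⟩
  · intro p
    by_cases hp : Λ p
    · rw [ll p p hp hp]
      exact h2.irr p hp
    · rw [oo p p hp hp]
      exact h1.irr p (hP p hp)
  · intro p q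
    by_cases hp : Λ p <;> by_cases hq : Λ q
    · rw [ll p q hp hq, ll q p hq hp]
      exact h2.asy p q hp hq
    · rw [lo p q hp hq, ol q p hq hp]
      exact h1.asy z0 q hPz (hP q hq)
    · rw [ol p q hp hq, lo q p hq hp]
      exact h1.asy p z0 (hP p hp) hPz
    · rw [oo p q hp hq, oo q p hq hp]
      exact h1.asy p q (hP p hp) (hP q hq)
  · intro p q hne
    by_cases hp : Λ p <;> by_cases hq : Λ q
    · rw [ll p q hp hq, ll q p hq hp]
      exact h2.tot p q hp hq hne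
    · rw [lo p q hp hq, ol q p hq hp]
      exact h1.tot z0 q hPz (hP q hq) (ne q hq).symm
    · rw [ol p q hp hq, lo q p hq hp]
      exact h1.tot p z0 (hP p hp) hPz (ne p hp)
    · rw [oo p q hp hq, oo q p hq hp]
      exact h1.tot p q (hP p hp) (hP q hq) hne
  · intro p q r
    by_cases hp : Λ p <;> by_cases hq : Λ q <;> by_cases hr : Λ r
    · rw [ll p q hp hq, ll q r hq hr, ll p r hp hr]
      exact h2.tra p q r hp hq hr
    · rw [lo q r hq hr, lo p r hp hr]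
      exact fun _ h => h
    · rw [lo p q hp hq, ol q r hq hr]
      intro e1 e2
      exact absurd e2 (h1.asy z0 q hPz (hP q hq) e1)
    · rw [lo p q hp hq, oo q r hq hr, lo p r hp hr]
      exact h1.tra z0 q r hPz (hP q hq) (hP r hr)
    · rw [ol p q hp hq, ol p r hp hr]
      exact fun h _ => h
    · rw [ol p q hp hq, lo q r hq hr, oo p r hp hr]
      exact h1.tra p z0 r (hP p hp) hPz (hP r hr)
    · rw [oo p q hp hq, ol q r hq hr, ol p r hp hr]
      exact h1.tra p q z0 (hP p hp) (hP q hq) hPz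
    · rw [oo p q hp hq, oo q r hq hr, oo p r hp hr]
      exact h1.tra p q r (hP p hp) (hP q hq) (hP r hr)
  · intro p q r
    by_cases hp : Λ p <;> by_cases hq : Λ q <;> by_cases hr : Λ r
    · rw [ll p q hp hq, ll q r hq hr]
      exact h2.val p q r hp hq hr
    · rw [lo q r hq hr]
      intro _ e
      have e1 := hmax p q hp hq
      have e2 := h1.val y0 z0 r hPy hPz (hP r hr) h e
      have e3 := hmod r y0 p hr hy hp
      rw [hm.symm y0 r, e3, hm.symm r p] at e2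
      exact le_trans e1 e2
    · rw [lo p q hp hq, ol q r hq hr]
      intro e1 e2
      exact absurd e2 (h1.asy z0 q hPz (hP q hq) e1)
    · rw [lo p q hp hq, oo q r hq hr]
      intro e1 e2
      have e3 := h1.val z0 q r hPz (hP q hq) (hP r hr) e1 e2
      rw [hm.symm z0 q, hm.symm z0 r, hmod q z0 p hq hz hp, hmod r z0 p hr hz hp] at e3
      rw [hm.symm p q, hm.symm p r]
      exact e3
    · intro _ _
      exact le_of_eq (hmod p q r hp hq hr)
    · rw [ol p q hp hq, lo q r hq hr]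
      intro e1 e2
      have e3 := h1.val p z0 r (hP p hp) hPz (hP r hr) e1 e2
      rw [hmod p z0 q hp hz hq] at e3
      exact e3
    · rw [oo p q hp hq, ol q r hq hr]
      intro e1 e2
      have e3 := h1.val p q z0 (hP p hp) (hP q hq) hPz e1 e2
      rw [hmod p z0 r hp hz hr] at e3
      exact e3
    · rw [oo p q hp hq, oo q r hq hr]
      exact h1.val p q r (hP p hp) (hP q hq) (hP r hr)

end A3

theorem a3 : StOrd → StA3 := by
  classical
  intro hO D _ δ hc Λ hpr hthree hmod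
  have hm := hc.met
  obtain ⟨a, b, c, ha, hb, hcc, hab, hac, hbc⟩ := hthree
  -- the maximal pair
  have hfin : Set.Finite {p : D × D | Λ p.1 ∧ Λ p.2 ∧ p.1 ≠ p.2} := Set.toFinite _
  obtain ⟨⟨y0, z0⟩, hyz, hmax⟩ := Set.exists_max_image {p : D × D | Λ p.1 ∧ Λ p.2 ∧ p.1 ≠ p.2}
    (fun p => δ p.1 p.2) hfin ⟨(a, b), ha, hb, hab⟩
  obtain ⟨hy, hz, hne⟩ := hyz
  simp only at hy hz hne
  have hmax' : ∀ x y, Λ x → Λ y → δ x y ≤ δ y0 z0 := by
    intro x y hx hyy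
    by_cases e : x = y
    · subst e
      rw [hm.zero]
      exact Nat.zero_le _
    · exact hmax (x, y) ⟨hx, hyy, e⟩
  obtain ⟨L2, h2⟩ := A3.ordOn Λ (hc.ord Λ hpr)
  have hpr1 : ∃ x, ¬ (¬ Λ x ∨ x = y0 ∨ x = z0) := by
    by_contra hcon
    push Not at hcon
    have e1 := hcon a
    have e2 := hcon b
    have e3 := hcon c
    rcases e1 with e1 | e1 | e1 <;> rcases e2 with e2 | e2 | e2 <;>
      rcases e3 with e3 | e3 | e3 <;> grind
  obtain ⟨L1, h1⟩ := A3.ordOn (fun x => ¬ Λ x ∨ x = y0 ∨ x = z0) (hc.ord _ hpr1)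
  have hord : Ordb δ := by
    rcases h1.tot y0 z0 (Or.inr (Or.inl rfl)) (Or.inr (Or.inr rfl)) hne with h | h
    · exact A3.key hm Λ hmod y0 z0 hy hz hmax' (fun x => ¬ Λ x ∨ x = y0 ∨ x = z0)
        (fun x hx => Or.inl hx) (Or.inr (Or.inl rfl)) (Or.inr (Or.inr rfl)) L1 L2 h1 h2 h
    · refine A3.key hm Λ hmod z0 y0 hz hy ?_ (fun x => ¬ Λ x ∨ x = y0 ∨ x = z0)
        (fun x hx => Or.inl hx) (Or.inr (Or.inr rfl)) (Or.inr (Or.inl rfl)) L1 L2 h1 h2 h
      intro x y hx hyy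
      rw [hm.symm z0 y0]
      exact hmax' x y hx hyy
  exact (hO D δ hm).2 hord hc.inv

end RA7
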