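import Pool.Agent.Helper74.RA7.Base

/-!
# Project RA7, module A4: a lexicographic breadth first search exists
-/

set_option autoImplicit false

namespace RA7

namespace A4

variable {D : Type}

/-- lexicographic comparison with respect to the first `n` visited vertices -/
def Lx (δ : D → D → ℕ) (s : ℕ → D) (n : ℕ) (u w : D) : Prop :=
  (∀ i, i < n → δ (s i) u = δ (s i) w) ∨
    ∃ i, i < n ∧ δ (s i) u < δ (s i) w ∧ ∀ j, j < i → δ (s j) u = δ (s j) w

theorem Lx_congr {δ : D → D → ℕ} {s s' : ℕ → D} {n : ℕ} (h : ∀ i, i < n → s i = s' i) {u w : D}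
    (hL : Lx δ s n u w) : Lx δ s' n u w := by
  rcases hL with hL | ⟨i, hi, h1, h2⟩
  · left
    intro i hi
    rw [← h i hi]
    exact hL i hi
  · right
    refine ⟨i, hi, by rw [← h i hi]; exact h1, fun j hj => ?_⟩
    rw [← h j (hj.trans hi)]
    exact h2 j hj

theorem exists_min [Finite D] (δ : D → D → ℕ) (s : ℕ → D) (n : ℕ) (P : D → Prop)
    (hP : ∃ x, P x) : ∃ x, P x ∧ ∀ w, P w → Lx δ s n x w := by
  classical
  let F : D → Lex (Fin n → ℕ) := fun x => toLex fun i : Fin n => δ (s i) x
  obtain ⟨x, hx, hmin⟩ := Set.exists_min_image {x | P x} F (Set.toFinite _) hP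
  refine ⟨x, hx, fun w hw => ?_⟩
  rcases (hmin w hw).eq_or_lt with h | h
  · left
    intro i hi
    exact congrFun (toLex.injective h) ⟨i, hi⟩
  · right
    obtain ⟨i, h1, h2⟩ := h
    exact ⟨i, i.2, h2, fun j hj => h1 ⟨j, hj.trans i.2⟩ hj⟩

theorem build [Finite D] (δ : D → D → ℕ) (c : D) (n : ℕ) (h1 : 1 ≤ n) (hn : n ≤ Nat.card D) :
    ∃ s : ℕ → D, s 0 = c ∧ (∀ i j, i < n → j < n → s i = s j → i = j) ∧
      ∀ i, i < n → ∀ w, (∀ j, j < i → s j ≠ w) → Lx δ s i (s i) w := by
  classical
  induction n, h1 using Nat.le_induction with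
  | base =>
    refine ⟨fun _ => c, rfl, fun i j hi hj _ => by omega, fun i hi w _ => ?_⟩
    left
    intro j hj
    omega
  | succ n h1 ih =>
    obtain ⟨s, hs0, hinj, hr⟩ := ih (by omega)
    obtain ⟨x, hx, hmin⟩ := exists_min δ s n (fun x => ∀ j, j < n → s j ≠ x) (by
      by_contra hcon
      push Not at hcon
      have hsurj : Function.Surjective (fun i : Fin n => s i) := by
        intro x
        obtain ⟨j, hj, hjx⟩ := hcon x
        exact ⟨⟨j, hj⟩, hjx⟩
      have := Nat.card_le_card_of_surjective _ hsurj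
      rw [Nat.card_fin] at this
      omega)
    have hne : ∀ i, i < n → Function.update s n x i = s i := fun i hi =>
      Function.update_of_ne (by omega) _ _
    refine ⟨Function.update s n x, by rw [hne 0 (by omega)]; exact hs0, ?_, ?_⟩
    · intro i j hi hj hij
      rcases Nat.lt_succ_iff_lt_or_eq.1 hi with hi | rfl
      · rcases Nat.lt_succ_iff_lt_or_eq.1 hj with hj | rfl
        · rw [hne i hi, hne j hj] at hij
          exact hinj i j hi hj hij
        · rw [hne i hi, Function.update_self] at hij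
          exact absurd hij (hx i hi)
      · rcases Nat.lt_succ_iff_lt_or_eq.1 hj with hj | rfl
        · rw [hne j hj, Function.update_self] at hij
          exact absurd hij.symm (hx j hj)
        · rfl
    · intro i hi w hw
      rcases Nat.lt_succ_iff_lt_or_eq.1 hi with hi | rfl
      · rw [hne i hi]
        refine Lx_congr (s := s) (fun j hj => (hne j (hj.trans hi)).symm) (hr i hi w fun j hj => ?_)
        rw [← hne j (hj.trans hi)]
        exact hw j hj
      · rw [Function.update_self]
        refine Lx_congr (s := s) (fun j hj => (hne j hj).symm) (hmin w fun j hj => ?_)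
        rw [← hne j hj]
        exact hw j hj

end A4

open A4 in
theorem a4 : StA4 := by
  intro D _ δ c
  classical
  haveI : Nonempty D := ⟨c⟩
  have hpos : 0 < Nat.card D := Nat.card_pos
  obtain ⟨s, hs0, hinj, hr⟩ := A4.build δ c (Nat.card D) hpos le_rfl
  have hsurj : ∀ x, ∃ i, i < Nat.card D ∧ s i = x := by
    have hinj' : Function.Injective (fun i : Fin (Nat.card D) => s i) := by
      intro i j hij
      exact Fin.ext (hinj i j i.2 j.2 hij)
    have hbij : Function.Bijective (fun i : Fin (Nat.card D) => s i) := by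
      rw [Nat.bijective_iff_injective_and_card]
      exact ⟨hinj', by rw [Nat.card_fin]⟩
    intro x
    obtain ⟨i, hi⟩ := hbij.2 x
    exact ⟨i, i.2, hi⟩
  choose ρ hρ1 hρ2 using hsurj
  have hρs : ∀ i, i < Nat.card D → ρ (s i) = i := fun i hi =>
    hinj _ _ (hρ1 _) hi (hρ2 _)
  have hρc : ρ c = 0 := by
    have := hρs 0 hpos
    rwa [hs0] at this
  refine ⟨ρ, fun u v h => by rw [← hρ2 u, h, hρ2 v], fun x hx => ?_, fun u w huw => ?_⟩
  · rw [hρc]
    rcases Nat.eq_zero_or_pos (ρ x) with h0 | h0
    · exact absurd (by rw [← hρ2 x, h0, hs0]) hx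
    · exact h0
  · have hL := hr (ρ u) (hρ1 u) w (fun j hj hjw => by
      have := hρs j (hj.trans (hρ1 u))
      rw [hjw] at this
      omega)
    rw [hρ2 u] at hL
    rcases hL with hL | ⟨i, hi, h1, h2⟩
    · left
      intro d hd
      have := hL (ρ d) hd
      rwa [hρ2 d] at this
    · right
      have hi' : i < Nat.card D := hi.trans (hρ1 u)
      refine ⟨s i, by rw [hρs i hi']; exact hi, h1, fun e he => ?_⟩
      rw [hρs i hi'] at he
      have := h2 (ρ e) he
      rwa [hρ2 e] at this

end RA7
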