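import Pool.Agent.Helper74.RA7.Base

namespace RA7

open Relation

theorem a5 : StA5 := by
  intro D δ hM u t hut htw
  classical
  set σ : D → D := fun x => Equiv.swap u t x with hσ
  have hσu : σ u = t := Equiv.swap_apply_left u t
  have hσt : σ t = u := Equiv.swap_apply_right u t
  have hσo : ∀ x, x ≠ u → x ≠ t → σ x = x := fun x h1 h2 => Equiv.swap_apply_of_ne_of_ne h1 h2
  have hσσ : ∀ x, σ (σ x) = x := fun x => Equiv.swap_apply_self u t x
  have hinj : ∀ x y, σ x = σ y → x = y := fun x y h => (Equiv.swap u t).injective h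
  have hδ : ∀ x y, δ (σ x) (σ y) = δ x y := by
    intro x y
    by_cases hxu : x = u
    · by_cases hyu : y = u
      · rw [hxu, hyu, hM.zero, hM.zero]
      · by_cases hyt : y = t
        · rw [hxu, hyt, hσu, hσt, hM.symm]
        · rw [hxu, hσu, hσo y hyu hyt, hM.symm t y, hM.symm u y]; exact (htw y hyu hyt).symm
    · by_cases hxt : x = t
      · by_cases hyu : y = u
        · rw [hxt, hyu, hσu, hσt, hM.symm]
        · by_cases hyt : y = t
          · rw [hxt, hyt, hM.zero, hM.zero]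
          · rw [hxt, hσt, hσo y hyu hyt, hM.symm t y, hM.symm u y]; exact (htw y hyu hyt)
      · by_cases hyu : y = u
        · rw [hyu, hσu, hσo x hxu hxt]; exact (htw x hxu hxt).symm
        · by_cases hyt : y = t
          · rw [hyt, hσt, hσo x hxu hxt]; exact (htw x hxu hxt)
          · rw [hσo x hxu hxt, hσo y hyu hyt]
  have hC : ∀ a b : D × D, CImp δ a b → CImp δ (σ a.1, σ a.2) (σ b.1, σ b.2) := by
    intro a b h
    rcases h with ⟨h1, h2⟩ | ⟨h1, h2⟩
    · left
      refine ⟨?_, ?_⟩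
      · show δ (σ a.1) (σ b.1) < δ (σ a.1) (σ a.2)
        rw [hδ, hδ]; exact h1
      · show σ a.2 = σ b.2
        rw [h2]
    · right
      refine ⟨?_, ?_⟩
      · show δ (σ a.2) (σ b.2) < δ (σ a.1) (σ b.2)
        rw [hδ, hδ]; exact h1
      · show σ a.1 = σ b.1
        rw [h2]
  have hR : ∀ a b : D × D, ReflTransGen (CImp δ) a b →
      ReflTransGen (CImp δ) (σ a.1, σ a.2) (σ b.1, σ b.2) := by
    intro a b h
    induction h with
    | refl => exact ReflTransGen.refl
    | tail _ h2 ih => exact ih.tail (hC _ _ h2)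
  have hI : ∀ p q, Inv δ p q → Inv δ (σ p) (σ q) := by
    intro p q ⟨h1, h2, h3⟩
    exact ⟨fun h => h1 (hinj _ _ h), hR _ _ h2, hR _ _ h3⟩
  have hF : ∀ p q, FF δ p q → FF δ (σ p) (σ q) := by
    intro p q ⟨a, b, h1, h2⟩
    exact ⟨σ a, σ b, hI a b h1, hR _ _ h2⟩
  constructor
  · intro h
    have := hF t u h
    rwa [hσu, hσt] at this
  · intro p hpu hpt hf g hg
    have hg' : IsMaj δ (fun x y z => σ (g (σ x) (σ y) (σ z))) := by
      refine ⟨?_, ?_, ?_⟩
      · intro a b c
        rcases hg.cons (σ a) (σ b) (σ c) with h | h | h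
        · left; show σ (g (σ a) (σ b) (σ c)) = a; rw [h, hσσ]
        · right; left; show σ (g (σ a) (σ b) (σ c)) = b; rw [h, hσσ]
        · right; right; show σ (g (σ a) (σ b) (σ c)) = c; rw [h, hσσ]
      · intro a b c a' b' c'
        show δ (σ _) (σ _) ≤ _
        rw [hδ]
        have := hg.nonexp (σ a) (σ b) (σ c) (σ a') (σ b') (σ c')
        rwa [hδ, hδ, hδ] at this
      · intro x y hxy
        obtain ⟨h1, h2, h3⟩ := hg.maj _ _ (hI x y hxy)
        refine ⟨?_, ?_, ?_⟩
        · show σ (g (σ x) (σ x) (σ y)) = x; rw [h1, hσσ]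
        · show σ (g (σ x) (σ y) (σ x)) = x; rw [h2, hσσ]
        · show σ (g (σ y) (σ x) (σ x)) = x; rw [h3, hσσ]
    have h1 := hf _ hg'
    have h2 : σ (g (σ p) (σ u) (σ t)) = t := h1
    rw [hσo p hpu hpt, hσu, hσt] at h2
    have h3 := congrArg σ h2
    rw [hσσ, hσt] at h3
    exact h3

end RA7
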