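import Pool.Agent.Helper74.RA7.Base

/-!
# Project RA7, module A6: forced triangles exist
-/

namespace RA7

open Relation

namespace A6

variable {D : Type} {δ : D → D → ℕ}

theorem inv_symm {p q : D} (h : Inv δ p q) : Inv δ q p := ⟨h.1.symm, h.2.2, h.2.1⟩

/-- substitution in the third argument keeps the majority operations -/
theorem isMaj_comp {g G : D → D → D → D} (hg : IsMaj δ g) (hG : IsMaj δ G) :
    IsMaj δ (fun x y z => g x y (G x y z)) where
  cons := by
    intro a b c
    show g a b (G a b c) = a ∨ g a b (G a b c) = b ∨ g a b (G a b c) = c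
    rcases hg.cons a b (G a b c) with h | h | h
    · exact Or.inl h
    · exact Or.inr (Or.inl h)
    · rw [h]
      exact hG.cons a b c
  nonexp := by
    intro a b c a' b' c'
    show δ (g a b (G a b c)) (g a' b' (G a' b' c')) ≤ _
    refine le_trans (hg.nonexp a b (G a b c) a' b' (G a' b' c')) ?_
    refine max_le (le_max_left _ _) (max_le ?_ (hG.nonexp a b c a' b' c'))
    exact le_trans (le_max_left _ _) (le_max_right _ _)
  maj := by
    intro p q h
    have h1 := hG.maj p q h
    have h2 := hg.maj p q h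
    have h3 : g p p p = p := by
      rcases hg.cons p p p with h | h | h <;> exact h
    refine ⟨?_, ?_, ?_⟩
    · show g p p (G p p q) = p
      rw [h1.1, h3]
    · show g p q (G p q p) = p
      rw [h1.2.1, h2.2.1]
    · show g q p (G q p p) = p
      rw [h1.2.2, h2.2.2]

/-- collecting the operations for all invertible pairs that avoid `t` -/
theorem collect [Finite D] (t : D) (g0 : D → D → D → D) (hg0 : IsMaj δ g0)
    (H : ∀ p q, Inv δ p q → p ≠ t → q ≠ t → ∃ g, IsMaj δ g ∧ g p q t ≠ t) :
    ∃ G, IsMaj δ G ∧ ∀ p q, Inv δ p q → p ≠ t → q ≠ t → G p q t ≠ t := by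
  classical
  have : Fintype D := Fintype.ofFinite D
  have key : ∀ s : Finset (D × D), ∃ G, IsMaj δ G ∧ ∀ l ∈ s, Inv δ l.1 l.2 → l.1 ≠ t →
      l.2 ≠ t → G l.1 l.2 t ≠ t := by
    intro s
    induction s using Finset.induction_on with
    | empty => exact ⟨g0, hg0, fun l hl => absurd hl (Finset.notMem_empty l)⟩
    | insert l0 s _ ih =>
      obtain ⟨G, hG, hs⟩ := ih
      by_cases h0 : Inv δ l0.1 l0.2 ∧ l0.1 ≠ t ∧ l0.2 ≠ t
      · obtain ⟨g, hg, hgt⟩ := H l0.1 l0.2 h0.1 h0.2.1 h0.2.2
        refine ⟨fun x y z => g x y (G x y z), isMaj_comp hg hG, ?_⟩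
        intro l hl hi h1 h2
        show g l.1 l.2 (G l.1 l.2 t) ≠ t
        have hrest : G l.1 l.2 t ≠ t → g l.1 l.2 (G l.1 l.2 t) ≠ t := by
          intro hne
          rcases hG.cons l.1 l.2 t with h | h | h
          · rw [h, (hg.maj _ _ hi).2.1]
            exact h1
          · rw [h, (hg.maj _ _ (inv_symm hi)).2.2]
            exact h2
          · exact absurd h hne
        rcases Finset.mem_insert.mp hl with h | h
        · subst h
          by_cases hG0 : G l.1 l.2 t = t
          · rw [hG0]
            exact hgt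
          · exact hrest hG0
        · exact hrest (hs l h hi h1 h2)
      · refine ⟨G, hG, ?_⟩
        intro l hl hi h1 h2
        rcases Finset.mem_insert.mp hl with h | h
        · subst h
          exact absurd ⟨hi, h1, h2⟩ h0
        · exact hs l h hi h1 h2
  obtain ⟨G, hG, h⟩ := key Finset.univ
  exact ⟨G, hG, fun p q hi h1 h2 => h (p, q) (Finset.mem_univ _) hi h1 h2⟩

theorem swap_imp (hm : Met δ) {a b : D × D} (h : CImp δ a b) :
    CImp δ (b.2, b.1) (a.2, a.1) := by
  rcases h with ⟨h1, h2⟩ | ⟨h1, h2⟩
  · right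
    refine ⟨?_, h2.symm⟩
    show δ b.1 a.1 < δ b.2 a.1
    rw [hm.symm b.1 a.1, ← h2, hm.symm a.2 a.1]
    exact h1
  · left
    refine ⟨?_, h2.symm⟩
    show δ b.2 a.2 < δ b.2 b.1
    rw [hm.symm b.2 a.2, ← h2, hm.symm b.2 a.1]
    exact h1

theorem swap_rtg (hm : Met δ) {a b : D × D} (h : ReflTransGen (CImp δ) a b) :
    ReflTransGen (CImp δ) (b.2, b.1) (a.2, a.1) := by
  induction h with
  | refl => exact ReflTransGen.refl
  | tail _ hbc ih => exact ReflTransGen.head (swap_imp hm hbc) ih

/-- the invariant along the walk -/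
theorem walk (F : Facts δ) (t y : D) (hty : Inv δ t y) (G : D → D → D → D) (hG : IsMaj δ G)
    (H : ∀ p q, Inv δ p q → p ≠ t → q ≠ t → G p q t ≠ t) :
    ∀ l : D × D, ReflTransGen (CImp δ) (t, y) l → ReflTransGen (CImp δ) l (y, t) →
      G l.1 l.2 t = l.1 := by
  have hinv : ∀ l : D × D, ReflTransGen (CImp δ) (t, y) l →
      ReflTransGen (CImp δ) l (y, t) → Inv δ l.1 l.2 := by
    intro l h1 h2
    exact (F.inv l.1 l.2).mpr ⟨⟨t, y, hty, h1⟩, ⟨t, y, hty, swap_rtg F.met h2⟩⟩
  have zero := F.met.zero
  intro l h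
  induction h with
  | refl =>
    intro _
    exact (hG.maj t y hty).2.1
  | @tail b c hb hbc ih =>
    intro hc
    have hb2 : ReflTransGen (CImp δ) b (y, t) := ReflTransGen.head hbc hc
    have hGb := ih hb2
    have hIb := hinv b hb hb2
    have hIc := hinv c (ReflTransGen.tail hb hbc) hc
    obtain ⟨p, q⟩ := b
    obtain ⟨p', q'⟩ := c
    simp only at hGb hIb hIc ⊢
    have hqt : q ≠ t := by
      intro h
      subst h
      have h1 := (hG.maj q p (inv_symm hIb)).2.2
      exact hIb.1 (by rw [← hGb, h1])
    have hne := hG.nonexp p q t p' q' t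
    rw [hGb] at hne
    rcases hbc with ⟨h1, h2⟩ | ⟨h1, h2⟩
    · simp only at h1 h2
      subst h2
      rw [zero q, zero t] at hne
      by_cases hp : p' = t
      · subst hp
        exact (hG.maj p' q hIc).2.1
      · rcases hG.cons p' q t with h | h | h
        · exact h
        · rw [h] at hne
          simp only [max_self, Nat.max_zero] at hne
          exact absurd h1 (not_lt.mpr hne)
        · exact absurd h (H p' q hIc hp hqt)
    · simp only at h1 h2
      subst h2
      rw [zero p, zero t] at hne
      by_cases hq : q' = t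
      · subst hq
        have h3 := (hG.maj q' p (inv_symm hIc)).2.2
        rw [h3] at hne
        simp only [Nat.max_zero, Nat.zero_max] at hne
        exact absurd h1 (not_lt.mpr hne)
      · by_cases hp : p = t
        · subst hp
          exact (hG.maj p q' hIc).2.1
        · rcases hG.cons p q' t with h | h | h
          · exact h
          · rw [h] at hne
            simp only [Nat.max_zero, Nat.zero_max] at hne
            exact absurd h1 (not_lt.mpr hne)
          · exact absurd h (H p q' hIc hp hq)

end A6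

/-- module A6: forced triangles exist -/
theorem a6 : StA1 → StA6 := by
  intro hA1 D _ δ hC t
  have F := hA1 D δ hC
  by_contra hcon
  push Not at hcon
  have H : ∀ p q, Inv δ p q → p ≠ t → q ≠ t → ∃ g, IsMaj δ g ∧ g p q t ≠ t := by
    intro p q hi h1 h2
    have h3 := hcon p q hi h1 h2
    unfold Forced at h3
    push Not at h3
    exact h3
  obtain ⟨g0, hg0⟩ := hC.maj
  obtain ⟨G, hG, hGt⟩ := A6.collect t g0 hg0 H
  obtain ⟨y, hty⟩ := F.cov t
  have h := A6.walk F t y hty G hG hGt (y, t) hty.2.1 ReflTransGen.refl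
  have h2 := (hG.maj t y hty).2.2
  simp only at h
  exact hty.1 (by rw [← h2, h])

end RA7
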