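import Pool.Agent.Helper74.RA7.Base

/-!
# RA7, module A7: the last vertex of a lexBFS from a suitable vertex is before nobody
-/

namespace RA7

open Relation

namespace A7

variable {D : Type} {δ : D → D → ℕ}

theorem ww_irr (F : Facts δ) (a : D) : ¬ WW δ a a := fun h => F.irr a h.1

theorem ww_trans (F : Facts δ) {a b c : D} (h1 : WW δ a b) (h2 : WW δ b c) : WW δ a c := by
  have hab : a ≠ b := by
    intro h
    rw [h] at h1
    exact ww_irr F b h1
  have hbc : b ≠ c := by
    intro h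
    rw [h] at h2
    exact ww_irr F c h2
  have hac : a ≠ c := by
    intro h
    rw [h] at h1
    exact h1.2 h2.1
  refine ⟨?_, ?_⟩
  · rcases F.nt a b c h1.1 hac.symm hbc.symm with h | h
    · exact h
    · exact absurd h h2.2
  · intro h
    rcases F.nt c a b h hbc hab.symm with h' | h'
    · exact h2.2 h'
    · exact h1.2 h'

/-- the tail after a vertex which agrees with the last vertex is a module -/
theorem tail {c t u : D} {ρ : D → ℕ} (hL : LexB δ c ρ) (ht : ∀ x, x ≠ t → ρ x < ρ t)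
    (hu : ∀ d, ρ d < ρ u → δ d u = δ d t) :
    ∀ x a, ρ x < ρ u → ρ u ≤ ρ a → δ x a = δ x u := by
  intro x a hx ha
  rcases eq_or_lt_of_le ha with h | h
  · rw [hL.inj _ _ h]
  · rcases hL.rule u a h with h1 | ⟨d, hd1, hd2, hd3⟩
    · exact (h1 x hx).symm
    · exfalso
      have hat : a ≠ t := by
        intro h'
        rw [h', hu d hd1] at hd2
        exact lt_irrefl _ hd2
      rcases hL.rule a t (ht a hat) with h2 | ⟨d2, he1, he2, he3⟩
      · have e1 := h2 d (lt_trans hd1 h)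
        have e2 := hu d hd1
        omega
      · rcases lt_trichotomy (ρ d) (ρ d2) with h3 | h3 | h3
        · have e1 := he3 d h3
          have e2 := hu d hd1
          omega
        · have e0 := hL.inj _ _ h3
          subst e0
          have e2 := hu d hd1
          omega
        · have e1 := hd3 d2 h3
          have e2 := hu d2 (lt_trans h3 hd1)
          omega

theorem exists_pos (hinv : ∃ p q, Inv δ p q) : ∃ a b, 0 < δ a b := by
  obtain ⟨p, q, hpq, h1, _⟩ := hinv
  rcases ReflTransGen.cases_head h1 with h | ⟨b, hb, _⟩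
  · exact absurd (congrArg Prod.fst h) hpq
  · rcases hb with ⟨h, _⟩ | ⟨h, _⟩
    · exact ⟨p, q, lt_of_le_of_lt (Nat.zero_le _) h⟩
    · exact ⟨p, b.2, lt_of_le_of_lt (Nat.zero_le _) h⟩

end A7

open A7 in
theorem a7 : StA1 → StA3 → StA4 → StA5 → StA7 := by
  intro h1 h3 h4 h5 D hD δ hc
  have F : Facts δ := h1 D δ hc
  obtain ⟨a0, b0, hab0⟩ := exists_pos hc.inv
  haveI : Nonempty D := ⟨a0⟩
  -- the maximum
  obtain ⟨⟨c0, x0⟩, hmax0⟩ := Finite.exists_max (fun p : D × D => δ p.1 p.2)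
  have hmax : ∀ x y, δ x y ≤ δ c0 x0 := fun x y => hmax0 (x, y)
  have hpos : 0 < δ c0 x0 := lt_of_lt_of_le hab0 (hmax a0 b0)
  -- the choice of c
  haveI : IsTrans D (WW δ) := ⟨fun a b c => ww_trans F⟩
  haveI : Std.Irrefl (WW δ) := ⟨fun a => ww_irr F a⟩
  have hwf : WellFounded (WW δ) := Finite.wellFounded_of_trans_of_irrefl (WW δ)
  obtain ⟨c, ⟨x, hx⟩, hmin⟩ := hwf.has_min {c | ∃ x, δ c x = δ c0 x0} ⟨c0, x0, rfl⟩
  obtain ⟨ρ, hL⟩ := h4 D δ c
  obtain ⟨t, ht0⟩ := Finite.exists_max ρ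
  have ht : ∀ x, x ≠ t → ρ x < ρ t := fun x hx =>
    lt_of_le_of_ne (ht0 x) (fun h => hx (hL.inj _ _ h))
  have hxc : x ≠ c := by
    intro h
    rw [h, hc.met.zero] at hx
    omega
  have hct : δ c t = δ c0 x0 := by
    by_cases hxt : x = t
    · rw [← hxt]
      exact hx
    · rcases hL.rule x t (ht x hxt) with h | ⟨d, hd1, hd2, hd3⟩
      · rw [← h c (hL.first x hxc)]
        exact hx
      · by_cases hdc : d = c
        · rw [hdc, hx] at hd2
          exact absurd (hmax c t) (not_le.2 hd2)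
        · rw [← hd3 c (hL.first d hdc)]
          exact hx
  have hne : c ≠ t := by
    intro h
    rw [← h, hc.met.zero] at hct
    omega
  refine ⟨c, t, ρ, hL, ht, hne, fun x y => by rw [hct]; exact hmax x y, ?_⟩
  by_contra hcon
  push Not at hcon
  -- minimal u
  obtain ⟨u, hu1, hu2⟩ : ∃ u, WW δ t u ∧ ∀ d, ρ d < ρ u → ¬ WW δ t d := by
    have hwf2 : WellFounded (fun a b : D => ρ a < ρ b) := InvImage.wf ρ Nat.lt_wfRel.wf
    obtain ⟨u, hu, hu'⟩ := hwf2.has_min {u | WW δ t u} hcon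
    exact ⟨u, hu, fun d hd hd' => hu' d hd' hd⟩
  have huc : u ≠ c := by
    intro h
    rw [h] at hu1
    exact hmin t ⟨c, by rw [hc.met.symm]; exact hct⟩ hu1
  have hut : u ≠ t := by
    intro h
    rw [h] at hu1
    exact ww_irr F t hu1
  have hall : ∀ d, ρ d < ρ u → δ d u = δ d t := by
    rcases hL.rule u t (ht u hut) with h | ⟨d, hd1, hd2, _⟩
    · exact h
    · exfalso
      have h := F.fA t u d hu1 (hu2 d hd1)
      rw [hc.met.symm t d, hc.met.symm u d] at h
      omega
  have hmod := tail hL ht hall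
  by_cases hthird : ∃ b, ρ u ≤ ρ b ∧ b ≠ u ∧ b ≠ t
  · obtain ⟨b, hb1, hb2, hb3⟩ := hthird
    refine h3 D δ hc (fun x => ρ u ≤ ρ x) ⟨c, not_le.2 (hL.first u huc)⟩
      ⟨u, t, b, le_refl _, (ht u hut).le, hb1, hut, hb2.symm, hb3.symm⟩ ?_
    intro x a b hx ha hb
    rw [hmod x a (not_le.1 hx) ha, hmod x b (not_le.1 hx) hb]
  · push Not at hthird
    have htw : ∀ x, x ≠ u → x ≠ t → δ x u = δ x t := by
      intro x hxu hxt
      apply hall
      by_contra h
      exact hxt (hthird x (not_lt.1 h) hxu)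
    exact hu1.2 ((h5 D δ hc.met u t hut htw).1 hu1.1)

end RA7
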