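import Pool.Agent.Helper74.RA7.Base

/-!
# RA7, module A9: the 5-point configuration is impossible
-/

set_option autoImplicit false

namespace RA7

open Relation

namespace A9

variable {D : Type} {δ : D → D → ℕ}

theorem inv_symm {p q : D} (h : Inv δ p q) : Inv δ q p := ⟨h.1.symm, h.2.2, h.2.1⟩

/-- reversing the arguments -/
theorem maj_rev {g : D → D → D → D} (hg : IsMaj δ g) : IsMaj δ (fun x y z => g z y x) where
  cons := by
    intro a b c
    rcases hg.cons c b a with h | h | h
    · exact Or.inr (Or.inr h)
    · exact Or.inr (Or.inl h)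
    · exact Or.inl h
  nonexp := by
    intro a b c a' b' c'
    have h := hg.nonexp c b a c' b' a'
    refine h.trans ?_
    omega
  maj := by
    intro p q h
    obtain ⟨h1, h2, h3⟩ := hg.maj p q h
    exact ⟨h3, h2, h1⟩

/-- exchanging the last two arguments -/
theorem maj_swap {g : D → D → D → D} (hg : IsMaj δ g) : IsMaj δ (fun x y z => g x z y) where
  cons := by
    intro a b c
    rcases hg.cons a c b with h | h | h
    · exact Or.inl h
    · exact Or.inr (Or.inr h)
    · exact Or.inr (Or.inl h)
  nonexp := by
    intro a b c a' b' c'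
    have h := hg.nonexp a c b a' c' b'
    refine h.trans ?_
    omega
  maj := by
    intro p q h
    obtain ⟨h1, h2, h3⟩ := hg.maj p q h
    exact ⟨h2, h1, h3⟩

open Classical in
/-- the winner operation -/
noncomputable def fw (δ : D → D → ℕ) (a b : D) : D := if WW δ b a then b else a

theorem fw_win {a b : D} (h : WW δ b a) : fw δ a b = b := by unfold fw; rw [if_pos h]

theorem fw_lose {a b : D} (h : ¬ WW δ b a) : fw δ a b = a := by unfold fw; rw [if_neg h]

theorem fw_cons (a b : D) : fw δ a b = a ∨ fw δ a b = b := by
  by_cases h : WW δ b a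
  · exact Or.inr (fw_win h)
  · exact Or.inl (fw_lose h)

theorem fw_self (a : D) : fw δ a a = a := by
  rcases fw_cons (δ := δ) a a with h | h <;> exact h

theorem fw_nonexp (F : Facts δ) (a b a' b' : D) :
    δ (fw δ a b) (fw δ a' b') ≤ max (δ a a') (δ b b') := by
  by_cases h : WW δ b a
  · by_cases h' : WW δ b' a'
    · rw [fw_win h, fw_win h']; exact le_max_right _ _
    · rw [fw_win h, fw_lose h', F.met.symm b a', F.met.symm a a', F.met.symm b b']
      exact F.fne a' b' a b h' h
  · by_cases h' : WW δ b' a'
    · rw [fw_lose h, fw_win h']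
      exact F.fne a b a' b' h h'
    · rw [fw_lose h, fw_lose h']; exact le_max_left _ _

theorem fw_inv (F : Facts δ) {p q : D} (h : Inv δ p q) : fw δ p q = p := by
  refine fw_lose ?_
  intro hw
  exact hw.2 ((F.inv p q).1 h).1

/-- `g (x, f y z, f z y)` -/
theorem maj_f23 (F : Facts δ) {g : D → D → D → D} (hg : IsMaj δ g) :
    IsMaj δ (fun x y z => g x (fw δ y z) (fw δ z y)) where
  cons := by
    intro a b c
    show g a (fw δ b c) (fw δ c b) = a ∨ g a (fw δ b c) (fw δ c b) = b ∨
      g a (fw δ b c) (fw δ c b) = c
    rcases hg.cons a (fw δ b c) (fw δ c b) with h | h | h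
    · exact Or.inl h
    · rcases fw_cons (δ := δ) b c with h' | h'
      · exact Or.inr (Or.inl (h.trans h'))
      · exact Or.inr (Or.inr (h.trans h'))
    · rcases fw_cons (δ := δ) c b with h' | h'
      · exact Or.inr (Or.inr (h.trans h'))
      · exact Or.inr (Or.inl (h.trans h'))
  nonexp := by
    intro a b c a' b' c'
    have h := hg.nonexp a (fw δ b c) (fw δ c b) a' (fw δ b' c') (fw δ c' b')
    have h1 := fw_nonexp F b c b' c'
    have h2 := fw_nonexp F c b c' b'
    refine h.trans ?_
    omega
  maj := by
    intro p q h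
    obtain ⟨h1, h2, h3⟩ := hg.maj p q h
    refine ⟨?_, ?_, ?_⟩
    · show g p (fw δ p q) (fw δ q p) = p
      rw [fw_inv F h, fw_inv F (inv_symm h)]; exact h1
    · show g p (fw δ q p) (fw δ p q) = p
      rw [fw_inv F h, fw_inv F (inv_symm h)]; exact h2
    · show g q (fw δ p p) (fw δ p p) = p
      rw [fw_self]; exact h3

/-- exchanging the first two arguments -/
theorem maj_swap12 {g : D → D → D → D} (hg : IsMaj δ g) : IsMaj δ (fun x y z => g y x z) :=
  maj_rev (maj_swap (maj_rev hg))

/-- `g (f x z, y, f z x)` -/
theorem maj_f13 (F : Facts δ) {g : D → D → D → D} (hg : IsMaj δ g) :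
    IsMaj δ (fun x y z => g (fw δ x z) y (fw δ z x)) :=
  maj_swap12 (maj_f23 F (maj_swap12 hg))

/-- FIVE LEMMA -/
theorem five (hm : Met δ) {A B p q t : D} (hAt : Inv δ A t) (hBt : Inv δ B t)
    (hF : Forced δ p q t) (h1 : δ A p < δ A t) (h2 : δ A t = δ A q) (h3 : δ B q < δ B t)
    (h4 : δ p t ≤ δ B q) (h5 : δ q t ≤ δ A p) (hy : δ B t ≤ δ B p)
    {g1 g2 : D → D → D → D} (hg1 : IsMaj δ g1) (hg2 : IsMaj δ g2)
    (h6 : g1 t B A ≠ t) (h7 : g2 A t B ≠ t) : False := by
  have sym := hm.symm
  have zero := hm.zero
  have hg1f : g1 t q p = t := hF _ (maj_rev hg1)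
  -- `b ≤ c`
  have hbc : δ A t ≤ δ B q := by
    rcases hg1.cons t B A with h | h | h
    · exact absurd h h6
    · exfalso
      have e1 := hg1.nonexp t B A t q p
      rw [h, hg1f, zero t] at e1
      have e1' : δ B t ≤ δ A p := by omega
      have e2 : g1 A q A = A := by
        have e := hg1.nonexp A q A A t A
        rw [(hg1.maj A t hAt).2.1, zero A] at e
        rcases hg1.cons A q A with h' | h' | h'
        · exact h'
        · rw [h', sym q A] at e
          omega
        · exact h'
      have e3 : g1 p q A = A := by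
        rcases hg1.cons p q A with h' | h' | h'
        · exfalso
          have e := hg1.nonexp p q A t B A
          rw [h', h, zero A, sym p B, sym q B] at e
          omega
        · exfalso
          have e := hg1.nonexp p q A A q A
          rw [h', e2, zero q, zero A, sym q A, sym p A] at e
          omega
        · exact h'
      have e4 := hg1.nonexp p q A t B A
      rw [e3, h, zero A, sym q B] at e4
      have e5 := hg1.nonexp p q A t t B
      rw [e3, (hg1.maj t B (inv_symm hBt)).1] at e5
      omega
    · have e1 := hg1.nonexp t B A t q p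
      rw [h, hg1f, zero t] at e1
      omega
  have k1 : g2 p q B = q := by
    rcases hg2.cons p q B with h | h | h
    · exfalso
      have e := hg2.nonexp p q B t B B
      rw [h, (hg2.maj B t hBt).2.2, zero B, sym p B, sym q B] at e
      omega
    · exact h
    · exfalso
      have e := hg2.nonexp p q B t t B
      rw [h, (hg2.maj t B (inv_symm hBt)).1, zero B] at e
      omega
  have k2 : g2 A q B = q := by
    have e := hg2.nonexp A q B p q B
    rw [k1, zero q, zero B] at e
    rcases hg2.cons A q B with h | h | h
    · exfalso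
      rw [h] at e
      omega
    · exact h
    · exfalso
      rw [h] at e
      omega
  have e := hg2.nonexp A q B A t B
  rw [k2, zero A, zero B] at e
  rcases hg2.cons A t B with h | h | h
  · rw [h, sym q A] at e
    omega
  · exact h7 h
  · rw [h, sym q B] at e
    omega

end A9

open A9 in
theorem a9 : StA1 → StA9 := by
  intro hA1 D _ δ hctx A B p q t _ _ _ _ hAt hBt hAB hF h1 h2 h3 h4 h5 hnF
  have F := hA1 D δ hctx
  have hm := F.met
  have sym := hm.symm
  obtain ⟨g, hg⟩ := hctx.maj
  have hy : δ B t ≤ δ B p := by
    have h : g t q p = t := hF _ (maj_rev hg)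
    have e := hg.nonexp t q p t B B
    rw [h, (hg.maj B t hBt).2.2, hm.zero t, sym t B, sym q B, sym p B] at e
    omega
  by_cases hab : FF δ A B
  · by_cases hba : FF δ B A
    · -- the pair `A, B` is invertible
      have hinv : Inv δ A B := (F.inv A B).2 ⟨hab, hba⟩
      have hnf := hnF hinv
      unfold Forced at hnf
      push Not at hnf
      obtain ⟨g', hg', hne⟩ := hnf
      exact five hm hAt hBt hF h1 h2 h3 h4 h5 hy (maj_rev hg') (maj_swap hg') hne hne
    · -- `A` wins
      have hw : WW δ A B := ⟨hab, hba⟩
      have hl : ¬ WW δ B A := fun h => hba h.1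
      refine five hm hAt hBt hF h1 h2 h3 h4 h5 hy (maj_f23 F hg) (maj_f13 F hg) ?_ ?_
      · show g t (fw δ B A) (fw δ A B) ≠ t
        rw [fw_win hw, fw_lose hl, (hg.maj A t hAt).2.2]
        exact hAt.1
      · show g (fw δ A B) t (fw δ B A) ≠ t
        rw [fw_win hw, fw_lose hl, (hg.maj A t hAt).2.1]
        exact hAt.1
  · by_cases hba : FF δ B A
    · -- `B` wins
      have hw : WW δ B A := ⟨hba, hab⟩
      have hl : ¬ WW δ A B := fun h => hab h.1
      refine five hm hAt hBt hF h1 h2 h3 h4 h5 hy (maj_f23 F hg) (maj_f13 F hg) ?_ ?_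
      · show g t (fw δ B A) (fw δ A B) ≠ t
        rw [fw_win hw, fw_lose hl, (hg.maj B t hBt).2.2]
        exact hBt.1
      · show g (fw δ A B) t (fw δ B A) ≠ t
        rw [fw_win hw, fw_lose hl, (hg.maj B t hBt).2.1]
        exact hBt.1
    · -- neither
      exfalso
      have hftA : FF δ t A := ((F.inv A t).1 hAt).2
      have hftB : FF δ t B := ((F.inv B t).1 hBt).2
      have e1 : δ t B = δ t A := by
        rcases lt_trichotomy (δ t B) (δ t A) with h | h | h
        · exact absurd (F.s1 t A B hftA h) hba
        · exact h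
        · exact absurd (F.s1 t B A hftB h) hab
      have hpA : FF δ p A := by
        refine F.s1 t A p hftA ?_
        rw [sym t p, ← e1, sym t B]
        omega
      have hpB : ¬ FF δ p B := by
        intro h
        refine hab (F.s1 p B A h ?_)
        rw [sym p A, sym p B]
        rw [sym t B, sym t A] at e1
        omega
      have hBp : B ≠ p := by
        rintro rfl
        rw [hm.zero B] at hy
        omega
      rcases F.nt p A B hpA hBp hAB.symm with h | h
      · exact hpB h
      · exact hba h

end RA7
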