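import Pool.Agent.Helper74.RA7.Base

/-!
# Project RA7, module COMB
-/

namespace RA7

theorem comb : StO1 → StO2 → StO3 → StO7 → StO8 → StComb := by
  intro h1 h2 h3 h7 h8 N _ S hH1 hH2 hH4
  obtain ⟨T, hT⟩ := h1 N S hH1 hH2
  obtain ⟨f, hf⟩ := h2 N S hH1 T hT
  obtain ⟨g, hg⟩ := h3 N S hH4
  exact h8 N S hH1 T hT (h7 N S T hT f hf g hg)

end RA7
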