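import Pool.Agent.Helper74.RA7.Alg

namespace RA7

open Pool.Agent.Helper32.RA7

theorem m_CORE : StCORE := by
  intro hEXI hIU hH1 hH2 hH4A hH4B hComb hF2 O _ T ⟨l, k, hlk, hs⟩
  obtain ⟨V, col, hU⟩ := hEXI O T
  obtain ⟨χ, hχ⟩ := hIU O T l k hlk hs (k + 1) (Nat.lt_succ_self k) V col hU.closed
  have h1 := hH1 O T V col hU (k + 1) (Nat.succ_pos k) χ hχ
  have h2 := hH2 O T V col hU (k + 1) (Nat.succ_pos k) χ hχ h1
  obtain ⟨h, hp, hm⟩ := hH4A O T V col hU (k + 1) χ hχ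
  have h4 := hH4B {a : O // a ≠ T.e} (toNS T) (k + 1) (Nat.succ_pos k) h hp hm
  exact hF2 O T h1 (hComb _ (toNS T) h1 h2 h4)

end RA7
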