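import Pool.Agent.Helper74.RA7.Base

/-!
# Project RA7, module CTX: there is no minimal counterexample
-/

namespace RA7

open Relation

namespace CTX

variable {D : Type} {δ : D → D → ℕ}

theorem maj_swap12 {g : D → D → D → D} (h : IsMaj δ g) : IsMaj δ (fun x y z => g y x z) where
  cons a b c := by
    rcases h.cons b a c with h1 | h1 | h1
    · exact Or.inr (Or.inl h1)
    · exact Or.inl h1
    · exact Or.inr (Or.inr h1)
  nonexp a b c a' b' c' := by
    have := h.nonexp b a c b' a' c'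
    rwa [max_left_comm] at this
  maj p q hI := by
    obtain ⟨h1, h2, h3⟩ := h.maj p q hI
    exact ⟨h1, h3, h2⟩

theorem maj_swap23 {g : D → D → D → D} (h : IsMaj δ g) : IsMaj δ (fun x y z => g x z y) where
  cons a b c := by
    rcases h.cons a c b with h1 | h1 | h1
    · exact Or.inl h1
    · exact Or.inr (Or.inr h1)
    · exact Or.inr (Or.inl h1)
  nonexp a b c a' b' c' := by
    have := h.nonexp a c b a' c' b'
    rwa [max_comm (δ c c') (δ b b')] at this
  maj p q hI := by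
    obtain ⟨h1, h2, h3⟩ := h.maj p q hI
    exact ⟨h2, h1, h3⟩

theorem forced_swap {p q t : D} (h : Forced δ p q t) : Forced δ q p t :=
  fun _ hg => h _ (maj_swap12 hg)

theorem inv_symm {p q : D} (h : Inv δ p q) : Inv δ q p := ⟨h.1.symm, h.2.2, h.2.1⟩

/-- the tail lemma -/
theorem tail {c t : D} {ρ : D → ℕ} (hL : LexB δ c ρ) (hlast : ∀ x, x ≠ t → ρ x < ρ t) {u : D}
    (hut : u ≠ t) (heq : ∀ d, ρ d < ρ u → δ d u = δ d t) (a : D) (ha : ρ u ≤ ρ a) (d : D)
    (hd : ρ d < ρ u) : δ d a = δ d u := by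
  by_cases hau : a = u
  · rw [hau]
  by_cases hat : a = t
  · rw [hat]
    exact (heq d hd).symm
  have hua : ρ u < ρ a := by
    rcases Nat.lt_or_ge (ρ u) (ρ a) with h | h
    · exact h
    · exact absurd (hL.inj a u (le_antisymm h ha)) hau
  rcases hL.rule u a hua with h1 | ⟨d0, h0, h1, h2⟩
  · exact (h1 d hd).symm
  exfalso
  rcases hL.rule a t (hlast a hat) with h3 | ⟨d2, h4, h5, h6⟩
  · have e1 := h3 d0 (lt_trans h0 hua)
    have e2 := heq d0 h0
    omega
  · rcases lt_trichotomy (ρ d0) (ρ d2) with h | h | h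
    · have e1 := h6 d0 h
      have e2 := heq d0 h0
      omega
    · have e0 : d0 = d2 := hL.inj _ _ h
      subst e0
      have e2 := heq d0 h0
      omega
    · have e1 := h2 d2 h
      have e2 := heq d2 (lt_trans h h0)
      omega

theorem tail_module {c t : D} {ρ : D → ℕ} (hL : LexB δ c ρ) (hlast : ∀ x, x ≠ t → ρ x < ρ t)
    {u : D} (hut : u ≠ t) (heq : ∀ d, ρ d < ρ u → δ d u = δ d t) :
    ∀ x a b, ¬ ρ u ≤ ρ x → ρ u ≤ ρ a → ρ u ≤ ρ b → δ x a = δ x b := by
  intro x a b hx ha hb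
  rw [tail hL hlast hut heq a ha x (not_le.mp hx), tail hL hlast hut heq b hb x (not_le.mp hx)]

theorem exists_min (ρ : D → ℕ) (S : D → D → Prop) (h : ∃ p q, S p q) :
    ∃ p q, S p q ∧ (∀ p' q', S p' q' → ρ q ≤ ρ q') ∧
      ∀ p' q', S p' q' → ρ q' = ρ q → ρ p ≤ ρ p' := by
  classical
  have h1 : ∃ n, ∃ p q, S p q ∧ ρ q = n := by
    obtain ⟨p, q, h⟩ := h
    exact ⟨_, p, q, h, rfl⟩
  have h2 : ∃ m, ∃ p q, S p q ∧ ρ q = Nat.find h1 ∧ ρ p = m := by
    obtain ⟨p, q, h, e⟩ := Nat.find_spec h1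
    exact ⟨_, p, q, h, e, rfl⟩
  obtain ⟨p, q, h3, e1, e2⟩ := Nat.find_spec h2
  refine ⟨p, q, h3, fun p' q' h' => ?_, fun p' q' h' e' => ?_⟩
  · rw [e1]
    exact Nat.find_min' h1 ⟨p', q', h', rfl⟩
  · rw [e2]
    exact Nat.find_min' h2 ⟨p', q', h', by rw [e', e1], rfl⟩

end CTX

open CTX in
theorem ctx : StOrd → StA1 → StA3 → StA5 → StA6 → StA7 → StA8 → StA9 → StCtx := by
  intro _ _ hA3 hA5 hA6 hA7 hA8 hA9 D _ δ hC
  obtain ⟨c, t, ρ, hL, hlast, hct, hmax, hWW⟩ := hA7 D δ hC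
  have hmet := hC.met
  obtain ⟨g, hg⟩ := hC.maj
  obtain ⟨p0, q0, hI0, hp0, hq0, hF0⟩ := hA6 D δ hC t
  obtain ⟨p, q, ⟨hI, hpt, hqt, hF, hpq⟩, hm1, hm2⟩ := exists_min ρ
    (fun p q => Inv δ p q ∧ p ≠ t ∧ q ≠ t ∧ Forced δ p q t ∧ ρ p < ρ q) (by
      rcases lt_trichotomy (ρ p0) (ρ q0) with h | h | h
      · exact ⟨p0, q0, hI0, hp0, hq0, hF0, h⟩
      · exact absurd (hL.inj _ _ h) hI0.1
      · exact ⟨q0, p0, inv_symm hI0, hq0, hp0, forced_swap hF0, h⟩)
  have hρq : ρ q < ρ t := hlast q hqt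
  have hρp : ρ p < ρ t := hlast p hpt
  have hcq : ρ c < ρ q := by
    by_cases h : p = c
    · rw [← h]; exact hpq
    · exact lt_trans (hL.first p h) hpq
  -- forced pairs before q do not exist
  have hno : ∀ a b, ρ a < ρ q → ρ b < ρ q → Inv δ a b → ¬ Forced δ a b t := by
    intro a b ha hb hab hf
    have hat : a ≠ t := by
      rintro rfl
      omega
    have hbt : b ≠ t := by
      rintro rfl
      omega
    rcases lt_trichotomy (ρ a) (ρ b) with h | h | h
    · have := hm1 a b ⟨hab, hat, hbt, hf, h⟩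
      omega
    · exact hab.1 (hL.inj _ _ h)
    · have := hm1 b a ⟨inv_symm hab, hbt, hat, forced_swap hf, h⟩
      omega
  -- the first difference of q and t
  obtain ⟨d, hdq, hd1, hd2⟩ : ∃ d, ρ d < ρ q ∧ δ d q < δ d t ∧
      ∀ e, ρ e < ρ d → δ e q = δ e t := by
    rcases hL.rule q t hρq with h | h
    swap
    · exact h
    exfalso
    have hmod := tail_module hL hlast hqt h
    by_cases h3 : ∃ w, ρ q ≤ ρ w ∧ w ≠ q ∧ w ≠ t
    · obtain ⟨w, hw, hwq, hwt⟩ := h3
      exact hA3 D δ hC (fun x => ρ q ≤ ρ x) ⟨c, not_le.mpr hcq⟩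
        ⟨q, t, w, le_refl _, hρq.le, hw, hqt, hwq.symm, hwt.symm⟩ hmod
    · have htw : ∀ x, x ≠ q → x ≠ t → δ x q = δ x t := by
        intro x hxq hxt
        refine h x (not_le.mp fun hle => h3 ⟨x, hle, hxq, hxt⟩)
      have h5 := (hA5 D δ hmet q t hqt htw).2 p hI.1 hpt hF
      have h6 : g p t q = q := h5 g hg
      have h7 : g p t q = t := hF _ (maj_swap23 hg)
      exact hqt (h6.symm.trans h7)
  have hdt : d ≠ t := by
    rintro rfl
    omega
  have hdq' : d ≠ q := by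
    rintro rfl
    omega
  obtain ⟨iqt, idt, hdp, h1⟩ := hA8 D δ hC t hWW p q d hI hpt hqt hF hdq' hd1
    (hno p d hpq hdq)
  have hpc : p ≠ c := by
    intro e
    have h2 := hmax d t
    rw [← e] at h2
    omega
  have hcp : ρ c < ρ p := hL.first p hpc
  -- the first difference of p and t
  obtain ⟨d', hdp', hd1', hd2'⟩ : ∃ d, ρ d < ρ p ∧ δ d p < δ d t ∧
      ∀ e, ρ e < ρ d → δ e p = δ e t := by
    rcases hL.rule p t hρp with h | h
    swap
    · exact h
    exfalso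
    have hmod := tail_module hL hlast hpt h
    exact hA3 D δ hC (fun x => ρ p ≤ ρ x) ⟨c, not_le.mpr hcp⟩
        ⟨p, q, t, le_refl _, hpq.le, hρp.le, hI.1, hpt, hqt⟩ hmod
  have hdt' : d' ≠ t := by
    rintro rfl
    omega
  have hdp'' : d' ≠ p := by
    rintro rfl
    omega
  have hdq'' : ρ d' < ρ q := lt_trans hdp' hpq
  obtain ⟨ipt, idt', _, h2⟩ := hA8 D δ hC t hWW q p d' (inv_symm hI) hqt hpt (forced_swap hF)
    hdp'' hd1' (by
      intro hi hf
      have := hm2 d' q ⟨inv_symm hi, hdt', hqt, forced_swap hf, hdq''⟩ rfl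
      omega)
  rcases lt_trichotomy (ρ d) (ρ d') with h | h | h
  · rcases hL.rule p q hpq with h3 | ⟨e, h4, h5, h6⟩
    · have e1 := h3 d (lt_trans h hdp')
      have e2 := hd2' d h
      omega
    · rcases lt_trichotomy (ρ d) (ρ e) with h7 | h7 | h7
      · have e1 := h6 d h7
        have e2 := hd2' d h
        omega
      · have e0 : d = e := hL.inj _ _ h7
        subst e0
        have e2 := hd2' d h
        omega
      · have e1 := hd2 e h7
        have e2 := hd2' e (lt_trans h7 h)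
        omega
  · have e0 : d = d' := hL.inj _ _ h
    subst e0
    have e1 := hg.nonexp p q t d d t
    rw [hF g hg, (hg.maj d t idt).1, hmet.zero, hmet.symm t d, hmet.symm p d, hmet.symm q d] at e1
    rcases le_max_iff.mp e1 with e2 | e2
    · omega
    · rcases le_max_iff.mp e2 with e3 | e3
      · omega
      · omega
  · exact hA9 D δ hC d' d p q t hWW hI ipt iqt idt' idt (by
      rintro rfl
      omega) hF hd1' (hd2 d' h).symm hd1 h1 h2 (hno d' d hdq'' hdq)

end RA7
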