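import Pool.Agent.Helper74.RA7.Alg

set_option autoImplicit false

/-!
# Project RA7 (MP_65b7ad_lc): module EMB (finite closed networks embed in a universal network)
-/

namespace RA7

open Relation Pool.Agent.Helper32.RA7

private theorem MEMB_fin {O V : Type} {T : Str O} {col : V → V → O} (hU : UNet T col) (m : ℕ) :
    ∀ c0 : Fin m → Fin m → O, Closed T c0 →
      ∃ ι : Fin m → V, ∀ x y, col (ι x) (ι y) = c0 x y := by
  induction m with
  | zero => intro c0 _; exact ⟨fun x => x.elim0, fun x => x.elim0⟩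
  | succ m ih =>
    intro c0 h0
    obtain ⟨ι, hι⟩ := ih (fun x y => c0 x.castSucc y.castSucc)
      ⟨fun x => h0.1 _, fun x y => h0.2.1 _ _, fun x y z => h0.2.2 _ _ _⟩
    obtain ⟨z, hz⟩ := hU.ext m ι (fun j => c0 (Fin.last m) j.castSucc) (by
      intro i j
      rw [hι i j, h0.2.1 (Fin.last m) i.castSucc]
      exact h0.2.2 _ _ _)
    refine ⟨Fin.snoc (α := fun _ => V) ι z, ?_⟩
    intro x y
    refine Fin.lastCases ?_ (fun i => ?_) x
    · refine Fin.lastCases ?_ (fun j => ?_) y
      · rw [hU.closed.1, h0.1]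
      · rw [Fin.snoc_last, Fin.snoc_castSucc]
        exact hz j
    · refine Fin.lastCases ?_ (fun j => ?_) y
      · rw [Fin.snoc_last, Fin.snoc_castSucc, hU.closed.2.1, h0.2.1]
        exact hz i
      · rw [Fin.snoc_castSucc, Fin.snoc_castSucc]
        exact hι i j

theorem m_EMB : StEMB := by
  intro O T V col hU X _ c0 h0
  obtain ⟨ι, hι⟩ := MEMB_fin hU (Nat.card X)
    (fun x y => c0 ((Finite.equivFin X).symm x) ((Finite.equivFin X).symm y))
    ⟨fun x => h0.1 _, fun x y => h0.2.1 _ _, fun x y z => h0.2.2 _ _ _⟩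
  refine ⟨fun x => ι (Finite.equivFin X x), fun x y => ?_⟩
  rw [hι, Equiv.symm_apply_apply, Equiv.symm_apply_apply]

end RA7
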