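import Pool.Agent.Helper74.RA7.Alg
import Pool.Agent.Helper32.RA7.M_BD

namespace RA7

open Pool.Agent.Helper32.RA7

theorem m_EXI : StEXI := by
  intro O _ T
  obtain ⟨c, _, h1, h2, _, h4⟩ := m_BD O T Empty (fun x _ => x.elim)
    ⟨fun x => x.elim, fun x => x.elim, fun x => x.elim⟩
  exact ⟨ℕ, c, h1, h2, h4⟩

end RA7
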