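import Pool.Agent.Helper74.RA7.Alg

namespace RA7

open Relation Pool.Agent.Helper32.RA7

theorem m_F1 : StF1 := by
  intro O T L hH1 hG a b c a' b' c' h h' ha hb hc
  have r132 : ∀ {x y z : O}, T.R x y z → T.R x z y := fun h => T.rot _ _ _ (T.sw _ _ _ h)
  have r213 : ∀ {x y z : O}, T.R x y z → T.R y x z := fun h => T.sw _ _ _ h
  have r231 : ∀ {x y z : O}, T.R x y z → T.R y z x := fun h => T.rot _ _ _ h
  have r312 : ∀ {x y z : O}, T.R x y z → T.R z x y := fun h => T.rot _ _ _ (T.rot _ _ _ h)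
  have r321 : ∀ {x y z : O}, T.R x y z → T.R z y x := fun h => T.sw _ _ _ (T.rot _ _ _ h)
  have idl : ∀ {x y : O}, T.R T.e x y → x = y := fun h => (T.idl _ _).1 h
  have Lasym : ∀ {x y}, L x y → L y x → False := fun h1 h2 => hG.lin.1.2.1 _ _ h1 h2
  have Lirr : ∀ {x}, L x x → False := fun h1 => hG.lin.1.1 _ h1
  -- the order
  have key : ∀ {x y : O}, Ge T L x y → x = T.e → y = T.e := by
    intro x y hxy hx
    rcases hxy with h1 | h1 | ⟨h1, _⟩
    · rw [← h1]; exact hx
    · exact h1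
    · exact absurd hx h1
  -- case c' = c
  by_cases hcc : c' = c
  · rw [hcc]; exact h
  by_cases hce : c = T.e
  · -- c = e : a = b
    subst hce
    have hab : a = b := idl (r312 h)
    subst hab
    have hae : a ≠ T.e := by
      intro hae
      have ha' := key ha hae
      have hb' := key hb hae
      rw [ha', hb'] at h'
      exact hcc (idl h').symm
    by_cases ha'e : a' = T.e
    · rw [ha'e] at h'
      have hbc : b' = c' := idl h'
      subst hbc
      rcases hb with h1 | h1 | ⟨h1, h2, h3⟩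
      · rw [← h1]; exact hH1 ⟨a, hae⟩
      · exact absurd h1 hcc
      · exact hG.c2 _ _ h3
    by_cases hb'e : b' = T.e
    · rw [hb'e] at h'
      have hac : a' = c' := idl (r213 h')
      subst hac
      rcases ha with h1 | h1 | ⟨h1, h2, h3⟩
      · rw [← h1]; exact hH1 ⟨a, hae⟩
      · exact absurd h1 hcc
      · exact hG.c2 _ _ h3
    have ha2 : a = a' ∨ L ⟨a, hae⟩ ⟨a', ha'e⟩ := by
      rcases ha with h1 | h1 | ⟨h1, h2, h3⟩
      · exact Or.inl h1
      · exact absurd h1 ha'e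
      · exact Or.inr h3
    have hb2 : a = b' ∨ L ⟨a, hae⟩ ⟨b', hb'e⟩ := by
      rcases hb with h1 | h1 | ⟨h1, h2, h3⟩
      · exact Or.inl h1
      · exact absurd h1 hb'e
      · exact Or.inr h3
    have hc'e : c' ≠ T.e := hcc
    rcases ha2 with ha2 | ha2 <;> rcases hb2 with hb2 | hb2
    · rw [← ha2, ← hb2] at h'; exact h'
    · rw [← ha2] at h'
      have h3 : (toNS T).R ⟨c', hc'e⟩ ⟨a, hae⟩ ⟨b', hb'e⟩ := r312 h'
      have h4 := hG.c3 _ _ _ hb2 h3
      exact r231 h4
    · rw [← hb2] at h'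
      have h3 : (toNS T).R ⟨c', hc'e⟩ ⟨a, hae⟩ ⟨a', ha'e⟩ := r321 h'
      have h4 := hG.c3 _ _ _ ha2 h3
      exact r231 h4
    · have h3 : (toNS T).R ⟨c', hc'e⟩ ⟨a', ha'e⟩ ⟨b', hb'e⟩ := r312 h'
      have h4 := hG.c1' _ _ _ _ ha2 hb2 h3
      exact r231 h4
  · -- c ≠ e
    obtain ⟨hc'e, hce', hLc⟩ : ∃ (hc' : c' ≠ T.e) (hce : c ≠ T.e), L ⟨c', hc'⟩ ⟨c, hce⟩ := by
      rcases hc with h1 | h1 | h1
      · exact absurd h1 hcc
      · exact absurd h1 hce
      · exact h1
    by_cases hae : a = T.e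
    · exfalso
      have ha'e := key ha hae
      rw [hae] at h
      rw [ha'e] at h'
      have h1 : b = c := idl h
      have h2 : b' = c' := idl h'
      subst h1 h2
      rcases hb with h3 | h3 | ⟨h3, h4, h5⟩
      · exact hcc h3.symm
      · exact hc'e h3
      · exact Lasym h5 hLc
    by_cases hbe : b = T.e
    · exfalso
      have hb'e := key hb hbe
      rw [hbe] at h
      rw [hb'e] at h'
      have h1 : a = c := idl (r213 h)
      have h2 : a' = c' := idl (r213 h')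
      subst h1 h2
      rcases ha with h3 | h3 | ⟨h3, h4, h5⟩
      · exact hcc h3.symm
      · exact hc'e h3
      · exact Lasym h5 hLc
    -- if b ≥ c' then done
    have doneb : ∀ (_ : b = c' ∨ L ⟨b, hbe⟩ ⟨c', hc'e⟩), T.R a b c' := by
      intro h1
      have h3 : (toNS T).R ⟨a, hae⟩ ⟨b, hbe⟩ ⟨c, hce⟩ := h
      rcases h1 with h1 | h1
      · subst h1
        exact hG.c3 _ _ _ hLc h3
      · exact hG.c1 _ _ _ _ h1 hLc h3
    have donea : ∀ (_ : a = c' ∨ L ⟨a, hae⟩ ⟨c', hc'e⟩), T.R a b c' := by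
      intro h1
      have h3 : (toNS T).R ⟨b, hbe⟩ ⟨a, hae⟩ ⟨c, hce⟩ := r213 h
      rcases h1 with h1 | h1
      · subst h1
        exact r213 (hG.c3 _ _ _ hLc h3)
      · exact r213 (hG.c1 _ _ _ _ h1 hLc h3)
    by_cases ha'e : a' = T.e
    · rw [ha'e] at h'
      have h2 : b' = c' := idl h'
      subst h2
      apply doneb
      rcases hb with h3 | h3 | ⟨h3, h4, h5⟩
      · exact Or.inl h3
      · exact absurd h3 hc'e
      · exact Or.inr h5
    by_cases hb'e : b' = T.e
    · rw [hb'e] at h'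
      have h2 : a' = c' := idl (r213 h')
      subst h2
      apply donea
      rcases ha with h3 | h3 | ⟨h3, h4, h5⟩
      · exact Or.inl h3
      · exact absurd h3 hc'e
      · exact Or.inr h5
    by_cases hbc : b = c'
    · exact doneb (Or.inl hbc)
    by_cases hac : a = c'
    · exact donea (Or.inl hac)
    rcases hG.lin.1.2.2 ⟨b, hbe⟩ ⟨c', hc'e⟩ (by intro h5; exact hbc (congrArg Subtype.val h5)) with h5 | h5
    · exact doneb (Or.inr h5)
    rcases hG.lin.1.2.2 ⟨a, hae⟩ ⟨c', hc'e⟩ (by intro h6; exact hac (congrArg Subtype.val h6)) with h6 | h6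
    · exact donea (Or.inr h6)
    -- c' beats a and b
    have s1 : T.R b' c' a := by
      rcases ha with h1 | h1 | ⟨h1, h2, h3⟩
      · rw [h1]; exact r231 h'
      · exact absurd h1 ha'e
      · have h7 : (toNS T).R ⟨b', hb'e⟩ ⟨c', hc'e⟩ ⟨a', ha'e⟩ := r231 h'
        exact hG.c1 _ _ _ _ h6 h3 h7
    have s2 : T.R a c' b := by
      rcases hb with h1 | h1 | ⟨h1, h2, h3⟩
      · rw [h1]; exact r321 s1
      · exact absurd h1 hb'e
      · have h7 : (toNS T).R ⟨a, hae⟩ ⟨c', hc'e⟩ ⟨b', hb'e⟩ := r321 s1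
        exact hG.c1 _ _ _ _ h5 h3 h7
    exact r132 s2

end RA7
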