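import Pool.Agent.Helper74.RA7.Alg

namespace RA7

open Relation Pool.Agent.Helper32.RA7

namespace MFA

variable {O : Type} {T : Str O}

theorem dde (d : O) : T.R d d T.e := T.rot _ _ _ ((T.idl d d).2 rfl)

theorem ne_of_eq {V : Type} {col : V → V → O} {c : O} {u v : V} (h : col u v = c) (hc : c ≠ T.e) :
    col u v ≠ T.e := by rw [h]; exact hc

/-- a triple containing `s` without `e` is allowed -/
theorem fl1 {a b : O} (ha : a ≠ T.e) (hb : b ≠ T.e) : T.R T.s a b := T.flex _ _ ha hb
theorem fl2 {a b : O} (ha : a ≠ T.e) (hb : b ≠ T.e) : T.R a T.s b := T.sw _ _ _ (fl1 ha hb)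
theorem fl3 {a b : O} (ha : a ≠ T.e) (hb : b ≠ T.e) : T.R a b T.s := T.rot _ _ _ (fl1 ha hb)

variable {V : Type} {col : V → V → O}

theorem ext1 (hU : UNet T col) (p : V) (d : O) : ∃ z, col z p = d := by
  obtain ⟨z, hz⟩ := hU.ext 1 (fun _ => p) (fun _ => d) (by
    intro i j
    rw [hU.closed.1 p]
    exact dde d)
  exact ⟨z, hz 0⟩

/-- the conditions for pairs `i < j` suffice -/
theorem extL (hU : UNet T col) (k : ℕ) (p : Fin k → V) (d : Fin k → O)
    (h : ∀ i j, i < j → T.R (d i) (d j) (col (p i) (p j))) : ∃ z, ∀ i, col z (p i) = d i := by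
  apply hU.ext
  intro i j
  rcases lt_trichotomy i j with hij | hij | hij
  · exact h i j hij
  · subst hij
    rw [hU.closed.1]; exact dde _
  · rw [hU.closed.2.1]
    exact T.sw _ _ _ (h j i hij)

/-- labels `s` to four arbitrary points and a label `c` to a point with labels `s` to them -/
theorem extS (hU : UNet T col) (p : Fin 4 → V) : ∃ z, ∀ i, col z (p i) = T.s := by
  apply hU.ext 4 p (fun _ => T.s)
  intro i j
  by_cases h : col (p i) (p j) = T.e
  · rw [h]; exact dde _
  · exact fl1 T.se h

end MFA

open MFA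

theorem m_FA : StFA := by
  intro O T V col hU c y hc hy
  have hsym := hU.closed.2.1
  refine ⟨?_, ?_, ?_⟩
  · intro u v u' v'
    obtain ⟨f, hf⟩ := extS hU ![u, v, u', v']
    have hf0 : col f u = T.s := hf 0
    have hf1 : col f v = T.s := hf 1
    have hf2 : col f u' = T.s := hf 2
    have hf3 : col f v' = T.s := hf 3
    obtain ⟨f', hf'⟩ := extL hU 5 (Fin.cons f ![u, v, u', v']) (Fin.cons c (fun _ => T.s)) (by
      intro i j hij
      refine Fin.cases ?_ (fun i => ?_) i
      · refine Fin.cases ?_ (fun j => ?_) j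
        · show T.R c c (col f f)
          rw [hU.closed.1]; exact dde _
        · show T.R c T.s (col f (![u, v, u', v'] j))
          rw [hf j]; exact fl2 hc T.se
      · refine Fin.cases ?_ (fun j => ?_) j
        · show T.R T.s c (col (![u, v, u', v'] i) f)
          rw [hsym, hf i]; exact fl1 hc T.se
        · show T.R T.s T.s (col (![u, v, u', v'] i) (![u, v, u', v'] j))
          by_cases h : col (![u, v, u', v'] i) (![u, v, u', v'] j) = T.e
          · rw [h]; exact dde _
          · exact fl1 T.se h)
    have h0 : col f' f = c := hf' 0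
    have h1 : col f' u = T.s := hf' 1
    have h2 : col f' v = T.s := hf' 2
    have h3 : col f' u' = T.s := hf' 3
    have h4 : col f' v' = T.s := hf' 4
    exact ⟨f, f', by rw [hsym]; exact h0, ⟨hf0, hf1, hf2, hf3⟩, ⟨h1, h2, h3, h4⟩⟩
  · intro u v f f' huv hff huf huf' hvf hvf'
    have hs := T.se
    obtain ⟨r, hr⟩ := extL hU 4 ![u, v, f, f'] ![y, T.s, y, T.s] (by
      intro i j hij
      fin_cases i <;> fin_cases j <;> first | (exact absurd hij (by decide)) | skip
      · show T.R y T.s (col u v); rw [huv]; exact fl2 hy hc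
      · show T.R y y (col u f); rw [huf]; exact fl3 hy hy
      · show T.R y T.s (col u f'); rw [huf']; exact fl2 hy hs
      · show T.R T.s y (col v f); rw [hvf]; exact fl1 hy hs
      · show T.R T.s T.s (col v f'); rw [hvf']; exact fl1 hs hs
      · show T.R y T.s (col f f'); rw [hff]; exact fl2 hy hc)
    have hr0 : col r u = y := hr 0
    have hr1 : col r v = T.s := hr 1
    have hr2 : col r f = y := hr 2
    have hr3 : col r f' = T.s := hr 3
    obtain ⟨r', hr'⟩ := extL hU 5 ![r, u, v, f, f'] ![c, T.s, y, T.s, y] (by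
      intro i j hij
      fin_cases i <;> fin_cases j <;> first | (exact absurd hij (by decide)) | skip
      · show T.R c T.s (col r u); rw [hr0]; exact fl2 hc hy
      · show T.R c y (col r v); rw [hr1]; exact fl3 hc hy
      · show T.R c T.s (col r f); rw [hr2]; exact fl2 hc hy
      · show T.R c y (col r f'); rw [hr3]; exact fl3 hc hy
      · show T.R T.s y (col u v); rw [huv]; exact fl1 hy hc
      · show T.R T.s T.s (col u f); rw [huf]; exact fl1 hs hs
      · show T.R T.s y (col u f'); rw [huf']; exact fl1 hy hs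
      · show T.R y T.s (col v f); rw [hvf]; exact fl2 hy hs
      · show T.R y y (col v f'); rw [hvf']; exact fl3 hy hy
      · show T.R T.s y (col f f'); rw [hff]; exact fl1 hy hc)
    have h0 : col r' r = c := hr' 0
    have h2 : col r' v = y := hr' 2
    have h4 : col r' f' = y := hr' 4
    exact ⟨r, r', by rw [hsym]; exact h0, by rw [hsym]; exact hr0, by rw [hsym]; exact hr2,
      by rw [hsym]; exact h2, by rw [hsym]; exact h4⟩
  · intro u f huf
    obtain ⟨r, hr⟩ := extL hU 2 ![u, f] ![y, y] (by
      intro i j hij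
      fin_cases i <;> fin_cases j <;> first | (exact absurd hij (by decide)) | skip
      show T.R y y (col u f); rw [huf]; exact fl3 hy hy)
    have hr0 : col r u = y := hr 0
    have hr1 : col r f = y := hr 1
    exact ⟨r, by rw [hsym]; exact hr0, by rw [hsym]; exact hr1⟩

end RA7
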