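import Pool.Agent.Helper74.RA7.Alg

set_option autoImplicit false

/-!
# Project RA7, module FL
-/

namespace RA7

open Relation Pool.Agent.Helper32.RA7

namespace MFL

variable {O : Type} {T : Str O} {V : Type} {col : V → V → O} {n : ℕ}
  {χ : (i : Fin n) → (Row n i → V) → (Row n i → V) → O}

lemma ce (hU : UNet T col) (hχ : Chi T col n χ) {c : O} {i : Fin n} {S : Set (Row n i)}
    {u v : Row n i → V} (h : SPair col c S u v) : χ i u v = c ∨ χ i u v = T.e := by
  obtain ⟨a, ha⟩ := hχ.cons i u v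
  by_cases hS : a ∈ S
  · left; rw [ha]; exact (h a).1 hS
  · right; rw [ha, (h a).2 hS]; exact hU.closed.1 _

lemma cst (hχ : Chi T col n χ) {y : O} {i : Fin n} {u v : Row n i → V}
    (h : ∀ a, col (u a) (v a) = y) : χ i u v = y := by
  obtain ⟨a, ha⟩ := hχ.cons i u v
  rw [ha, h a]

/-- step (A) -/
lemma stepA (hU : UNet T col) (hχ : Chi T col n χ) {c y : O} (hc : c ≠ T.e)
    (hcy : ¬ T.R c y y) {i : Fin n} {S : Set (Row n i)} {u v r r' : Row n i → V}
    (h1 : SPair col c S u v) (h2 : SPair col c S r r') (hur : ∀ a, col (u a) (r a) = y)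
    (hvr : ∀ a, col (v a) (r' a) = y) : χ i u v = c ↔ χ i r r' = c := by
  obtain ⟨-, hsym, htri⟩ := hχ.closed i
  have e1 : χ i u r = y := cst hχ hur
  have e2 : χ i v r' = y := cst hχ hvr
  have k1 : χ i u v = T.e → χ i r r' ≠ c := by
    intro h0 h3
    have t1 := htri v u r
    rw [hsym v u, h0, e1, T.idl] at t1
    have t2 := htri r v r'
    rw [hsym r v, ← t1, e2, h3] at t2
    exact hcy (T.rot _ _ _ (T.rot _ _ _ t2))
  have k2 : χ i r r' = T.e → χ i u v ≠ c := by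
    intro h0 h3
    have t1 := htri v r' r
    rw [e2, hsym r' r, h0] at t1
    have t1' := T.sw _ _ _ t1
    rw [T.idl] at t1'
    have t2 := htri u r v
    rw [e1, hsym r v, ← t1', h3] at t2
    exact hcy (T.rot _ _ _ (T.rot _ _ _ t2))
  constructor
  · intro h
    rcases ce hU hχ h2 with h' | h'
    · exact h'
    · exact absurd h (k2 h')
  · intro h
    rcases ce hU hχ h1 with h' | h'
    · exact h'
    · exact absurd h (k1 h')

/-- step (B) -/
lemma stepB (hFA : StFA) (hU : UNet T col) (hχ : Chi T col n χ) {c y : O} (hc : c ≠ T.e)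
    (hy : y ≠ T.e) (hcy : ¬ T.R c y y) {i : Fin n} {S : Set (Row n i)}
    {u v f f' : Row n i → V} (h1 : SPair col c S u v) (h2 : SPair col c S f f')
    (huf : ∀ a, col (u a) (f a) = T.s) (huf' : ∀ a, col (u a) (f' a) = T.s)
    (hvf : ∀ a, col (v a) (f a) = T.s) (hvf' : ∀ a, col (v a) (f' a) = T.s) :
    χ i u v = c ↔ χ i f f' = c := by
  obtain ⟨-, hFA2, hFA3⟩ := hFA O T V col hU c y hc hy
  have key : ∀ a : Row n i, ∃ r r' : V, (a ∈ S → col r r' = c) ∧ (a ∉ S → r = r') ∧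
      col (u a) r = y ∧ col (f a) r = y ∧ col (v a) r' = y ∧ col (f' a) r' = y := by
    intro a
    by_cases hS : a ∈ S
    · obtain ⟨r, r', q1, q2, q3, q4, q5⟩ := hFA2 (u a) (v a) (f a) (f' a) ((h1 a).1 hS)
        ((h2 a).1 hS) (huf a) (huf' a) (hvf a) (hvf' a)
      exact ⟨r, r', fun _ => q1, fun h => absurd hS h, q2, q3, q4, q5⟩
    · obtain ⟨r, q1, q2⟩ := hFA3 (u a) (f a) (huf a)
      refine ⟨r, r, fun h => absurd h hS, fun _ => rfl, q1, q2, ?_, ?_⟩
      · rw [← (h1 a).2 hS]; exact q1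
      · rw [← (h2 a).2 hS]; exact q2
  choose r r' q1 q2 q3 q4 q5 q6 using key
  have hr : SPair col c S r r' := fun a => ⟨q1 a, q2 a⟩
  exact (stepA hU hχ hc hcy h1 hr q3 q5).trans (stepA hU hχ hc hcy h2 hr q4 q6).symm

end MFL

open MFL

theorem m_FL : StFA → StFL := by
  intro hFA O T V col hU n χ hχ c y hc hy hcy i S u v u' v' h1 h2
  obtain ⟨hFA1, -, -⟩ := hFA O T V col hU c y hc hy
  have hsym := hU.closed.2.1
  have key : ∀ a : Row n i, ∃ f f' : V, (a ∈ S → col f f' = c) ∧ (a ∉ S → f = f') ∧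
      (col (u a) f = T.s ∧ col (v a) f = T.s ∧ col (u' a) f = T.s ∧ col (v' a) f = T.s) ∧
      (col (u a) f' = T.s ∧ col (v a) f' = T.s ∧ col (u' a) f' = T.s ∧ col (v' a) f' = T.s) := by
    intro a
    obtain ⟨f, f', q1, ⟨a1, a2, a3, a4⟩, ⟨b1, b2, b3, b4⟩⟩ := hFA1 (u a) (v a) (u' a) (v' a)
    have hf : col (u a) f = T.s ∧ col (v a) f = T.s ∧ col (u' a) f = T.s ∧
        col (v' a) f = T.s :=
      ⟨(hsym _ _).trans a1, (hsym _ _).trans a2, (hsym _ _).trans a3, (hsym _ _).trans a4⟩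
    have hf' : col (u a) f' = T.s ∧ col (v a) f' = T.s ∧ col (u' a) f' = T.s ∧
        col (v' a) f' = T.s :=
      ⟨(hsym _ _).trans b1, (hsym _ _).trans b2, (hsym _ _).trans b3, (hsym _ _).trans b4⟩
    by_cases hS : a ∈ S
    · exact ⟨f, f', fun _ => q1, fun h => absurd hS h, hf, hf'⟩
    · exact ⟨f, f, fun h => absurd h hS, fun _ => rfl, hf, hf⟩
  choose f f' q1 q2 q3 q4 using key
  have hr : SPair col c S f f' := fun a => ⟨q1 a, q2 a⟩
  have k1 := stepB hFA hU hχ hc hy hcy h1 hr (fun a => (q3 a).1) (fun a => (q4 a).1)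
    (fun a => (q3 a).2.1) (fun a => (q4 a).2.1)
  have k2 := stepB hFA hU hχ hc hy hcy h2 hr (fun a => (q3 a).2.2.1) (fun a => (q4 a).2.2.1)
    (fun a => (q3 a).2.2.2) (fun a => (q4 a).2.2.2)
  exact k1.trans k2.symm

end RA7
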