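import Pool.Agent.Helper74.RA7.Alg

set_option autoImplicit false

/-!
# Project RA7, module G
-/

namespace RA7

namespace MG

/-- The statement for one type `X` and all `q`. -/
def P (X : Type) : Prop := ∀ q : ℕ, ∃ (G : Type) (_ : Finite G)
  (adj : X → G → G → Prop),
  (∀ x v v', adj x v v' → adj x v' v) ∧ (∀ x v, ¬ adj x v v) ∧
  (∀ x y v v', adj x v v' → adj y v v' → x = y) ∧
  (∀ x y z v1 v2 v3, adj x v1 v2 → adj y v2 v3 → ¬ adj z v1 v3) ∧
  ∀ (Q : Type) [Finite Q], Nat.card Q ≤ q → ∀ f : G → Q,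
    ∃ κ : Q, (∃ v, f v = κ) ∧ ∀ x, ∃ v v', f v = κ ∧ f v' = κ ∧ adj x v v'

theorem P_equiv {X Y : Type} (e : X ≃ Y) (h : P X) : P Y := by
  intro q
  obtain ⟨G, hG, adj, h1, h2, h3, h4, h5⟩ := h q
  refine ⟨G, hG, fun y => adj (e.symm y), fun y v v' => h1 _ v v', fun y v => h2 _ v, ?_, ?_, ?_⟩
  · intro y y' v v' h h'
    exact e.symm.injective (h3 _ _ v v' h h')
  · intro x y z v1 v2 v3
    exact h4 _ _ _ v1 v2 v3
  · intro Q _ hQ f
    obtain ⟨κ, hκ, h⟩ := h5 Q hQ f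
    exact ⟨κ, hκ, fun x => h (e.symm x)⟩

theorem P_empty : P PEmpty := by
  intro q
  refine ⟨Unit, inferInstance, fun x _ _ => x.elim, fun x => x.elim, fun x => x.elim,
    fun x => x.elim, fun x => x.elim, ?_⟩
  intro Q _ _ f
  exact ⟨f (), ⟨(), rfl⟩, fun x => x.elim⟩

theorem P_option (hSH : StSH) {Y : Type} (h : P Y) : P (Option Y) := by
  intro q
  obtain ⟨G, hG, adj, h1, h2, h3, h4, h5⟩ := h q
  obtain ⟨W, hW, E, e1, e2, e3, e4⟩ := hSH (q ^ Nat.card G)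
  refine ⟨G × W, inferInstance, fun x v v' => match x with
    | some x => adj x v.1 v'.1 ∧ v.2 = v'.2
    | none => v.1 = v'.1 ∧ E v.2 v'.2, ?_, ?_, ?_, ?_, ?_⟩
  · rintro (_ | x) ⟨v, w⟩ ⟨v', w'⟩
    · rintro ⟨ha, hb⟩
      exact ⟨ha.symm, e1 _ _ hb⟩
    · rintro ⟨ha, hb⟩
      exact ⟨h1 _ _ _ ha, hb.symm⟩
  · rintro (_ | x) ⟨v, w⟩
    · rintro ⟨ha, hb⟩
      exact e2 _ hb
    · rintro ⟨ha, hb⟩
      exact h2 _ _ ha
  · rintro (_ | x) (_ | y) ⟨v, w⟩ ⟨v', w'⟩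
    · intro _ _
      rfl
    · rintro ⟨ha, hb⟩ ⟨hc, hd⟩
      simp only at ha hc
      subst ha
      exact absurd hc (h2 _ _)
    · rintro ⟨hc, hd⟩ ⟨ha, hb⟩
      simp only at ha hc
      subst ha
      exact absurd hc (h2 _ _)
    · rintro ⟨ha, hb⟩ ⟨hc, hd⟩
      rw [h3 _ _ _ _ ha hc]
  · rintro (_ | x) (_ | y) (_ | z) ⟨v1, w1⟩ ⟨v2, w2⟩ ⟨v3, w3⟩ <;> rintro ⟨ha, hb⟩ ⟨hc, hd⟩ ⟨he, hf⟩ <;>
      simp only at ha hb hc hd he hf
    · exact e3 _ _ _ hb hd hf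
    · subst ha
      subst hc
      exact h2 _ _ he
    · subst ha
      subst he
      exact h2 _ _ hc
    · subst hd
      subst hf
      exact e2 _ hb
    · subst hc
      subst he
      exact h2 _ _ ha
    · subst hb
      subst hf
      exact e2 _ hd
    · subst hb
      subst hd
      exact e2 _ hf
    · exact h4 _ _ _ _ _ _ ha hc he
  · intro Q _ hQ f
    have hcard : Nat.card (G → Q) ≤ q ^ Nat.card G := by
      rw [Nat.card_fun]
      exact Nat.pow_le_pow_left hQ _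
    obtain ⟨w, w', hE, hw⟩ := e4 (G → Q) hcard (fun w v => f (v, w))
    obtain ⟨κ, ⟨v0, hv0⟩, hκ⟩ := h5 Q hQ (fun v => f (v, w))
    refine ⟨κ, ⟨(v0, w), hv0⟩, ?_⟩
    rintro (_ | x)
    · refine ⟨(v0, w), (v0, w'), hv0, ?_, rfl, hE⟩
      have := congrFun hw v0
      exact this.symm.trans hv0
    · obtain ⟨v, v', ha, hb, hc⟩ := hκ x
      exact ⟨(v, w), (v', w), ha, hb, hc, rfl⟩

end MG

theorem m_G : StSH → StG := by
  intro hSH X _
  have : MG.P X := by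
    induction X using Finite.induction_empty_option with
    | of_equiv e h => exact MG.P_equiv e h
    | h_empty => exact MG.P_empty
    | h_option h => exact MG.P_option hSH h
  exact this

end RA7
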