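import Pool.Agent.Helper74.RA7.Alg

namespace RA7

open Relation Pool.Agent.Helper32.RA7

namespace MGA

variable {O : Type} {T : Str O}

theorem r132 {a b c : O} (h : T.R a b c) : T.R a c b := T.rot _ _ _ (T.sw _ _ _ h)
theorem r213 {a b c : O} (h : T.R a b c) : T.R b a c := T.sw _ _ _ h
theorem r231 {a b c : O} (h : T.R a b c) : T.R b c a := T.rot _ _ _ h
theorem r312 {a b c : O} (h : T.R a b c) : T.R c a b := T.rot _ _ _ (T.rot _ _ _ h)
theorem r321 {a b c : O} (h : T.R a b c) : T.R c b a := T.sw _ _ _ (T.rot _ _ _ h)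
theorem dde (d : O) : T.R d d T.e := T.rot _ _ _ ((T.idl d d).2 rfl)

variable {V : Type} {col : V → V → O}

theorem ext1 (hU : UNet T col) (p : V) (d : O) : ∃ z, col z p = d := by
  obtain ⟨z, hz⟩ := hU.ext 1 (fun _ => p) (fun _ => d) (by
    intro i j
    rw [hU.closed.1 p]
    exact dde d)
  exact ⟨z, hz 0⟩

theorem ext2 (hU : UNet T col) (p q : V) (d d' : O) (h : T.R d d' (col p q)) :
    ∃ z, col z p = d ∧ col z q = d' := by
  obtain ⟨z, hz⟩ := hU.ext 2 ![p, q] ![d, d'] (by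
    intro i j
    fin_cases i <;> fin_cases j
    · show T.R d d (col p p)
      rw [hU.closed.1 p]; exact dde d
    · exact h
    · show T.R d' d (col q p)
      rw [hU.closed.2.1 q p]; exact r213 h
    · show T.R d' d' (col q q)
      rw [hU.closed.1 q]; exact dde d')
  exact ⟨z, hz 0, hz 1⟩

end MGA

open MGA

theorem m_GA : StGA := by
  intro O T V col hU n χ hχ w y w' y' c z c' z' hczw hczy hcyy hczw' hczy' hcyy' hwalk i S
  classical
  obtain ⟨x0, -⟩ := hU.ext 0 Fin.elim0 Fin.elim0 (fun i => i.elim0)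
  set P : Row n i → V := fun _ => x0 with hP
  -- values
  have hval : ∀ (Q : Row n i → V) (p q : O), (∀ a, (a ∈ S → col x0 (Q a) = p) ∧
      (a ∉ S → col x0 (Q a) = q)) → χ i P Q = p ∨ χ i P Q = q := by
    intro Q p q hQ
    obtain ⟨a, ha⟩ := hχ.cons i P Q
    rw [ha]
    by_cases haS : a ∈ S
    · exact Or.inl ((hQ a).1 haS)
    · exact Or.inr ((hQ a).2 haS)
  have hsymm := hU.closed.2.1
  -- start
  have hstart : ∀ a : Row n i, ∃ q' q : V,
      (a ∈ S → col x0 q' = z.1 ∧ col x0 q = w.1 ∧ col q' q = c.1) ∧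
      (a ∉ S → q' = q ∧ col x0 q = y.1) := by
    intro a
    by_cases haS : a ∈ S
    · obtain ⟨q', hq'⟩ := ext1 hU x0 z.1
      obtain ⟨q, hq1, hq2⟩ := ext2 hU x0 q' w.1 c.1 (by
        rw [hsymm x0 q', hq']; exact r312 hczw)
      exact ⟨q', q, fun _ => ⟨by rw [hsymm]; exact hq', by rw [hsymm]; exact hq1,
        by rw [hsymm]; exact hq2⟩, fun h => absurd haS h⟩
    · obtain ⟨q, hq⟩ := ext1 hU x0 y.1
      exact ⟨q, q, fun h => absurd h haS, fun _ => ⟨rfl, by rw [hsymm]; exact hq⟩⟩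
  choose Q0' Q0 hon hoff using hstart
  have hinv : ∀ pq : {a : O // a ≠ T.e} × {a : O // a ≠ T.e},
      ReflTransGen (FImp (toNS T)) (w, y) pq → ∃ Q : Row n i → V,
        (∀ a, (a ∈ S → col x0 (Q a) = pq.1.1) ∧ (a ∉ S → col x0 (Q a) = pq.2.1)) ∧
        (χ i Q0' Q0 = c.1 → χ i P Q = pq.1.1) := by
    intro pq hpq
    induction hpq with
    | refl =>
      refine ⟨Q0, fun a => ⟨fun h => (hon a h).2.1, fun h => (hoff a h).2⟩, ?_⟩
      intro hc
      have h1 : χ i P Q0' = z.1 ∨ χ i P Q0' = y.1 := hval Q0' _ _ (fun a =>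
        ⟨fun h => (hon a h).1, fun h => by rw [(hoff a h).1]; exact (hoff a h).2⟩)
      have h2 : χ i P Q0 = w.1 ∨ χ i P Q0 = y.1 := hval Q0 _ _ (fun a =>
        ⟨fun h => (hon a h).2.1, fun h => (hoff a h).2⟩)
      rcases h2 with h2 | h2
      · exact h2
      · exfalso
        have h3 := (hχ.closed i).2.2 P Q0' Q0
        rw [hc, h2] at h3
        rcases h1 with h1 | h1
        · rw [h1] at h3; exact hczy (r213 h3)
        · rw [h1] at h3; exact hcyy (r213 h3)
    | @tail pq pq' _ hstep ih =>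
      obtain ⟨Q, hQ, hQc⟩ := ih
      have hx : ∃ x : {a : O // a ≠ T.e}, T.R x.1 pq.1.1 pq'.1.1 ∧ T.R x.1 pq.2.1 pq'.2.1 ∧
          ¬ T.R x.1 pq.1.1 pq'.2.1 := by
        rcases hstep with ⟨x, a1, a2, a3, a4⟩ | ⟨x, a1, a2, a3, a4⟩
        · exact ⟨x, a1, by rw [← a4]; exact a3, by rw [← a4]; exact a2⟩
        · exact ⟨x, by rw [← a4]; exact a3, a1, a2⟩
      obtain ⟨x, hx1, hx2, hx3⟩ := hx
      have hch : ∀ a : Row n i, ∃ q : V, col (Q a) q = x.1 ∧ (a ∈ S → col x0 q = pq'.1.1) ∧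
          (a ∉ S → col x0 q = pq'.2.1) := by
        intro a
        by_cases haS : a ∈ S
        · obtain ⟨q, hq1, hq2⟩ := ext2 hU x0 (Q a) pq'.1.1 x.1 (by
            rw [(hQ a).1 haS]; exact r312 hx1)
          exact ⟨q, by rw [hsymm]; exact hq2, fun _ => by rw [hsymm]; exact hq1,
            fun h => absurd haS h⟩
        · obtain ⟨q, hq1, hq2⟩ := ext2 hU x0 (Q a) pq'.2.1 x.1 (by
            rw [(hQ a).2 haS]; exact r312 hx2)
          exact ⟨q, by rw [hsymm]; exact hq2, fun h => absurd h haS,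
            fun _ => by rw [hsymm]; exact hq1⟩
      choose Q' hQ'x hQ'on hQ'off using hch
      refine ⟨Q', fun a => ⟨hQ'on a, hQ'off a⟩, ?_⟩
      intro hc
      have h1 := hQc hc
      have h2 : χ i Q Q' = x.1 := by
        obtain ⟨a, ha⟩ := hχ.cons i Q Q'
        rw [ha, hQ'x]
      rcases hval Q' _ _ (fun a => ⟨hQ'on a, hQ'off a⟩) with h3 | h3
      · exact h3
      · exfalso
        have h4 := (hχ.closed i).2.2 P Q Q'
        rw [h1, h2, h3] at h4
        exact hx3 (r213 h4)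
  obtain ⟨Q, hQ, hQc⟩ := hinv _ hwalk
  have hend : ∀ a : Row n i, ∃ q : V, (a ∈ S → Q a = q) ∧
      (a ∉ S → col x0 q = z'.1 ∧ col (Q a) q = c'.1) := by
    intro a
    by_cases haS : a ∈ S
    · exact ⟨Q a, fun _ => rfl, fun h => absurd haS h⟩
    · obtain ⟨q, hq1, hq2⟩ := ext2 hU x0 (Q a) z'.1 c'.1 (by
        rw [(hQ a).2 haS]; exact r213 hczw')
      exact ⟨q, fun h => absurd h haS, fun _ => ⟨by rw [hsymm]; exact hq1,
        by rw [hsymm]; exact hq2⟩⟩
  choose Q' hQ'on hQ'off using hend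
  refine ⟨Q0', Q0, Q, Q', ?_, ?_, ?_⟩
  · intro a
    exact ⟨fun h => (hon a h).2.2, fun h => (hoff a h).1⟩
  · intro a
    exact ⟨fun h => (hQ'off a h).2, fun h => hQ'on a (by simpa using h)⟩
  · intro hc
    have h1 := hQc hc
    have h2 : χ i Q Q' = c'.1 ∨ χ i Q Q' = T.e := by
      obtain ⟨a, ha⟩ := hχ.cons i Q Q'
      rw [ha]
      by_cases haS : a ∈ S
      · right; rw [hQ'on a haS]; exact hU.closed.1 _
      · left; exact (hQ'off a haS).2
    rcases h2 with h2 | h2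
    · exfalso
      have h3 : χ i P Q' = y'.1 ∨ χ i P Q' = z'.1 := hval Q' _ _ (fun a =>
        ⟨fun h => by rw [← hQ'on a h]; exact (hQ a).1 h, fun h => (hQ'off a h).1⟩)
      have h4 := (hχ.closed i).2.2 P Q Q'
      rw [h1, h2] at h4
      rcases h3 with h3 | h3
      · rw [h3] at h4; exact hcyy' (r213 h4)
      · rw [h3] at h4; exact hczy' (r231 h4)
    · exact h2

end RA7
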