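import Pool.Agent.Helper74.RA7.Alg

namespace RA7

open Relation Pool.Agent.Helper32.RA7

namespace MGR

variable {O : Type} {T : Str O} {V : Type} {col : V → V → O}

theorem dde (d : O) : T.R d d T.e := T.rot _ _ _ ((T.idl d d).2 rfl)

theorem ext1 (hU : UNet T col) (p : V) (d : O) : ∃ z, col z p = d := by
  obtain ⟨z, hz⟩ := hU.ext 1 (fun _ => p) (fun _ => d) (by
    intro i j
    rw [hU.closed.1 p]
    exact dde d)
  exact ⟨z, hz 0⟩

theorem ext2 (hU : UNet T col) (p q : V) (d d' : O) (h : T.R d d' (col p q)) :
    ∃ z, col z p = d ∧ col z q = d' := by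
  obtain ⟨z, hz⟩ := hU.ext 2 ![p, q] ![d, d'] (by
    intro i j
    fin_cases i <;> fin_cases j
    · show T.R d d (col p p)
      rw [hU.closed.1 p]; exact dde d
    · exact h
    · show T.R d' d (col q p)
      rw [hU.closed.2.1 q p]; exact T.sw _ _ _ h
    · show T.R d' d' (col q q)
      rw [hU.closed.1 q]; exact dde d')
  exact ⟨z, hz 0, hz 1⟩

end MGR

open MGR

theorem m_GR : StFL → StGR := by
  intro hFL O T V col hU n χ hχ c y hc hy hcyy hccc
  classical
  have hsymm := hU.closed.2.1
  obtain ⟨x0, -⟩ := hU.ext 0 Fin.elim0 Fin.elim0 (fun i => i.elim0)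
  obtain ⟨x1, hx1⟩ := ext1 hU x0 c
  have h01 : col x0 x1 = c := by rw [hsymm]; exact hx1
  obtain ⟨x2, hx20, hx21⟩ := ext2 hU x0 x1 c c (by rw [h01]; exact hccc)
  have h02 : col x0 x2 = c := by rw [hsymm]; exact hx20
  have h12 : col x1 x2 = c := by rw [hsymm]; exact hx21
  let pt : (i : Fin n) → Set (Row n i) → Row n i → V := fun i S a => if a ∈ S then x1 else x0
  have hpos : ∀ (i : Fin n) (S : Set (Row n i)) (a : Row n i), a ∈ S → pt i S a = x1 := by
    intro i S a h
    exact if_pos h
  have hneg : ∀ (i : Fin n) (S : Set (Row n i)) (a : Row n i), a ∉ S → pt i S a = x0 := by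
    intro i S a h
    exact if_neg h
  have hpt : ∀ i S, SPair col c S (fun _ => x0) (pt i S) := by
    intro i S a
    constructor
    · intro h
      show col x0 (if a ∈ S then x1 else x0) = c
      rw [if_pos h]; exact h01
    · intro h
      show x0 = (if a ∈ S then x1 else x0)
      rw [if_neg h]
  -- values at pairs
  have hor : ∀ (i : Fin n) (S : Set (Row n i)) (u v : Row n i → V), SPair col c S u v →
      χ i u v = c ∨ χ i u v = T.e := by
    intro i S u v h
    obtain ⟨a, ha⟩ := hχ.cons i u v
    rw [ha]
    by_cases haS : a ∈ S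
    · exact Or.inl ((h a).1 haS)
    · right; rw [(h a).2 haS]; exact hU.closed.1 _
  have hJ : ∀ (i : Fin n) (S : Set (Row n i)) (u v : Row n i → V), SPair col c S u v →
      (χ i u v = c ↔ χ i (fun _ => x0) (pt i S) = c) := fun i S u v h =>
    hFL O T V col hU n χ hχ c y hc hy hcyy i S u v _ _ h (hpt i S)
  have hne : ∀ (i : Fin n) (S : Set (Row n i)) (u v : Row n i → V), SPair col c S u v →
      ¬ χ i (fun _ => x0) (pt i S) = c → χ i u v = T.e := by
    intro i S u v h h1
    rcases hor i S u v h with h2 | h2
    · exact absurd ((hJ i S u v h).1 h2) h1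
    · exact h2
  refine ⟨fun i S => χ i (fun _ => x0) (pt i S) = c, hJ, ?_, ?_, ?_, ?_, ?_⟩
  · intro i
    obtain ⟨a, ha⟩ := hχ.cons i (fun _ => x0) (pt i Set.univ)
    show χ i (fun _ => x0) (pt i Set.univ) = c
    rw [ha, hpos i _ a (Set.mem_univ a)]
    exact h01
  · intro i h
    obtain ⟨a, ha⟩ := hχ.cons i (fun _ => x0) (pt i ∅)
    have h' : χ i (fun _ => x0) (pt i ∅) = c := h
    rw [ha, hneg i _ a (Set.notMem_empty a), hU.closed.1] at h'
    exact hc h'.symm
  · intro i S S' h
    by_contra hcon
    push Not at hcon
    obtain ⟨hS, hS'⟩ := hcon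
    let u : Row n i → V := fun _ => x0
    let v : Row n i → V := fun a => if a ∈ S then x1 else x0
    let w : Row n i → V := fun a => if a ∈ S then (if a ∈ S' then x2 else x1) else
      (if a ∈ S' then x1 else x0)
    have huv : SPair col c S u v := hpt i S
    have hvw : SPair col c S' v w := by
      intro a
      constructor
      · intro h1
        show col (if a ∈ S then x1 else x0) (if a ∈ S then (if a ∈ S' then x2 else x1) else
          (if a ∈ S' then x1 else x0)) = c
        by_cases h2 : a ∈ S
        · rw [if_pos h2, if_pos h2, if_pos h1]; exact h12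
        · rw [if_neg h2, if_neg h2, if_pos h1]; exact h01
      · intro h1
        show (if a ∈ S then x1 else x0) = (if a ∈ S then (if a ∈ S' then x2 else x1) else
          (if a ∈ S' then x1 else x0))
        by_cases h2 : a ∈ S
        · rw [if_pos h2, if_pos h2, if_neg h1]
        · rw [if_neg h2, if_neg h2, if_neg h1]
    have huw : SPair col c (S ∪ S') u w := by
      intro a
      constructor
      · intro h1
        show col x0 (if a ∈ S then (if a ∈ S' then x2 else x1) else
          (if a ∈ S' then x1 else x0)) = c
        by_cases h2 : a ∈ S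
        · rw [if_pos h2]
          by_cases h3 : a ∈ S'
          · rw [if_pos h3]; exact h02
          · rw [if_neg h3]; exact h01
        · rw [if_neg h2, if_pos (h1.resolve_left h2)]; exact h01
      · intro h1
        show x0 = (if a ∈ S then (if a ∈ S' then x2 else x1) else
          (if a ∈ S' then x1 else x0))
        rw [if_neg (fun h2 => h1 (Or.inl h2)), if_neg (fun h2 => h1 (Or.inr h2))]
    have e1 := hne i S u v huv hS
    have e2 := hne i S' v w hvw hS'
    have e3 := (hJ i _ u w huw).2 h
    have h4 := (hχ.closed i).2.2 u v w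
    rw [e1, e2, e3] at h4
    exact hc ((T.idl _ _).1 h4).symm
  · intro i S S' hSS hS
    by_contra hS'
    let u : Row n i → V := fun _ => x0
    let v : Row n i → V := fun a => if a ∈ S then x1 else x0
    let w : Row n i → V := fun a => if a ∈ S then x2 else (if a ∈ S' then x1 else x0)
    have huv : SPair col c S u v := hpt i S
    have hvw : SPair col c S' v w := by
      intro a
      constructor
      · intro h1
        show col (if a ∈ S then x1 else x0) (if a ∈ S then x2 else (if a ∈ S' then x1 else x0)) = c
        by_cases h2 : a ∈ S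
        · rw [if_pos h2, if_pos h2]; exact h12
        · rw [if_neg h2, if_neg h2, if_pos h1]; exact h01
      · intro h1
        show (if a ∈ S then x1 else x0) = (if a ∈ S then x2 else (if a ∈ S' then x1 else x0))
        have h2 : a ∉ S := fun h => h1 (hSS h)
        rw [if_neg h2, if_neg h2, if_neg h1]
    have huw : SPair col c S' u w := by
      intro a
      constructor
      · intro h1
        show col x0 (if a ∈ S then x2 else (if a ∈ S' then x1 else x0)) = c
        by_cases h2 : a ∈ S
        · rw [if_pos h2]; exact h02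
        · rw [if_neg h2, if_pos h1]; exact h01
      · intro h1
        show x0 = (if a ∈ S then x2 else (if a ∈ S' then x1 else x0))
        have h2 : a ∉ S := fun h => h1 (hSS h)
        rw [if_neg h2, if_neg h1]
    have e1 := (hJ i S u v huv).2 hS
    have e2 := hne i S' v w hvw hS'
    have e3 := hne i S' u w huw hS'
    have h4 := (hχ.closed i).2.2 u v w
    rw [e1, e2, e3] at h4
    have h5 := (T.idl _ _).1 (T.rot _ _ _ (T.rot _ _ _ h4))
    exact hc h5
  · intro i j hij
    have h1 := hχ.minor i j (fun _ => x0) (fun z => if z = 1 then x1 else x0) hij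
    have h2 : (pt i {a | a.1 j = 1}) =
        (fun a => (fun z : ZMod 2 => if z = 1 then x1 else x0) (a.1 j)) := by
      funext a
      by_cases h : a.1 j = 1
      · rw [hpos i _ a h]; exact (if_pos h).symm
      · rw [hneg i _ a h]; exact (if_neg h).symm
    have h3 : (pt j {b | b.1 i = 1}) =
        (fun b => (fun z : ZMod 2 => if z = 1 then x1 else x0) (b.1 i)) := by
      funext b
      by_cases h : b.1 i = 1
      · rw [hpos j _ b h]; exact (if_pos h).symm
      · rw [hneg j _ b h]; exact (if_neg h).symm
    show χ i (fun _ => x0) (pt i {a | a.1 j = 1}) = c ↔ χ j (fun _ => x0) (pt j {b | b.1 i = 1}) = c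
    rw [h2, h3]
    constructor
    · intro h; exact h1.symm.trans h
    · intro h; exact h1.trans h

end RA7
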