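import Pool.Agent.Helper74.RA7.Alg

set_option autoImplicit false

/-!
# Project RA7, module H1
-/

namespace RA7

open Relation Pool.Agent.Helper32.RA7

namespace MH1

open Classical in
/-- the point with value `x1` on `S` and `x0` off `S` -/
noncomputable def pt {V A : Type} (x0 x1 : V) (S : Set A) : A → V := fun a => if a ∈ S then x1 else x0

lemma pt_pair {O V A : Type} (T : Str O) {col : V → V → O} (hc : Closed T col) {c : O} {x0 x1 : V}
    (h : col x1 x0 = c) (S S' : Set A) :
    SPair col c (symmDiff S S') (pt x0 x1 S) (pt x0 x1 S') := by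
  intro a
  have h' : col x0 x1 = c := by rw [hc.2.1]; exact h
  unfold pt
  rw [Set.mem_symmDiff]
  by_cases h1 : a ∈ S <;> by_cases h2 : a ∈ S' <;> simp [h1, h2, h, h']

end MH1

open MH1

theorem m_H1 : StFL → StIC → StH1 := by
  intro hFL hIC O T V col hU n hn χ hχ c0
  by_contra hcc
  obtain ⟨c, hc⟩ := c0
  have hccc : ¬ T.R c c c := hcc
  have hcce : T.R c c T.e := T.rot _ _ _ ((T.idl c c).2 rfl)
  obtain ⟨x0, -⟩ := hU.ext 0 (fun i => i.elim0) (fun i => i.elim0) (fun i => i.elim0)
  obtain ⟨x1, hx1⟩ := hU.ext 1 (fun _ => x0) (fun _ => c) (by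
    intro i j
    rw [hU.closed.1 x0]
    exact hcce)
  have h10 : col x1 x0 = c := hx1 0
  have h01 : col x0 x1 = c := by rw [hU.closed.2.1]; exact h10
  have hpair : ∀ (i : Fin n) (S S' : Set (Row n i)),
      SPair col c (symmDiff S S') (pt x0 x1 S) (pt x0 x1 S') :=
    fun i S S' => pt_pair T hU.closed h10 S S'
  have hbot : ∀ (i : Fin n) (S : Set (Row n i)), SPair col c S (pt x0 x1 ∅) (pt x0 x1 S) := by
    intro i S
    have h1 := hpair i ∅ S
    have h2 : symmDiff (∅ : Set (Row n i)) S = S := bot_symmDiff S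
    rw [h2] at h1
    exact h1
  have hce : ∀ (i : Fin n) (S : Set (Row n i)) (u v : Row n i → V), SPair col c S u v →
      χ i u v = c ∨ χ i u v = T.e := by
    intro i S u v h
    obtain ⟨a, ha⟩ := hχ.cons i u v
    by_cases hS : a ∈ S
    · left; rw [ha]; exact (h a).1 hS
    · right; rw [ha, (h a).2 hS]; exact hU.closed.1 _
  have hval : ∀ (i : Fin n) (S : Set (Row n i)) (u v : Row n i → V), SPair col c S u v →
      (χ i u v = c ↔ χ i (pt x0 x1 ∅) (pt x0 x1 S) = c) := fun i S u v h =>
    hFL O T V col hU n χ hχ c c hc hc hccc i S u v _ _ h (hbot i S)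
  classical
  refine hIC n hn (fun i S => if χ i (pt x0 x1 ∅) (pt x0 x1 S) = c then 1 else 0) ?_ ?_ ?_
  · intro i S S'
    have t1 := (hχ.closed i).2.2 (pt x0 x1 ∅) (pt x0 x1 S) (pt x0 x1 (symmDiff S S'))
    have p2 : SPair col c S' (pt x0 x1 S) (pt x0 x1 (symmDiff S S')) := by
      have h1 := hpair i S (symmDiff S S')
      rw [symmDiff_symmDiff_cancel_left] at h1
      exact h1
    have a1 := hce i S _ _ (hbot i S)
    have a2 := hce i S' _ _ p2
    have a3 := hce i (symmDiff S S') _ _ (hbot i (symmDiff S S'))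
    have b2 := hval i S' _ _ p2
    have nec : T.e ≠ c := fun h => hc h.symm
    simp only [← b2]
    rcases a1 with a1 | a1 <;> rcases a2 with a2 | a2 <;> rcases a3 with a3 | a3 <;>
      rw [a1, a2, a3] at t1 <;> rw [a1, a2, a3]
    · exact absurd t1 hccc
    · rw [if_pos rfl, if_neg nec]; decide
    · rw [if_pos rfl, if_neg nec]; decide
    · exact absurd ((T.idl _ _).1 (T.rot _ _ _ t1)) nec
    · rw [if_pos rfl, if_neg nec]; decide
    · exact absurd ((T.idl _ _).1 t1) hc
    · exact absurd ((T.idl _ _).1 t1) nec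
    · rw [if_neg nec]; decide
  · intro i
    have h1 : χ i (pt x0 x1 ∅) (pt x0 x1 Set.univ) = c := by
      obtain ⟨a, ha⟩ := hχ.cons i (pt x0 x1 ∅) (pt x0 x1 Set.univ)
      rw [ha]
      simp [pt, h01]
    simp only [h1, if_true]
  · intro i j hij
    have h1 := hχ.minor i j (fun _ => x0) (fun z => if z = 1 then x1 else x0) hij
    have e1 : ∀ (i j : Fin n), (pt x0 x1 {a : Row n i | a.1 j = 1}) =
        fun a : Row n i => if a.1 j = 1 then x1 else x0 := by
      intro i j
      funext a
      simp [pt]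
    have e2 : ∀ (i : Fin n), (pt x0 x1 (∅ : Set (Row n i))) = fun _ => x0 := by
      intro i
      funext a
      simp [pt]
    simp only [e1, e2]
    rw [h1]

end RA7
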