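import Pool.Agent.Helper74.RA7.Alg

set_option autoImplicit false

/-!
# Project RA7, module H2: the units are free of conflicts
-/

namespace RA7

open Relation Pool.Agent.Helper32.RA7

theorem m_H2 : StGR → StGA → StUF → StIC → StH2 := by
  intro hGR hGA hUF hIC O T V col hU n hn χ hχ hH1
  rintro w y w' y' ⟨c, z, h1, h2, h3⟩ ⟨c', z', h1', h2', h3'⟩ hw
  obtain ⟨J, hJ, hJu, -, hJun, hJm, hJmin⟩ :=
    hGR O T V col hU n χ hχ c.1 y.1 c.2 y.2 h3 (hH1 c)
  obtain ⟨J', hJ', hJu', -, hJun', -, -⟩ :=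
    hGR O T V col hU n χ hχ c'.1 y'.1 c'.2 y'.2 h3' (hH1 c')
  have hcon : ∀ i S, J i S → ¬ J' i Sᶜ := by
    intro i S hS hS'
    obtain ⟨u, v, u', v', p1, p2, p3⟩ :=
      hGA O T V col hU n χ hχ w y w' y' c z c' z' h1 h2 h3 h1' h2' h3' hw i S
    have e1 := p3 ((hJ i S u v p1).2 hS)
    have e2 := (hJ' i Sᶜ u' v' p2).2 hS'
    rw [e1] at e2
    exact c'.2 e2.symm
  have hsym : ∀ i S S', J i (symmDiff S S') ↔ (J i S ↔ ¬ J i S') := fun i =>
    hUF (Row n i) (J i) (J' i) (hJu i) (hJu' i) (hJun i) (hJun' i) (hJm i) (hcon i)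
  classical
  refine hIC n hn (fun i S => if J i S then 1 else 0) ?_ ?_ ?_
  · intro i S S'
    have h := hsym i S S'
    show (if J i (symmDiff S S') then (1 : ZMod 2) else 0) =
      (if J i S then 1 else 0) + (if J i S' then 1 else 0)
    by_cases a : J i S <;> by_cases b : J i S'
    · have hn : ¬ J i (symmDiff S S') := by
        intro hh
        exact (h.1 hh).1 a b
      rw [if_neg hn, if_pos a, if_pos b]
      decide
    · have hp : J i (symmDiff S S') := h.2 ⟨fun _ => b, fun _ => a⟩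
      rw [if_pos hp, if_pos a, if_neg b]
      decide
    · have hp : J i (symmDiff S S') := h.2 ⟨fun h => absurd h a, fun h => absurd b h⟩
      rw [if_pos hp, if_neg a, if_pos b]
      decide
    · have hn : ¬ J i (symmDiff S S') := by
        intro hh
        exact a ((h.1 hh).2 b)
      rw [if_neg hn, if_neg a, if_neg b]
      decide
  · intro i
    exact if_pos (hJu i)
  · intro i j hij
    have h := hJmin i j hij
    show (if J i {a | a.1 j = 1} then (1 : ZMod 2) else 0) = if J j {b | b.1 i = 1} then 1 else 0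
    by_cases a : J i {a | a.1 j = 1}
    · rw [if_pos a, if_pos (h.1 a)]
    · rw [if_neg a, if_neg (fun b => a (h.2 b))]

end RA7
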