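import Pool.Agent.Helper74.RA7.Alg

set_option autoImplicit false

/-!
# RA7, module H4A: polymorphisms from the induction theorem
-/

namespace RA7

open Relation Pool.Agent.Helper32.RA7

namespace MH4A

variable {O : Type} {T : Str O} {G : Type}

/-- label between two points of the second kind -/
def Spec (T : Str O) (adj : {a : O // a ≠ T.e} → G → G → Prop) (p p' : {a : O // a ≠ T.e} × G)
    (x : {a : O // a ≠ T.e}) : Prop :=
  adj x p.2 p'.2 ∧ T.R x.1 p.1.1 p'.1.1

open Classical in
/-- the label of two points of the second kind -/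
noncomputable def lb (T : Str O) (adj : {a : O // a ≠ T.e} → G → G → Prop)
    (p p' : {a : O // a ≠ T.e} × G) : O :=
  if p = p' then T.e else if h : ∃ x, Spec T adj p p' x then h.choose.1 else T.s

/-- the labelling of all points -/
noncomputable def lab (T : Str O) (adj : {a : O // a ≠ T.e} → G → G → Prop) :
    Option ({a : O // a ≠ T.e} × G) → Option ({a : O // a ≠ T.e} × G) → O
  | none, none => T.e
  | none, some p => p.1.1
  | some p, none => p.1.1
  | some p, some p' => lb T adj p p'

variable {adj : {a : O // a ≠ T.e} → G → G → Prop}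

theorem r23 {a b c : O} (h : T.R a b c) : T.R a c b := T.rot _ _ _ (T.sw _ _ _ h)

theorem r_flex2 {a b : O} (ha : a ≠ T.e) (hb : b ≠ T.e) : T.R a T.s b :=
  T.sw _ _ _ (T.flex _ _ ha hb)

theorem r_flex3 {a b : O} (ha : a ≠ T.e) (hb : b ≠ T.e) : T.R a b T.s :=
  T.rot _ _ _ (T.flex _ _ ha hb)

theorem r_e1 (a : O) : T.R T.e a a := (T.idl a a).2 rfl

theorem r_e2 (a : O) : T.R a T.e a := T.sw _ _ _ (r_e1 a)

theorem r_e3 (a : O) : T.R a a T.e := T.rot _ _ _ (r_e1 a)

theorem lb_self (p : {a : O // a ≠ T.e} × G) : lb T adj p p = T.e := by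
  unfold lb
  rw [if_pos rfl]

theorem lb_spec (uniq : ∀ x y v v', adj x v v' → adj y v v' → x = y)
    {p p' : {a : O // a ≠ T.e} × G} (h : p ≠ p') {x : {a : O // a ≠ T.e}}
    (hx : Spec T adj p p' x) : lb T adj p p' = x.1 := by
  unfold lb
  have h1 : ∃ x, Spec T adj p p' x := ⟨x, hx⟩
  rw [if_neg h, dif_pos h1, uniq _ _ _ _ h1.choose_spec.1 hx.1]

theorem lb_cases {p p' : {a : O // a ≠ T.e} × G} (h : p ≠ p') :
    (∃ x : {a : O // a ≠ T.e}, Spec T adj p p' x ∧ lb T adj p p' = x.1) ∨
      lb T adj p p' = T.s := by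
  unfold lb
  rw [if_neg h]
  by_cases h1 : ∃ x, Spec T adj p p' x
  · rw [dif_pos h1]
    exact Or.inl ⟨_, h1.choose_spec, rfl⟩
  · rw [dif_neg h1]
    exact Or.inr rfl

theorem lb_ne {p p' : {a : O // a ≠ T.e} × G} (h : p ≠ p') : lb T adj p p' ≠ T.e := by
  rcases lb_cases (adj := adj) h with ⟨x, _, h1⟩ | h1
  · rw [h1]; exact x.2
  · rw [h1]; exact T.se

theorem lb_symm (sym : ∀ x v v', adj x v v' → adj x v' v)
    (uniq : ∀ x y v v', adj x v v' → adj y v v' → x = y) (p p' : {a : O // a ≠ T.e} × G) :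
    lb T adj p p' = lb T adj p' p := by
  by_cases h : p = p'
  · rw [h]
  · have hs : ∀ p p' x, Spec T adj p p' x → Spec T adj p' p x := by
      intro p p' x hx
      exact ⟨sym _ _ _ hx.1, r23 hx.2⟩
    rcases lb_cases (adj := adj) h with ⟨x, hx, h1⟩ | h1
    · rw [h1, lb_spec uniq (Ne.symm h) (hs _ _ _ hx)]
    · rcases lb_cases (adj := adj) (Ne.symm h) with ⟨x, hx, h2⟩ | h2
      · rw [h2, lb_spec uniq h (hs _ _ _ hx)]
      · rw [h1, h2]

theorem lab_symm (sym : ∀ x v v', adj x v v' → adj x v' v)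
    (uniq : ∀ x y v v', adj x v v' → adj y v v' → x = y)
    (p p' : Option ({a : O // a ≠ T.e} × G)) : lab T adj p p' = lab T adj p' p := by
  rcases p with _ | p <;> rcases p' with _ | p'
  · rfl
  · rfl
  · rfl
  · exact lb_symm sym uniq p p'

/-- a point of the first kind and two points of the second kind -/
theorem tri_none {p p' : {a : O // a ≠ T.e} × G} (h : p ≠ p') :
    T.R p.1.1 (lb T adj p p') p'.1.1 := by
  rcases lb_cases (adj := adj) h with ⟨x, hx, h1⟩ | h1
  · rw [h1]; exact T.sw _ _ _ hx.2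
  · rw [h1]; exact r_flex2 p.1.2 p'.1.2

theorem closed_lab (sym : ∀ x v v', adj x v v' → adj x v' v)
    (uniq : ∀ x y v v', adj x v v' → adj y v v' → x = y)
    (tf : ∀ x y z v1 v2 v3, adj x v1 v2 → adj y v2 v3 → ¬ adj z v1 v3) :
    Closed T (lab T adj) := by
  refine ⟨?_, lab_symm sym uniq, ?_⟩
  · rintro (_ | p)
    · rfl
    · exact lb_self p
  · intro a b c
    by_cases hab : a = b
    · subst hab
      have : lab T adj a a = T.e := by
        rcases a with _ | p
        · rfl
        · exact lb_self p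
      rw [this]
      exact r_e1 _
    by_cases hbc : b = c
    · subst hbc
      have : lab T adj b b = T.e := by
        rcases b with _ | p
        · rfl
        · exact lb_self p
      rw [this]
      exact r_e2 _
    by_cases hac : a = c
    · subst hac
      have : lab T adj a a = T.e := by
        rcases a with _ | p
        · rfl
        · exact lb_self p
      rw [this, lab_symm sym uniq b a]
      exact r_e3 _
    rcases a with _ | a <;> rcases b with _ | b <;> rcases c with _ | c
    · exact absurd rfl hab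
    · exact absurd rfl hab
    · exact absurd rfl hac
    · have h : b ≠ c := fun h => hbc (congrArg some h)
      exact tri_none h
    · exact absurd rfl hbc
    · have h : a ≠ c := fun h => hac (congrArg some h)
      exact r23 (tri_none h)
    · have h : a ≠ b := fun h => hab (congrArg some h)
      exact T.rot _ _ _ (tri_none h)
    · have h1 : a ≠ b := fun h => hab (congrArg some h)
      have h2 : b ≠ c := fun h => hbc (congrArg some h)
      have h3 : a ≠ c := fun h => hac (congrArg some h)
      show T.R (lb T adj a b) (lb T adj b c) (lb T adj a c)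
      rcases lb_cases (adj := adj) h1 with ⟨x, hx, e1⟩ | e1
      · rcases lb_cases (adj := adj) h2 with ⟨y, hy, e2⟩ | e2
        · rcases lb_cases (adj := adj) h3 with ⟨z, hz, e3⟩ | e3
          · exact absurd hz.1 (tf _ _ _ _ _ _ hx.1 hy.1)
          · rw [e3]
            exact r_flex3 (lb_ne h1) (lb_ne h2)
        · rw [e2]
          exact r_flex2 (lb_ne h1) (lb_ne h3)
      · rw [e1]
        exact T.flex _ _ (lb_ne h2) (lb_ne h3)

end MH4A

open MH4A in
theorem m_H4A : StEMB → StG → StH4A := by
  intro hEmb hG O _ T V col hU n χ hχ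
  classical
  haveI : ∀ i : Fin n, Finite (Row n i) := fun i => by
    unfold Row
    infer_instance
  obtain ⟨G, _, adj, sym, irr, uniq, tf, hcol⟩ := hG {a : O // a ≠ T.e}
    (Nat.card ((i : Fin n) → (Row n i → {a : O // a ≠ T.e}) → {a : O // a ≠ T.e}))
  obtain ⟨ι, hι⟩ := hEmb O T V col hU (Option ({a : O // a ≠ T.e} × G)) (lab T adj)
    (closed_lab sym uniq tf)
  -- the values
  have hval : ∀ (v : G) (i : Fin n) (t : Row n i → {a : O // a ≠ T.e}), ∃ a : Row n i,
      χ i (fun _ => ι none) (fun a => ι (some (t a, v))) = (t a).1 := by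
    intro v i t
    obtain ⟨a, ha⟩ := hχ.cons i (fun _ => ι none) (fun a => ι (some (t a, v)))
    exact ⟨a, by rw [ha, hι]; rfl⟩
  have hne : ∀ (v : G) (i : Fin n) (t : Row n i → {a : O // a ≠ T.e}),
      χ i (fun _ => ι none) (fun a => ι (some (t a, v))) ≠ T.e := by
    intro v i t
    obtain ⟨a, ha⟩ := hval v i t
    rw [ha]
    exact (t a).2
  obtain ⟨κ, ⟨v0, hv0⟩, hκ⟩ := hcol
    ((i : Fin n) → (Row n i → {a : O // a ≠ T.e}) → {a : O // a ≠ T.e}) le_rfl
    (fun v i t => ⟨χ i (fun _ => ι none) (fun a => ι (some (t a, v))), hne v i t⟩)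
  have hκv : ∀ v, (fun (i : Fin n) (t : Row n i → {a : O // a ≠ T.e}) =>
      (⟨χ i (fun _ => ι none) (fun a => ι (some (t a, v))), hne v i t⟩ : {a : O // a ≠ T.e})) = κ →
      ∀ (i : Fin n) (t : Row n i → {a : O // a ≠ T.e}),
      (κ i t).1 = χ i (fun _ => ι none) (fun a => ι (some (t a, v))) := by
    intro v hv i t
    rw [← hv]
  refine ⟨κ, fun i => ⟨?_, ?_⟩, ?_⟩
  · intro t
    obtain ⟨a, ha⟩ := hval v0 i t
    exact ⟨a, Subtype.ext (by rw [hκv v0 hv0, ha])⟩
  · intro x t t' hR
    obtain ⟨v, v', hv, hv', hadj⟩ := hκ x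
    have hlab : χ i (fun a => ι (some (t a, v))) (fun a => ι (some (t' a, v'))) = x.1 := by
      obtain ⟨a, ha⟩ := hχ.cons i (fun a => ι (some (t a, v))) (fun a => ι (some (t' a, v')))
      rw [ha, hι]
      have hvv : (t a, v) ≠ (t' a, v') := by
        intro h
        have h2 : v = v' := congrArg Prod.snd h
        rw [h2] at hadj
        exact irr _ _ hadj
      exact lb_spec uniq hvv ⟨hadj, hR a⟩
    have htri := (hχ.closed i).2.2 (fun _ => ι none) (fun a => ι (some (t a, v)))
      (fun a => ι (some (t' a, v')))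
    rw [hlab, ← hκv v hv, ← hκv v' hv'] at htri
    exact T.sw _ _ _ htri
  · intro i j hij x
    apply Subtype.ext
    rw [hκv v0 hv0, hκv v0 hv0]
    exact hχ.minor i j (fun _ => ι none) (fun z => ι (some (x z, v0))) hij

end RA7
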