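import Pool.Agent.Helper74.RA7.Alg

/-!
# RA7, module H4B: a two-element set without a commutative and without a majority operation gives
an additive 0-1-valued function, against PAR
-/

set_option autoImplicit false

namespace RA7

open Relation Pool.Agent.Helper32.RA7

namespace MH4B

variable {N : Type}

/-- conservative polymorphisms with three explicit variables -/
structure P3 (S : NS N) (M : N → N → N → N) : Prop where
  cons : ∀ x y z, M x y z = x ∨ M x y z = y ∨ M x y z = z
  pres : ∀ u x y z x' y' z', S.R u x x' → S.R u y y' → S.R u z z' →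
    S.R u (M x y z) (M x' y' z')

theorem P3.pol {S : NS N} {M : N → N → N → N} (h : P3 S M) :
    Pol S (fun t : Fin 3 → N => M (t 0) (t 1) (t 2)) where
  cons t := by
    rcases h.cons (t 0) (t 1) (t 2) with h' | h' | h'
    · exact ⟨0, h'⟩
    · exact ⟨1, h'⟩
    · exact ⟨2, h'⟩
  pres x t t' ht := h.pres x _ _ _ _ _ _ (ht 0) (ht 1) (ht 2)

theorem P3.swap23 {S : NS N} {M : N → N → N → N} (h : P3 S M) :
    P3 S (fun x y z => M x z y) where
  cons x y z := by
    rcases h.cons x z y with h' | h' | h'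
    · exact Or.inl h'
    · exact Or.inr (Or.inr h')
    · exact Or.inr (Or.inl h')
  pres u x y z x' y' z' h1 h2 h3 := h.pres u _ _ _ _ _ _ h1 h3 h2

theorem P3.swap13 {S : NS N} {M : N → N → N → N} (h : P3 S M) :
    P3 S (fun x y z => M z y x) where
  cons x y z := by
    rcases h.cons z y x with h' | h' | h'
    · exact Or.inr (Or.inr h')
    · exact Or.inr (Or.inl h')
    · exact Or.inl h'
  pres u x y z x' y' z' h1 h2 h3 := h.pres u _ _ _ _ _ _ h3 h2 h1

theorem P3.comp {S : NS N} {M : N → N → N → N} (h : P3 S M) :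
    P3 S (fun x y z => M x y (M x y z)) where
  cons x y z := by
    rcases h.cons x y (M x y z) with h' | h' | h'
    · exact Or.inl h'
    · exact Or.inr (Or.inl h')
    · rcases h.cons x y z with h'' | h'' | h''
      · exact Or.inl (h'.trans h'')
      · exact Or.inr (Or.inl (h'.trans h''))
      · exact Or.inr (Or.inr (h'.trans h''))
  pres u x y z x' y' z' h1 h2 h3 :=
    h.pres u _ _ _ _ _ _ h1 h2 (h.pres u _ _ _ _ _ _ h1 h2 h3)

theorem P3.self {S : NS N} {M : N → N → N → N} (h : P3 S M) (x : N) : M x x x = x := by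
  rcases h.cons x x x with h' | h' | h' <;> exact h'

/-- values on two-element tuples -/
theorem P3.two {S : NS N} {M : N → N → N → N} (h : P3 S M) (a b x y z : N)
    (hx : x = a ∨ x = b) (hy : y = a ∨ y = b) (hz : z = a ∨ z = b) :
    M x y z = a ∨ M x y z = b := by
  rcases h.cons x y z with h' | h' | h' <;> rw [h'] <;> assumption

/-- no majority on `{a, b}` -/
def NoMaj (S : NS N) (a b : N) : Prop := ¬ ∃ m : (Fin 3 → N) → N, Pol S m ∧
    m ![a, a, b] = a ∧ m ![a, b, a] = a ∧ m ![b, a, a] = a ∧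
    m ![b, b, a] = b ∧ m ![b, a, b] = b ∧ m ![a, b, b] = b

theorem noMaj {S : NS N} {a b : N} (hm : NoMaj S a b) {M : N → N → N → N} (h : P3 S M)
    (h1 : M a a b = a) (h2 : M a b a = a) (h3 : M b a a = a)
    (h4 : M b b a = b) (h5 : M b a b = b) (h6 : M a b b = b) : False :=
  hm ⟨_, h.pol, h1, h2, h3, h4, h5, h6⟩

/-- opposite values at opposite tuples -/
def Opp (a b : N) (M : N → N → N → N) : Prop :=
  (M b a a = b ↔ M a b b = a) ∧ (M a b a = b ↔ M b a b = a) ∧ (M a a b = b ↔ M b b a = a)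

theorem noTwo {S : NS N} {a b : N} (hm : NoMaj S a b) {M : N → N → N → N}
    (h : P3 S M) (ho : Opp a b M) (h1 : M b a a = b) (h2 : M a b a = b) (h3 : M a a b ≠ b) :
    False := by
  have e1 : M a b b = a := ho.1.1 h1
  have e2 : M b a b = a := ho.2.1.1 h2
  have e3 : M a a b = a :=
    (h.two a b a a b (Or.inl rfl) (Or.inl rfl) (Or.inr rfl)).resolve_right h3
  have e4 : M b b a = b :=
    (h.two a b b b a (Or.inr rfl) (Or.inr rfl) (Or.inl rfl)).resolve_left
      (fun hh => h3 (ho.2.2.2 hh))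
  refine noMaj hm h.comp ?_ ?_ ?_ ?_ ?_ ?_
  · show M a a (M a a b) = a
    rw [e3, h.self]
  · show M a b (M a b a) = a
    rw [h2, e1]
  · show M b a (M b a a) = a
    rw [h1, e2]
  · show M b b (M b b a) = b
    rw [e4, h.self]
  · show M b a (M b a b) = b
    rw [e2, h1]
  · show M a b (M a b b) = b
    rw [e1, h2]

theorem noZero {S : NS N} {a b : N} (hm : NoMaj S a b) {M : N → N → N → N}
    (h : P3 S M) (ho : Opp a b M) (h1 : M b a a ≠ b) (h2 : M a b a ≠ b) (h3 : M a a b ≠ b) :
    False := by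
  refine noMaj hm h ?_ ?_ ?_ ?_ ?_ ?_
  · exact (h.two a b a a b (Or.inl rfl) (Or.inl rfl) (Or.inr rfl)).resolve_right h3
  · exact (h.two a b a b a (Or.inl rfl) (Or.inr rfl) (Or.inl rfl)).resolve_right h2
  · exact (h.two a b b a a (Or.inr rfl) (Or.inl rfl) (Or.inl rfl)).resolve_right h1
  · exact (h.two a b b b a (Or.inr rfl) (Or.inr rfl) (Or.inl rfl)).resolve_left
      (fun hh => h3 (ho.2.2.2 hh))
  · exact (h.two a b b a b (Or.inr rfl) (Or.inl rfl) (Or.inr rfl)).resolve_left
      (fun hh => h2 (ho.2.1.2 hh))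
  · exact (h.two a b a b b (Or.inl rfl) (Or.inr rfl) (Or.inr rfl)).resolve_left
      (fun hh => h1 (ho.1.2 hh))

open Classical in
/-- indicator of `x = b` -/
noncomputable def ind (b x : N) : ZMod 2 := if x = b then 1 else 0

theorem ind_pos {b x : N} (h : x = b) : ind b x = 1 := by unfold ind; rw [if_pos h]

theorem ind_neg {b x : N} (h : x ≠ b) : ind b x = 0 := by unfold ind; rw [if_neg h]

theorem sum3 {S : NS N} {a b : N} (hm : NoMaj S a b) {M : N → N → N → N}
    (h : P3 S M) (ho : Opp a b M) :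
    ind b (M b a a) + ind b (M a b a) + ind b (M a a b) = 1 := by
  by_cases h1 : M b a a = b
  · by_cases h2 : M a b a = b
    · by_cases h3 : M a a b = b
      · rw [ind_pos h1, ind_pos h2, ind_pos h3]; decide
      · exact (noTwo hm h ho h1 h2 h3).elim
    · by_cases h3 : M a a b = b
      · exfalso
        refine noTwo hm h.swap23 ?_ h1 h3 h2
        exact ⟨ho.1, ho.2.2, ho.2.1⟩
      · rw [ind_pos h1, ind_neg h2, ind_neg h3]; decide
  · by_cases h2 : M a b a = b
    · by_cases h3 : M a a b = b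
      · exfalso
        refine noTwo hm h.swap13 ?_ h3 h2 h1
        exact ⟨ho.2.2, ho.2.1, ho.1⟩
      · rw [ind_neg h1, ind_pos h2, ind_neg h3]; decide
    · by_cases h3 : M a a b = b
      · rw [ind_neg h1, ind_neg h2, ind_pos h3]; decide
      · exact (noZero hm h ho h1 h2 h3).elim

section Sets

variable {ρ : Type}

open Classical in
/-- the tuple with value `x` on `A`, `y` on `B`, `z` elsewhere -/
noncomputable def tup (A B : Set ρ) (x y z : N) : ρ → N :=
  fun r => if r ∈ A then x else if r ∈ B then y else z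

theorem p3_of_pol {S : NS N} {h : (ρ → N) → N} (hp : Pol S h) (A B : Set ρ) :
    P3 S (fun x y z => h (tup A B x y z)) where
  cons x y z := by
    obtain ⟨r, hr⟩ := hp.cons (tup A B x y z)
    show h (tup A B x y z) = x ∨ h (tup A B x y z) = y ∨ h (tup A B x y z) = z
    rw [hr]
    unfold tup
    by_cases hA : r ∈ A
    · exact Or.inl (if_pos hA)
    · by_cases hB : r ∈ B
      · right; left; rw [if_neg hA, if_pos hB]
      · right; right; rw [if_neg hA, if_neg hB]
  pres u x y z x' y' z' h1 h2 h3 := by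
    refine hp.pres u _ _ ?_
    intro r
    unfold tup
    by_cases hA : r ∈ A
    · rw [if_pos hA, if_pos hA]; exact h1
    · by_cases hB : r ∈ B
      · rw [if_neg hA, if_pos hB, if_neg hA, if_pos hB]; exact h2
      · rw [if_neg hA, if_neg hB, if_neg hA, if_neg hB]; exact h3

open Classical in
/-- value `x` on `A`, `y` off `A` -/
noncomputable def bi (A : Set ρ) (x y : N) : ρ → N := fun r => if r ∈ A then x else y

theorem bi_pos {A : Set ρ} {r : ρ} (h : r ∈ A) (x y : N) : bi A x y r = x := by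
  unfold bi; exact if_pos h

theorem bi_neg {A : Set ρ} {r : ρ} (h : r ∉ A) (x y : N) : bi A x y r = y := by
  unfold bi; exact if_neg h

theorem bi_compl (A : Set ρ) (x y : N) : bi Aᶜ x y = bi A y x := by
  funext r
  by_cases h : r ∈ A
  · rw [bi_pos h, bi_neg (A := Aᶜ) (fun hh => hh h)]
  · rw [bi_neg h]; exact bi_pos (A := Aᶜ) h x y

theorem tup_1 (A B : Set ρ) (x y : N) : tup A B x y y = bi A x y := by
  funext r
  unfold tup bi
  by_cases h : r ∈ A
  · rw [if_pos h, if_pos h]
  · rw [if_neg h, if_neg h]; split_ifs <;> rfl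

theorem tup_2 {A B : Set ρ} (hd : ∀ r, r ∈ A → r ∉ B) (x y : N) : tup A B y x y = bi B x y := by
  funext r
  unfold tup bi
  by_cases h : r ∈ A
  · rw [if_pos h, if_neg (hd r h)]
  · rw [if_neg h]

theorem tup_3 (A B : Set ρ) (x y : N) : tup A B y y x = bi (A ∪ B)ᶜ x y := by
  rw [bi_compl]
  funext r
  by_cases h : r ∈ A
  · rw [bi_pos (A := A ∪ B) (Or.inl h)]
    unfold tup
    rw [if_pos h]
  · by_cases h' : r ∈ B
    · rw [bi_pos (A := A ∪ B) (Or.inr h')]
      unfold tup
      rw [if_neg h, if_pos h']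
    · rw [bi_neg (A := A ∪ B) (fun hh => hh.elim h h')]
      unfold tup
      rw [if_neg h, if_neg h']

/-- the hypothesis on binary operations -/
def NoComm (S : NS N) (a b : N) : Prop :=
  ¬ ∃ m : (Fin 2 → N) → N, Pol S m ∧ m ![a, b] = m ![b, a]

theorem bi_ne {S : NS N} {a b : N} (hc : NoComm S a b) {h : (ρ → N) → N} (hp : Pol S h)
    (A : Set ρ) : h (bi A a b) ≠ h (bi A b a) := by
  classical
  intro he
  refine hc ⟨fun t => h (bi A (t 0) (t 1)), ⟨?_, ?_⟩, he⟩
  · intro t
    obtain ⟨r, hr⟩ := hp.cons (bi A (t 0) (t 1))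
    by_cases hA : r ∈ A
    · refine ⟨0, hr.trans ?_⟩
      unfold bi; rw [if_pos hA]
    · refine ⟨1, hr.trans ?_⟩
      unfold bi; rw [if_neg hA]
  · intro x t t' ht
    refine hp.pres x _ _ ?_
    intro r
    unfold bi
    by_cases hA : r ∈ A
    · rw [if_pos hA, if_pos hA]; exact ht 0
    · rw [if_neg hA, if_neg hA]; exact ht 1

theorem bi_mem {S : NS N} {h : (ρ → N) → N} (hp : Pol S h)
    (A : Set ρ) (x y : N) : h (bi A x y) = x ∨ h (bi A x y) = y := by
  obtain ⟨r, hr⟩ := hp.cons (bi A x y)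
  rw [hr]
  unfold bi
  by_cases hA : r ∈ A
  · exact Or.inl (if_pos hA)
  · exact Or.inr (if_neg hA)

theorem bi_opp {S : NS N} {a b : N} (hab : a ≠ b) (hc : NoComm S a b) {h : (ρ → N) → N}
    (hp : Pol S h) (A : Set ρ) : h (bi A b a) = b ↔ h (bi A a b) = a := by
  have hne := bi_ne hc hp A
  rcases bi_mem hp A a b with h1 | h1 <;> rcases bi_mem hp A b a with h2 | h2
  · exact ⟨fun _ => h1, fun _ => h2⟩
  · exact (hne (h1.trans h2.symm)).elim
  · exact (hne (h1.trans h2.symm)).elim
  · constructor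
    · intro h3; exact (hab (h2.symm.trans h3)).elim
    · intro h3; exact (hab (h3.symm.trans h1)).elim

theorem opp_tup {S : NS N} {a b : N} (hab : a ≠ b) (hc : NoComm S a b) {h : (ρ → N) → N}
    (hp : Pol S h) {A B : Set ρ} (hd : ∀ r, r ∈ A → r ∉ B) :
    Opp a b (fun x y z => h (tup A B x y z)) := by
  refine ⟨?_, ?_, ?_⟩
  · show h (tup A B b a a) = b ↔ h (tup A B a b b) = a
    rw [tup_1, tup_1]; exact bi_opp hab hc hp A
  · show h (tup A B a b a) = b ↔ h (tup A B b a b) = a
    rw [tup_2 hd, tup_2 hd]; exact bi_opp hab hc hp B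
  · show h (tup A B a a b) = b ↔ h (tup A B b b a) = a
    rw [tup_3, tup_3]; exact bi_opp hab hc hp _

/-- the value function -/
noncomputable def val (h : (ρ → N) → N) (a b : N) (A : Set ρ) : ZMod 2 := ind b (h (bi A b a))

theorem zmod2 (x : ZMod 2) : x + x = 0 := by revert x; decide

theorem val_compl {S : NS N} {a b : N} (hab : a ≠ b) (hc : NoComm S a b) {h : (ρ → N) → N}
    (hp : Pol S h) (A : Set ρ) : val h a b Aᶜ = 1 + val h a b A := by
  unfold val
  rw [bi_compl]
  by_cases h1 : h (bi A b a) = b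
  · have h2 := (bi_opp hab hc hp A).1 h1
    rw [ind_pos h1, h2, ind_neg hab]; decide
  · have h2 : h (bi A a b) = b := by
      rcases bi_mem hp A a b with h3 | h3
      · exact (h1 ((bi_opp hab hc hp A).2 h3)).elim
      · exact h3
    rw [ind_neg h1, h2, ind_pos rfl]; decide

theorem val_union {S : NS N} {a b : N} (hab : a ≠ b) (hc : NoComm S a b) (hm : NoMaj S a b)
    {h : (ρ → N) → N} (hp : Pol S h) {A B : Set ρ} (hd : ∀ r, r ∈ A → r ∉ B) :
    val h a b (A ∪ B) = val h a b A + val h a b B := by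
  have h3 := sum3 hm (p3_of_pol hp A B) (opp_tup hab hc hp hd)
  have h4 : ind b (h (tup A B b a a)) + ind b (h (tup A B a b a)) +
      ind b (h (tup A B a a b)) = 1 := h3
  rw [tup_1, tup_2 hd, tup_3] at h4
  have h5 : val h a b A + val h a b B + val h a b (A ∪ B)ᶜ = 1 := h4
  rw [val_compl hab hc hp] at h5
  have key : ∀ x y z : ZMod 2, x + y + (1 + z) = 1 → z = x + y := by decide
  exact key _ _ _ h5

theorem val_symmDiff {S : NS N} {a b : N} (hab : a ≠ b) (hc : NoComm S a b) (hm : NoMaj S a b)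
    {h : (ρ → N) → N} (hp : Pol S h) (A B : Set ρ) :
    val h a b (symmDiff A B) = val h a b A + val h a b B := by
  have e1 : symmDiff A B = (A \ B) ∪ (B \ A) := rfl
  have e2 : A = (A \ B) ∪ (A ∩ B) := (Set.sdiff_union_inter A B).symm
  have e3 : B = (B \ A) ∪ (A ∩ B) := by
    rw [Set.inter_comm]; exact (Set.sdiff_union_inter B A).symm
  have v1 := val_union hab hc hm hp (A := A \ B) (B := B \ A) (fun r hr hr' => hr.2 hr'.1)
  have v2 := val_union hab hc hm hp (A := A \ B) (B := A ∩ B) (fun r hr hr' => hr.2 hr'.2)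
  have v3 := val_union hab hc hm hp (A := B \ A) (B := A ∩ B) (fun r hr hr' => hr.2 hr'.1)
  rw [← e2] at v2
  rw [← e3] at v3
  rw [e1, v1, v2, v3]
  have key : ∀ x y z : ZMod 2, x + y = x + z + (y + z) := by decide
  exact key _ _ _

theorem val_univ {S : NS N} {a b : N} {h : (ρ → N) → N} (hp : Pol S h) :
    val h a b (Set.univ : Set ρ) = 1 := by
  unfold val
  refine ind_pos ?_
  obtain ⟨r, hr⟩ := hp.cons (bi (Set.univ : Set ρ) b a)
  rw [hr]
  unfold bi
  exact if_pos (Set.mem_univ r)

end Sets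

end MH4B

open MH4B in
theorem m_H4B : StIC → StH4B := by
  intro hIC N S n hn h hpol hmin a b hab
  by_contra hcon
  rw [not_or] at hcon
  obtain ⟨hc, hm⟩ := hcon
  have hc' : NoComm S a b := hc
  have hm' : NoMaj S a b := hm
  refine hIC n hn (fun i A => val (h i) a b A) ?_ ?_ ?_
  · intro i A B
    exact val_symmDiff hab hc' hm' (hpol i) A B
  · intro i
    exact val_univ (hpol i)
  · intro i j hij
    show ind b (h i (bi _ b a)) = ind b (h j (bi _ b a))
    have e := hmin i j hij (fun z => if z = 1 then b else a)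
    have e1 : (bi {r : Row n i | r.1 j = 1} b a) =
        (fun r : Row n i => (fun z : ZMod 2 => if z = 1 then b else a) (r.1 j)) := by
      funext r
      by_cases hr : r.1 j = 1
      · exact (bi_pos (A := {r : Row n i | r.1 j = 1}) hr b a).trans (if_pos hr).symm
      · exact (bi_neg (A := {r : Row n i | r.1 j = 1}) hr b a).trans (if_neg hr).symm
    have e2 : (bi {r : Row n j | r.1 i = 1} b a) =
        (fun r : Row n j => (fun z : ZMod 2 => if z = 1 then b else a) (r.1 i)) := by
      funext r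
      by_cases hr : r.1 i = 1
      · exact (bi_pos (A := {r : Row n j | r.1 i = 1}) hr b a).trans (if_pos hr).symm
      · exact (bi_neg (A := {r : Row n j | r.1 i = 1}) hr b a).trans (if_neg hr).symm
    rw [e1, e2, e]

end RA7
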