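import Mathlib
import Pool.Agent.Helper74.RA7.Base

/-!
# Module NI: a closed tournament gives a closed linear order
-/

namespace RA7

open Relation

namespace NI

variable {D I : Type}

/-- the conclusion of Theorem NI -/
private def Concl (E : I → D → D → Prop) (T : D → D → Prop) : Prop :=
  ∃ L : D → D → Prop, LinT L ∧ ClosedT E L ∧ ∀ p q, T p q → ¬ ReflTransGen T q p → L p q

private theorem lin_of_no_cyc {T : D → D → Prop} (hT : Tour T)
    (h : ¬ ∃ x y z, Cyc3 T x y z) : LinT T := by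
  refine ⟨hT, fun p q r hpq hqr => ?_⟩
  obtain ⟨h1, h2, h3⟩ := hT
  have hpr : p ≠ r := by
    rintro rfl
    exact h2 _ _ hpq hqr
  rcases h3 p r hpr with h4 | h4
  · exact h4
  · exact absurd ⟨p, q, r, hpq, hqr, h4⟩ h

private theorem tour_restrict {T : D → D → Prop} (hT : Tour T) (Y : D → Prop) :
    Tour (fun a b : {x // Y x} => T a.1 b.1) :=
  ⟨fun p => hT.1 p.1, fun p q => hT.2.1 p.1 q.1,
    fun p q h => hT.2.2 p.1 q.1 (fun h' => h (Subtype.ext h'))⟩

private theorem closed_restrict {E : I → D → D → Prop} {T : D → D → Prop} (hC : ClosedT E T)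
    (Y : D → Prop) :
    ClosedT (fun i (a b : {x // Y x}) => E i a.1 b.1) (fun a b : {x // Y x} => T a.1 b.1) :=
  fun i p q r => hC i p.1 q.1 r.1

private theorem comp_hom {T : D → D → Prop} (hT : Tour T) (x : D) :
    Hom T (fun v => ReflTransGen T x v ∧ ReflTransGen T v x) := by
  intro z hz
  by_cases h : ∀ y, (ReflTransGen T x y ∧ ReflTransGen T y x) → T z y
  · exact Or.inl h
  · right
    push Not at h
    obtain ⟨y0, hy0, hzy0⟩ := h
    have hne : ∀ y, (ReflTransGen T x y ∧ ReflTransGen T y x) → z ≠ y := by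
      rintro y hy rfl
      exact hz hy
    have h0 : T y0 z := (hT.2.2 z y0 (hne y0 hy0)).resolve_left hzy0
    intro y hy
    rcases hT.2.2 z y (hne y hy) with h1 | h1
    · exact absurd ⟨hy0.1.tail h0, ReflTransGen.head h1 hy.2⟩ hz
    · exact h1

private theorem comp_sc {T : D → D → Prop} (x : D) :
    SC T (fun v => ReflTransGen T x v ∧ ReflTransGen T v x) := by
  intro a b ha hb
  have key : ∀ c, ReflTransGen T a c → ReflTransGen T c b →
      ReflTransGen (fun p q => (ReflTransGen T x p ∧ ReflTransGen T p x) ∧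
        (ReflTransGen T x q ∧ ReflTransGen T q x) ∧ T p q) a c := by
    intro c hac
    induction hac with
    | refl => intro _; exact ReflTransGen.refl
    | @tail d c had hdc ih =>
      intro hcb
      have hdb : ReflTransGen T d b := ReflTransGen.head hdc hcb
      exact (ih hdb).tail ⟨⟨ha.1.trans had, hdb.trans hb.2⟩,
        ⟨(ha.1.trans had).tail hdc, hcb.trans hb.2⟩, hdc⟩
  exact key b (ha.2.trans hb.1) ReflTransGen.refl

private theorem sc_rtg {T : D → D → Prop} {Y : D → Prop} (hY : SC T Y) {a b : D} (ha : Y a)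
    (hb : Y b) : ReflTransGen T a b :=
  ReflTransGen.mono (fun _ _ h => h.2.2) a b (hY a b ha hb)

/-- the reordered relation -/
private def Rel (T : D → D → Prop) (Y : D → Prop) (LY : {x // Y x} → {x // Y x} → Prop) :
    D → D → Prop :=
  fun p q => (∃ (hp : Y p) (hq : Y q), LY ⟨p, hp⟩ ⟨q, hq⟩) ∨ (¬ (Y p ∧ Y q) ∧ T p q)

private theorem rel_of_not {T : D → D → Prop} {Y : D → Prop}
    {LY : {x // Y x} → {x // Y x} → Prop} {p q : D} (h : Rel T Y LY p q) (hn : ¬ (Y p ∧ Y q)) :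
    T p q := by
  rcases h with ⟨hp, hq, -⟩ | h
  · exact absurd ⟨hp, hq⟩ hn
  · exact h.2

private theorem rel_of_mem {T : D → D → Prop} {Y : D → Prop}
    {LY : {x // Y x} → {x // Y x} → Prop} {p q : D} (h : Rel T Y LY p q) (hp : Y p) (hq : Y q) :
    LY ⟨p, hp⟩ ⟨q, hq⟩ := by
  rcases h with ⟨_, _, h⟩ | h
  · exact h
  · exact absurd ⟨hp, hq⟩ h.1

private theorem no_two {T : D → D → Prop} (hT : Tour T) {Y : D → Prop} (hY : Hom T Y) {a b c : D}
    (ha : Y a) (hb : Y b) (hc : ¬ Y c) (h1 : T b c) (h2 : T c a) : False := by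
  rcases hY c hc with h | h
  · exact hT.2.1 _ _ h1 (h b hb)
  · exact hT.2.1 _ _ h2 (h a ha)

private theorem cyc_rel {T : D → D → Prop} (hT : Tour T) {Y : D → Prop} (hY : Hom T Y)
    {LY : {x // Y x} → {x // Y x} → Prop} (hL : LinT LY) {a b c : D}
    (h : Cyc3 (Rel T Y LY) a b c) : Cyc3 T a b c ∧ ¬ (Y a ∧ Y b ∧ Y c) := by
  obtain ⟨h1, h2, h3⟩ := h
  by_cases ha : Y a <;> by_cases hb : Y b <;> by_cases hc : Y c
  · exfalso
    have e1 := rel_of_mem h1 ha hb
    have e2 := rel_of_mem h2 hb hc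
    have e3 := rel_of_mem h3 hc ha
    exact hL.1.2.1 _ _ (hL.2 _ _ _ e1 e2) e3
  · exact (no_two hT hY ha hb hc (rel_of_not h2 (by tauto)) (rel_of_not h3 (by tauto))).elim
  · exact (no_two hT hY hc ha hb (rel_of_not h1 (by tauto)) (rel_of_not h2 (by tauto))).elim
  · exact ⟨⟨rel_of_not h1 (by tauto), rel_of_not h2 (by tauto), rel_of_not h3 (by tauto)⟩,
      by tauto⟩
  · exact (no_two hT hY hb hc ha (rel_of_not h3 (by tauto)) (rel_of_not h1 (by tauto))).elim
  · exact ⟨⟨rel_of_not h1 (by tauto), rel_of_not h2 (by tauto), rel_of_not h3 (by tauto)⟩,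
      by tauto⟩
  · exact ⟨⟨rel_of_not h1 (by tauto), rel_of_not h2 (by tauto), rel_of_not h3 (by tauto)⟩,
      by tauto⟩
  · exact ⟨⟨rel_of_not h1 (by tauto), rel_of_not h2 (by tauto), rel_of_not h3 (by tauto)⟩,
      by tauto⟩

/-- the number of 3-cycles -/
private noncomputable def cnt (T : D → D → Prop) : ℕ :=
  Set.ncard {t : D × D × D | Cyc3 T t.1 t.2.1 t.2.2}

private theorem cnt_lt [Finite D] {T : D → D → Prop} (hT : Tour T) {Y : D → Prop}
    (hY : Hom T Y) {LY : {x // Y x} → {x // Y x} → Prop} (hL : LinT LY)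
    (h3 : ∃ x y z, Y x ∧ Y y ∧ Y z ∧ Cyc3 T x y z) : cnt (Rel T Y LY) < cnt T := by
  obtain ⟨x, y, z, hx, hy, hz, hc⟩ := h3
  refine Set.ncard_lt_ncard ?_ (Set.toFinite _)
  refine ⟨fun t ht => (cyc_rel hT hY hL ht).1, fun hsub => ?_⟩
  have hm : (x, y, z) ∈ {t : D × D × D | Cyc3 (Rel T Y LY) t.1 t.2.1 t.2.2} := hsub hc
  exact (cyc_rel hT hY hL hm).2 ⟨hx, hy, hz⟩

/-- glueing the classes -/
private theorem glue [Finite D] {E : I → D → D → Prop} {K : D → D → Prop}
    (hK : Equivalence K)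
    (hi : ∀ i, (∀ u v, ¬ K u v → ¬ E i u v) ∨ (∀ u v, u ≠ v → E i u v))
    (hcl : ∀ r : D, ∃ M : {x // K r x} → {x // K r x} → Prop, LinT M ∧
      ClosedT (fun i (a b : {x // K r x}) => E i a.1 b.1) M) :
    ∃ L : D → D → Prop, LinT L ∧ ClosedT E L := by
  classical
  choose M hM hMc using hcl
  let S : Setoid D := ⟨K, hK⟩
  let c : D → D := fun v => (Quotient.mk S v).out
  have hcK : ∀ v, K (c v) v := fun v => Quotient.exact (s := S) (Quotient.out_eq _)
  have hcc : ∀ u v, K u v → c u = c v := by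
    intro u v h
    have : Quotient.mk S u = Quotient.mk S v := Quotient.sound (s := S) h
    simp only [c, this]
  have hcc' : ∀ u v, c u = c v → K u v := fun u v h =>
    hK.trans (hK.symm (hcK u)) (h ▸ hcK v)
  let N : D → D → D → Prop := fun r p q => ∃ (hp : K r p) (hq : K r q), M r ⟨p, hp⟩ ⟨q, hq⟩
  have hNM : ∀ r p q (hp : K r p) (hq : K r q), N r p q → M r ⟨p, hp⟩ ⟨q, hq⟩ := by
    rintro r p q hp hq ⟨_, _, h⟩
    exact h
  let W : D → D → Prop := WellOrderingRel
  have hWi : ∀ a, ¬ W a a := fun a => irrefl_of (WellOrderingRel : D → D → Prop) a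
  have hWt : ∀ a b d, W a b → W b d → W a d := fun a b d => trans_of (WellOrderingRel : D → D → Prop)
  have hWtri : ∀ a b, W a b ∨ a = b ∨ W b a := fun a b =>
    trichotomous_of (WellOrderingRel : D → D → Prop) a b
  let L : D → D → Prop := fun p q => (c p = c q ∧ N (c p) p q) ∨ W (c p) (c q)
  refine ⟨L, ⟨⟨?_, ?_, ?_⟩, ?_⟩, ?_⟩
  · rintro p (⟨-, h⟩ | h)
    · exact (hM (c p)).1.1 _ (hNM _ _ _ (hcK p) (hcK p) h)
    · exact hWi _ h
  · rintro p q (⟨e, h⟩ | h) (⟨e', h'⟩ | h')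
    · rw [e'] at h'
      have hq : K (c p) q := e ▸ hcK q
      exact (hM (c p)).1.2.1 _ _ (hNM _ _ _ (hcK p) hq h) (hNM _ _ _ hq (hcK p) h')
    · rw [e] at h'; exact hWi _ h'
    · rw [e'] at h; exact hWi _ h
    · exact hWi _ (hWt _ _ _ h h')
  · intro p q hpq
    rcases hWtri (c p) (c q) with h | h | h
    · exact Or.inl (Or.inr h)
    · have hq : K (c p) q := h ▸ hcK q
      rcases (hM (c p)).1.2.2 ⟨p, hcK p⟩ ⟨q, hq⟩ (fun h' => hpq (congrArg Subtype.val h')) with h1 | h1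
      · exact Or.inl (Or.inl ⟨h, ⟨hcK p, hq, h1⟩⟩)
      · refine Or.inr (Or.inl ⟨h.symm, ?_⟩)
        rw [← h]
        exact ⟨hq, hcK p, h1⟩
    · exact Or.inr (Or.inr h)
  · rintro p q r (⟨e, h⟩ | h) (⟨e', h'⟩ | h')
    · left
      refine ⟨e.trans e', ?_⟩
      have hq : K (c p) q := e ▸ hcK q
      have hr : K (c p) r := (e.trans e') ▸ hcK r
      rw [← e] at h'
      exact ⟨hcK p, hr, (hM (c p)).2 _ _ _ (hNM _ _ _ (hcK p) hq h) (hNM _ _ _ hq hr h')⟩
    · right; rw [e]; exact h'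
    · right; rw [← e']; exact h
    · right; exact hWt _ _ _ h h'
  · intro i p q r hL hpr hnpq
    have hpq : p ≠ q := by
      rintro rfl
      rcases hL with ⟨-, h⟩ | h
      · exact (hM (c p)).1.1 _ (hNM _ _ _ (hcK p) (hcK p) h)
      · exact hWi _ h
    have hK1 : K p r := by
      rcases hi i with h | h
      · by_contra hK'
        exact h _ _ hK' hpr
      · exact absurd (h p q hpq) hnpq
    have hce : c p = c r := hcc _ _ hK1
    rcases hL with ⟨e, h⟩ | h
    · left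
      refine ⟨hce ▸ e, ?_⟩
      rw [← hce]
      have hq : K (c p) q := e ▸ hcK q
      have hr : K (c p) r := hce ▸ hcK r
      exact ⟨hr, hq, hMc (c p) i ⟨p, hcK p⟩ ⟨q, hq⟩ ⟨r, hr⟩ (hNM _ _ _ (hcK p) hq h) hpr hnpq⟩
    · right
      rw [← hce]; exact h

private theorem main (hRE : StRE) (hS2 : StS2) (I : Type) : ∀ n : ℕ, ∀ (D : Type) (_ : Finite D),
    Nat.card D = n → ∀ (E : I → D → D → Prop) (T : D → D → Prop),
    SymF E → Tour T → ClosedT E T → Concl E T := by
  intro n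
  induction n using Nat.strong_induction_on with
  | _ n ih =>
  intro D hfin hn E T hE hT hC
  have sub : ∀ (Y : D → Prop), (∃ z, ¬ Y z) → ∀ T : D → D → Prop, Tour T → ClosedT E T →
      ∃ LY : {x // Y x} → {x // Y x} → Prop, LinT LY ∧
        ClosedT (fun i (a b : {x // Y x}) => E i a.1 b.1) LY := by
    rintro Y ⟨z, hz⟩ T hT hC
    have hcard : Nat.card {x // Y x} < n := hn ▸ Finite.card_subtype_lt hz
    obtain ⟨L, h1, h2, -⟩ := ih _ hcard {x // Y x} inferInstance rfl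
      (fun i (a b : {x // Y x}) => E i a.1 b.1) (fun a b : {x // Y x} => T a.1 b.1)
      (fun i p q h => hE i p.1 q.1 h) (tour_restrict hT Y) (closed_restrict hC Y)
    exact ⟨L, h1, h2⟩
  -- inner induction
  obtain ⟨k, hk⟩ : ∃ k, cnt T = k := ⟨_, rfl⟩
  induction k using Nat.strong_induction_on generalizing T with
  | _ k ihk =>
  by_cases hcyc : ∃ x y z, Cyc3 T x y z
  swap
  · exact ⟨T, lin_of_no_cyc hT hcyc, hC, fun p q h _ => h⟩
  -- the step with a homogeneous set
  have step : ∀ Y : D → Prop, Hom T Y → SC T Y →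
      (∃ x y z, Y x ∧ Y y ∧ Y z ∧ Cyc3 T x y z) → (∃ z, ¬ Y z) → Concl E T := by
    intro Y hY1 hY2 hY3 hY4
    obtain ⟨LY, hL1, hL2⟩ := sub Y hY4 T hT hC
    obtain ⟨hT', hC'⟩ := hRE D I E T Y hE hT hC hY1 hY2 LY hL1.1 hL2
    have hlt : cnt (Rel T Y LY) < k := hk ▸ cnt_lt hT hY1 hL1 hY3
    obtain ⟨L, h1, h2, h3⟩ := ihk _ hlt (Rel T Y LY) hT' hC' rfl
    refine ⟨L, h1, h2, fun p q hpq hnq => h3 p q ?_ ?_⟩
    · right
      exact ⟨fun hY => hnq (sc_rtg hY2 hY.2 hY.1), hpq⟩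
    · intro hr
      apply hnq
      have : ∀ a b, Rel T Y LY a b → ReflTransGen T a b := by
        intro a b hab
        by_cases h : Y a ∧ Y b
        · exact sc_rtg hY2 h.1 h.2
        · exact ReflTransGen.single (rel_of_not hab h)
      exact ReflTransGen.lift' id this q p hr
  by_cases hsc : ∀ p q, ReflTransGen T p q
  · rcases hS2 D I E T hE hT hC hsc hcyc with ⟨Y, h1, h2, h3, h4⟩ | ⟨K, hK, ⟨a, b, hab⟩, hi⟩
    · exact step Y h1 h2 h3 h4
    · have hprop : ∀ r : D, ∃ z, ¬ K r z := by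
        intro r
        by_contra hcon
        push Not at hcon
        exact hab (hK.trans (hK.symm (hcon a)) (hcon b))
      obtain ⟨L, h1, h2⟩ := glue (E := E) hK hi (fun r => sub (fun x => K r x) (hprop r) T hT hC)
      exact ⟨L, h1, h2, fun p q _ h => absurd (hsc q p) h⟩
  · obtain ⟨x, y, z, hxyz⟩ := hcyc
    refine step (fun v => ReflTransGen T x v ∧ ReflTransGen T v x) (comp_hom hT x) (comp_sc x)
      ⟨x, y, z, ⟨ReflTransGen.refl, ReflTransGen.refl⟩, ?_, ?_, hxyz⟩ ?_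
    · exact ⟨ReflTransGen.single hxyz.1,
        ReflTransGen.head hxyz.2.1 (ReflTransGen.single hxyz.2.2)⟩
    · exact ⟨ReflTransGen.head hxyz.1 (ReflTransGen.single hxyz.2.1),
        ReflTransGen.single hxyz.2.2⟩
    · by_contra hcon
      push Not at hcon
      exact hsc fun p q => (hcon p).2.trans (hcon q).1

end NI

theorem ni : StRE → StS2 → StNI := by
  intro hRE hS2 D I hfin E T hE hT hC
  exact NI.main hRE hS2 I _ D hfin rfl E T hE hT hC

end RA7
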