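import Pool.Agent.Helper74.RA7.Base

set_option autoImplicit false

/-! Project RA7, module O1: from 2-SAT to the relation `T`. -/

namespace RA7

open Relation

theorem O1.skew {N : Type} (S : NS N) (a b : N × N) (h : FImp S a b) :
    FImp S (Prod.swap b) (Prod.swap a) := by
  rcases h with ⟨x, h1, h2, h3, h4⟩ | ⟨x, h1, h2, h3, h4⟩
  · right
    refine ⟨x, ?_, ?_, ?_, ?_⟩
    · exact S.r23 _ _ _ h1
    · intro h
      apply h2
      apply S.r23
      rw [h4]
      exact h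
    · change S.R x b.2 b.2
      rw [← h4]
      exact h3
    · exact h4.symm
  · left
    refine ⟨x, ?_, ?_, ?_, ?_⟩
    · exact S.r23 _ _ _ h1
    · intro h
      apply h2
      rw [h4]
      exact S.r23 _ _ _ h
    · change S.R x b.1 b.1
      rw [← h4]
      exact h3
    · exact h4.symm

theorem O1.nondeg {N : Type} (S : NS N) (a b : N × N) (h : FImp S a b) : b.1 ≠ b.2 := by
  intro hb
  rcases h with ⟨x, h1, h2, h3, h4⟩ | ⟨x, h1, h2, h3, h4⟩
  · apply h2
    rw [h4, ← hb]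
    exact h1
  · apply h2
    rw [← hb, ← h4]
    exact h3

theorem o1 : StSAT → StO1 := by
  intro hSAT N _ S _ hH2
  obtain ⟨T0, hU, hcl, htot, hbi⟩ := hSAT (N × N) Prod.swap (FImp S) (fun p => U1 S p.1 p.2)
    (fun a => Prod.swap_swap a) (O1.skew S) (by
      intro u v hu hv h
      exact hH2 u.1 u.2 v.1 v.2 hu hv h)
  refine ⟨fun p q => p ≠ q ∧ T0 (p, q), ?_, ?_, ?_, ?_, ?_⟩
  · intro p h
    exact h.1 rfl
  · intro p q hpq
    rcases htot (p, q) with h | h
    · exact Or.inl ⟨hpq, h⟩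
    · exact Or.inr ⟨hpq.symm, h⟩
  · intro w y h
    have h1 := hU (w, y) h
    refine ⟨⟨?_, h1.1⟩, fun h2 => h1.2 h2.2⟩
    rintro rfl
    obtain ⟨c, z, h3, h4, _⟩ := h
    exact h4 h3
  · intro a b h hab
    exact ⟨O1.nondeg S a b hab, hcl a b h.2 hab⟩
  · intro p q h1 h2
    exact ⟨h1.1, hbi (p, q) h1.2 h2.2⟩

end RA7
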