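import Pool.Agent.Helper74.RA7.Base

/-! Project RA7, module O2: the operation `f`. -/

namespace RA7

open Relation

namespace O2

variable {N : Type}

/-- strict winner -/
def W (T : N → N → Prop) (a b : N) : Prop := T a b ∧ ¬ T b a

open Classical in
/-- the operation -/
noncomputable def fop (T : N → N → Prop) (a b : N) : N := if W T b a then b else a

lemma fop_pos {T : N → N → Prop} {a b : N} (h : W T b a) : fop T a b = b := by
  unfold fop; rw [if_pos h]

lemma fop_neg {T : N → N → Prop} {a b : N} (h : ¬ W T b a) : fop T a b = a := by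
  unfold fop; rw [if_neg h]

lemma r13 (S : NS N) {a b c : N} (h : S.R a b c) : S.R c b a :=
  S.r12 _ _ _ (S.r23 _ _ _ (S.r12 _ _ _ h))

lemma key {S : NS N} {x y z w : N} (h : S.R x z w) (hn : ¬ S.R x y y) : U1 S w y ∨ U1 S z y := by
  by_cases h1 : S.R x z y
  · right
    exact ⟨x, y, S.r23 _ _ _ h1, hn, hn⟩
  · left
    exact ⟨x, z, h, h1, hn⟩

lemma f1 {S : NS N} (hH : H1 S) {T : N → N → Prop} (hT : TS S T) {x y : N} (h : ¬ W T y x) :
    S.R x x y := by
  by_contra hn
  apply h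
  apply hT.unit
  have h1 : ¬ S.R y x x := fun h => hn (r13 S h)
  by_cases h2 : S.R y y x
  · exact ⟨y, x, S.r23 _ _ _ h2, h1, h1⟩
  · exact ⟨y, y, hH y, h2, h1⟩

lemma f2a {S : NS N} {T : N → N → Prop} (hT : TS S T) {x y z w : N} (h : S.R x z w) (h1 : W T z y)
    (h2 : ¬ W T w y) : S.R x z y := by
  by_contra hn
  by_cases hy : S.R x y y
  · have h3 : T w y := hT.clos (z, y) (w, y) h1.1 (Or.inl ⟨x, h, hn, hy, rfl⟩)
    have h4 : T y w := by
      by_contra h5
      exact h2 ⟨h3, h5⟩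
    have h5 : T y z := hT.clos (y, w) (y, z) h4
      (Or.inr ⟨x, S.r23 _ _ _ h, fun h => hn (S.r23 _ _ _ h), hy, rfl⟩)
    exact h1.2 h5
  · exact h2 (hT.unit w y ⟨x, z, h, hn, hy⟩)

lemma f2 {S : NS N} {T : N → N → Prop} (hT : TS S T) {x y z w : N} (h : S.R x z w) :
    S.R x (fop T y z) (fop T y w) := by
  by_cases h1 : W T z y
  · by_cases h2 : W T w y
    · rw [fop_pos h1, fop_pos h2]; exact h
    · rw [fop_pos h1, fop_neg h2]; exact f2a hT h h1 h2
  · by_cases h2 : W T w y
    · rw [fop_neg h1, fop_pos h2]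
      exact S.r23 _ _ _ (f2a hT (S.r23 _ _ _ h) h2 h1)
    · rw [fop_neg h1, fop_neg h2]
      by_contra hn
      rcases key h hn with h3 | h3
      · exact h2 (hT.unit _ _ h3)
      · exact h1 (hT.unit _ _ h3)

lemma f2b {S : NS N} {T : N → N → Prop} (hT : TS S T) {x y z w : N} (h : S.R x z w) (h1 : W T y z)
    (h2 : ¬ W T y w) : S.R x y w := by
  by_contra hn
  by_cases hy : S.R x y y
  · have h3 : T y w := hT.clos (y, z) (y, w) h1.1 (Or.inr ⟨x, h, hn, hy, rfl⟩)
    have h4 : T w y := by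
      by_contra h5
      exact h2 ⟨h3, h5⟩
    have h5 : T z y := hT.clos (w, y) (z, y) h4
      (Or.inl ⟨x, S.r23 _ _ _ h, fun h => hn (S.r23 _ _ _ h), hy, rfl⟩)
    exact h1.2 h5
  · have h3 := hT.unit z y ⟨x, w, S.r23 _ _ _ h, fun h => hn (S.r23 _ _ _ h), hy⟩
    exact h1.2 h3.1

lemma f2' {S : NS N} {T : N → N → Prop} (hT : TS S T) {x y z w : N} (h : S.R x z w) :
    S.R x (fop T z y) (fop T w y) := by
  by_cases h1 : W T y z
  · by_cases h2 : W T y w
    · rw [fop_pos h1, fop_pos h2]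
      by_contra hn
      rcases key h hn with h3 | h3
      · exact h2.2 (hT.unit _ _ h3).1
      · exact h1.2 (hT.unit _ _ h3).1
    · rw [fop_pos h1, fop_neg h2]; exact f2b hT h h1 h2
  · by_cases h2 : W T y w
    · rw [fop_neg h1, fop_pos h2]
      exact S.r23 _ _ _ (f2b hT (S.r23 _ _ _ h) h2 h1)
    · rw [fop_neg h1, fop_neg h2]; exact h

lemma presa {S : NS N} {T : N → N → Prop} (hT : TS S T) {x a b a' b' : N} (h : S.R x a b)
    (h' : S.R x a' b') (h1 : ¬ W T a' a) (h2 : W T b' b) : S.R x a b' := by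
  have h3 := f2' hT (y := b') h
  rw [fop_pos h2] at h3
  by_cases h4 : W T b' a
  · have h5 := f2 hT (y := a) h'
    rw [fop_neg h1, fop_pos h4] at h5
    exact h5
  · rwa [fop_neg h4] at h3

end O2

open O2 in
theorem o2 : StO2 := by
  intro N _ S hH T hT
  refine ⟨fop T, ?_⟩
  constructor
  · intro a b h1 h2
    exact fop_pos ⟨h1, h2⟩
  · intro a b h
    exact fop_neg h
  · intro x y h
    exact f1 hH hT h
  · intro x y z w h
    exact f2 hT h
  · intro x y z w h
    exact O2.f2' hT h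
  · intro x a b a' b' h h'
    by_cases h1 : W T a' a
    · by_cases h2 : W T b' b
      · rw [fop_pos h1, fop_pos h2]; exact h'
      · rw [fop_pos h1, fop_neg h2]
        exact S.r23 _ _ _ (presa hT (S.r23 _ _ _ h) (S.r23 _ _ _ h') h2 h1)
    · by_cases h2 : W T b' b
      · rw [fop_neg h1, fop_pos h2]
        exact presa hT h h' h1 h2
      · rw [fop_neg h1, fop_neg h2]; exact h

end RA7
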