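import Pool.Agent.Helper74.RA7.Base

/-!
# Module O3: the operation `g` (majority on all invertible pairs)
-/

namespace RA7

open Relation

namespace O3

variable {N : Type} {S : NS N}

/-- binary polymorphisms -/
structure P2 (S : NS N) (m : N → N → N) : Prop where
  cons : ∀ a b, m a b = a ∨ m a b = b
  pres : ∀ x a b a' b', S.R x a b → S.R x a' b' → S.R x (m a a') (m b b')

/-- ternary polymorphisms -/
structure P3 (S : NS N) (g : N → N → N → N) : Prop where
  cons : ∀ a b c, g a b c = a ∨ g a b c = b ∨ g a b c = c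
  pres : ∀ x a b a' b' a'' b'', S.R x a b → S.R x a' b' → S.R x a'' b'' →
    S.R x (g a a' a'') (g b b' b'')

/-- majority on a pair -/
def Mj (g : N → N → N → N) (p q : N) : Prop :=
  g p p q = p ∧ g p q p = p ∧ g q p p = p ∧ g q q p = q ∧ g q p q = q ∧ g p q q = q

theorem inv_step {m : N → N → N} (hm : P2 S m) {a b : N × N} (h : FImp S a b)
    (ha : m a.1 a.2 = a.1 ∧ m a.2 a.1 = a.1) : m b.1 b.2 = b.1 ∧ m b.2 b.1 = b.1 := by
  obtain ⟨a1, a2⟩ := a
  obtain ⟨b1, b2⟩ := b
  simp only at ha ⊢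
  rcases h with ⟨x, h1, h2, h3, h4⟩ | ⟨x, h1, h2, h3, h4⟩
  · simp only at h1 h2 h3 h4
    subst h4
    constructor
    · rcases hm.cons b1 a2 with h5 | h5
      · exact h5
      · have h6 := hm.pres x a1 b1 a2 a2 h1 h3
        rw [ha.1, h5] at h6
        exact absurd h6 h2
    · rcases hm.cons a2 b1 with h5 | h5
      · have h6 := hm.pres x a2 a2 a1 b1 h3 h1
        rw [ha.2, h5] at h6
        exact absurd h6 h2
      · exact h5
  · simp only at h1 h2 h3 h4
    subst h4
    constructor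
    · rcases hm.cons a1 b2 with h5 | h5
      · exact h5
      · have h6 := hm.pres x a1 a1 a2 b2 h3 h1
        rw [ha.1, h5] at h6
        exact absurd h6 h2
    · rcases hm.cons b2 a1 with h5 | h5
      · have h6 := hm.pres x a2 b2 a1 a1 h1 h3
        rw [ha.2, h5] at h6
        exact absurd h6 h2
      · exact h5

theorem inv_walk {m : N → N → N} (hm : P2 S m) {a b : N × N} (h : ReflTransGen (FImp S) a b)
    (ha : m a.1 a.2 = a.1 ∧ m a.2 a.1 = a.1) : m b.1 b.2 = b.1 ∧ m b.2 b.1 = b.1 := by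
  induction h with
  | refl => exact ha
  | tail _ hs ih => exact inv_step hm hs ih

/-- binary polymorphisms are not commutative on invertible pairs -/
theorem noncomm {m : N → N → N} (hm : P2 S m) {p q : N} (h : NInv S p q) : m p q ≠ m q p := by
  intro hc
  rcases hm.cons p q with h1 | h1
  · have h2 := inv_walk hm h.2.1 (a := (p, q)) ⟨h1, hc ▸ h1⟩
    simp only at h2
    exact h.1 (h1.symm.trans h2.2)
  · have h2 := inv_walk hm h.2.2 (a := (q, p)) ⟨hc ▸ h1, h1⟩
    simp only at h2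
    exact h.1 (h2.1.symm.trans h1)

theorem types {m : N → N → N} (hm : P2 S m) {p q : N} (h : NInv S p q) :
    (m p q = p ∧ m q p = q) ∨ (m p q = q ∧ m q p = p) := by
  have h0 := noncomm hm h
  rcases hm.cons p q with h1 | h1 <;> rcases hm.cons q p with h2 | h2
  · exact Or.inl ⟨h1, h2⟩
  · exact absurd (h1.trans h2.symm) h0
  · exact absurd (h1.trans h2.symm) h0
  · exact Or.inr ⟨h1, h2⟩

theorem cons_eq {m : N → N → N} (hm : P2 S m) (a : N) : m a a = a := by
  rcases hm.cons a a with h | h <;> exact h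

theorem comb {q : N → N → N} {g h : N → N → N → N} (hq : P2 S q) (hg : P3 S g) (hh : P3 S h)
    {B : Finset (N × N)} (hB : ∀ e ∈ B, Mj g e.1 e.2)
    (hqB : ∀ e ∈ B, q e.1 e.2 = e.2 ∧ q e.2 e.1 = e.1) {a b : N} (hab : Mj h a b)
    (hqa : q a b = a ∧ q b a = b) :
    ∃ g', P3 S g' ∧ (∀ e ∈ B, Mj g' e.1 e.2) ∧ Mj g' a b := by
  refine ⟨fun x y z => q (h x y z) (g x y z), ⟨?_, ?_⟩, ?_, ?_⟩
  · intro x y z
    rcases hq.cons (h x y z) (g x y z) with h1 | h1
    · rw [h1]; exact hh.cons x y z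
    · rw [h1]; exact hg.cons x y z
  · intro x a b a' b' a'' b'' h1 h2 h3
    exact hq.pres _ _ _ _ _ (hh.pres _ _ _ _ _ _ _ h1 h2 h3) (hg.pres _ _ _ _ _ _ _ h1 h2 h3)
  · intro e he
    obtain ⟨m1, m2, m3, m4, m5, m6⟩ := hB e he
    obtain ⟨q1, q2⟩ := hqB e he
    have k1 : ∀ u, u = e.1 ∨ u = e.2 → q u e.1 = e.1 := by
      rintro u (rfl | rfl)
      · exact cons_eq hq _
      · exact q2
    have k2 : ∀ u, u = e.1 ∨ u = e.2 → q u e.2 = e.2 := by
      rintro u (rfl | rfl)
      · exact q1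
      · exact cons_eq hq _
    unfold Mj
    simp only [m1, m2, m3, m4, m5, m6]
    refine ⟨k1 _ ?_, k1 _ ?_, k1 _ ?_, k2 _ ?_, k2 _ ?_, k2 _ ?_⟩
    · have := hh.cons e.1 e.1 e.2; tauto
    · have := hh.cons e.1 e.2 e.1; tauto
    · have := hh.cons e.2 e.1 e.1; tauto
    · have := hh.cons e.2 e.2 e.1; tauto
    · have := hh.cons e.2 e.1 e.2; tauto
    · have := hh.cons e.1 e.2 e.2; tauto
  · obtain ⟨m1, m2, m3, m4, m5, m6⟩ := hab
    obtain ⟨q1, q2⟩ := hqa
    have k1 : ∀ u, u = a ∨ u = b → q a u = a := by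
      rintro u (rfl | rfl)
      · exact cons_eq hq _
      · exact q1
    have k2 : ∀ u, u = a ∨ u = b → q b u = b := by
      rintro u (rfl | rfl)
      · exact q2
      · exact cons_eq hq _
    unfold Mj
    simp only [m1, m2, m3, m4, m5, m6]
    refine ⟨k1 _ ?_, k1 _ ?_, k1 _ ?_, k2 _ ?_, k2 _ ?_, k2 _ ?_⟩
    · have := hg.cons a a b; tauto
    · have := hg.cons a b a; tauto
    · have := hg.cons b a a; tauto
    · have := hg.cons b b a; tauto
    · have := hg.cons b a b; tauto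
    · have := hg.cons a b b; tauto

theorem step {g h : N → N → N → N} (hg : P3 S g) (hh : P3 S h) {B : Finset (N × N)}
    (hB : ∀ e ∈ B, Mj g e.1 e.2) {a b : N} (hi : NInv S a b) (hab : Mj h a b) :
    ∃ g', P3 S g' ∧ (∀ e ∈ B, Mj g' e.1 e.2) ∧ Mj g' a b := by
  -- the three minors
  have p1 : P2 S (fun x y => g x x y) := by
    refine ⟨fun x y => ?_, fun x a b a' b' h1 h2 => hg.pres _ _ _ _ _ _ _ h1 h1 h2⟩
    have := hg.cons x x y; tauto
  have p2 : P2 S (fun x y => g x y x) := by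
    refine ⟨fun x y => ?_, fun x a b a' b' h1 h2 => hg.pres _ _ _ _ _ _ _ h1 h2 h1⟩
    have := hg.cons x y x; tauto
  have p3 : P2 S (fun x y => g y x x) := by
    refine ⟨fun x y => ?_, fun x a b a' b' h1 h2 => hg.pres _ _ _ _ _ _ _ h2 h1 h1⟩
    have := hg.cons y x x; tauto
  have q1 : P2 S (fun x y => g y y x) := by
    refine ⟨fun x y => ?_, fun x a b a' b' h1 h2 => hg.pres _ _ _ _ _ _ _ h2 h2 h1⟩
    have := hg.cons y y x; tauto
  have q2 : P2 S (fun x y => g y x y) := by
    refine ⟨fun x y => ?_, fun x a b a' b' h1 h2 => hg.pres _ _ _ _ _ _ _ h2 h1 h2⟩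
    have := hg.cons y x y; tauto
  have q3 : P2 S (fun x y => g x y y) := by
    refine ⟨fun x y => ?_, fun x a b a' b' h1 h2 => hg.pres _ _ _ _ _ _ _ h1 h2 h2⟩
    have := hg.cons x y y; tauto
  rcases types p1 hi with t1 | t1
  · rcases types p2 hi with t2 | t2
    · rcases types p3 hi with t3 | t3
      · exact ⟨g, hg, hB, t1.1, t2.1, t3.1, t1.2, t2.2, t3.2⟩
      · exact comb q3 hg hh hB (fun e he => ⟨(hB e he).2.2.2.2.2, (hB e he).2.2.1⟩) hab ⟨t3.2, t3.1⟩
    · exact comb q2 hg hh hB (fun e he => ⟨(hB e he).2.2.2.2.1, (hB e he).2.1⟩) hab ⟨t2.2, t2.1⟩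
  · exact comb q1 hg hh hB (fun e he => ⟨(hB e he).2.2.2.1, (hB e he).1⟩) hab ⟨t1.2, t1.1⟩

theorem all (h4 : H4 S) (B : Finset (N × N)) (hB : ∀ e ∈ B, NInv S e.1 e.2) :
    ∃ g, P3 S g ∧ ∀ e ∈ B, Mj g e.1 e.2 := by
  classical
  induction B using Finset.induction_on with
  | empty =>
    exact ⟨fun x _ _ => x, ⟨fun _ _ _ => Or.inl rfl, fun _ _ _ _ _ _ _ h _ _ => h⟩, by simp⟩
  | insert e B _ ih =>
    obtain ⟨g, hg, hgB⟩ := ih (fun e he => hB e (Finset.mem_insert_of_mem he))
    obtain ⟨a, b⟩ := e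
    have hi : NInv S a b := hB (a, b) (Finset.mem_insert_self _ _)
    have hh : ∃ h, P3 S h ∧ Mj h a b := by
      rcases h4 a b hi.1 with ⟨m, hm, hc⟩ | ⟨m, hm, e1, e2, e3, e4, e5, e6⟩
      · exfalso
        have p2 : P2 S (fun x y => m ![x, y]) := by
          constructor
          · intro x y
            obtain ⟨i, hi⟩ := hm.cons ![x, y]
            fin_cases i
            · exact Or.inl hi
            · exact Or.inr hi
          · intro x a b a' b' h1 h2
            refine hm.pres x _ _ fun i => ?_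
            fin_cases i
            · exact h1
            · exact h2
        exact noncomm p2 hi hc
      · refine ⟨fun x y z => m ![x, y, z], ⟨?_, ?_⟩, e1, e2, e3, e4, e5, e6⟩
        · intro x y z
          obtain ⟨i, hi⟩ := hm.cons ![x, y, z]
          fin_cases i
          · exact Or.inl hi
          · exact Or.inr (Or.inl hi)
          · exact Or.inr (Or.inr hi)
        · intro x a b a' b' a'' b'' h1 h2 h3
          refine hm.pres x _ _ fun i => ?_
          fin_cases i
          · exact h1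
          · exact h2
          · exact h3
    obtain ⟨h, hh, hab⟩ := hh
    obtain ⟨g', h1, h2, h3⟩ := step hg hh hgB hi hab
    refine ⟨g', h1, fun e he => ?_⟩
    rcases Finset.mem_insert.1 he with rfl | he
    · exact h3
    · exact h2 e he

end O3

theorem o3 : StO3 := by
  classical
  intro N _ S h4
  have := Fintype.ofFinite N
  obtain ⟨g, hg, hB⟩ := O3.all h4 (Finset.univ.filter (fun e : N × N => NInv S e.1 e.2))
    (fun e he => (Finset.mem_filter.1 he).2)
  refine ⟨g, hg.cons, hg.pres, fun p q hpq => ?_⟩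
  have h1 := hB (p, q) (Finset.mem_filter.2 ⟨Finset.mem_univ _, hpq⟩)
  exact ⟨h1.1, h1.2.1, h1.2.2.1⟩

end RA7
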