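import Pool.Agent.Helper74.RA7.Base

/-! Project RA7, module O4: `g` can be normalised. -/

namespace RA7

open Relation

namespace O4

variable {N : Type}

lemma walk {S : NS N} {T : N → N → Prop} (hT : TS S T) {a b : N × N}
    (h : ReflTransGen (FImp S) a b) (ha : T a.1 a.2) : T b.1 b.2 := by
  induction h with
  | refl => exact ha
  | tail _ h2 ih => exact hT.clos _ _ ih h2

lemma ninv {S : NS N} {T : N → N → Prop} (hT : TS S T) {p q : N} (h : NInv S p q) :
    T p q ∧ T q p := by
  obtain ⟨hne, h1, h2⟩ := h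
  rcases hT.tot p q hne with h3 | h3
  · exact ⟨h3, walk hT h1 h3⟩
  · exact ⟨walk hT h2 h3, h3⟩

lemma fcons {S : NS N} {T : N → N → Prop} {f : N → N → N} (hf : FOp S T f) (a b : N) :
    f a b = a ∨ f a b = b := by
  by_cases h : T b a ∧ ¬ T a b
  · exact Or.inr (hf.fb a b h.1 h.2)
  · exact Or.inl (hf.fa a b h)

lemma fself {S : NS N} {T : N → N → Prop} {f : N → N → N} (hf : FOp S T f) (a : N) :
    f a a = a := by
  rcases fcons hf a a with h | h <;> exact h

end O4

open O4 in
theorem o4 : StO4 := by
  intro N _ S T hT f hf g hg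
  have hff : ∀ a b c, f (f a b) c = a ∨ f (f a b) c = b ∨ f (f a b) c = c := by
    intro a b c
    rcases fcons hf (f a b) c with h | h
    · rcases fcons hf a b with h' | h'
      · left; rw [h, h']
      · right; left; rw [h, h']
    · right; right; exact h
  refine ⟨fun x y z => g (f (f x y) z) (f (f y z) x) (f (f z x) y), ⟨?_, ?_, ?_⟩, ?_⟩
  · intro a b c
    rcases hg.cons (f (f a b) c) (f (f b c) a) (f (f c a) b) with h | h | h
    · simp only [h]; exact hff a b c
    · simp only [h]
      rcases hff b c a with h' | h' | h' <;> simp [h']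
    · simp only [h]
      rcases hff c a b with h' | h' | h' <;> simp [h']
  · intro x a b a' b' a'' b'' h h' h''
    exact hg.pres x _ _ _ _ _ _ (hf.pres x _ _ _ _ (hf.pres x _ _ _ _ h h') h'')
      (hf.pres x _ _ _ _ (hf.pres x _ _ _ _ h' h'') h)
      (hf.pres x _ _ _ _ (hf.pres x _ _ _ _ h'' h) h')
  · intro p q hpq
    obtain ⟨h1, h2⟩ := ninv hT hpq
    have e1 : f p q = p := hf.fa p q fun h => h.2 h1
    have e2 : f q p = q := hf.fa q p fun h => h.2 h2
    have e3 := fself hf p
    have e4 := fself hf q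
    obtain ⟨m1, m2, m3⟩ := hg.maj p q hpq
    refine ⟨?_, ?_, ?_⟩
    · simp only [e1, e2, e3, m1]
    · simp only [e1, e2, e3, m2]
    · simp only [e1, e2, e3, m3]
  · intro a b h1 h2
    have e1 : f a b = b := hf.fb a b h1 h2
    have e2 : f b a = b := hf.fa b a fun h => h2 h.1
    have e3 := fself hf a
    have e4 := fself hf b
    have e5 : g b b b = b := by
      rcases hg.cons b b b with h | h | h <;> exact h
    refine ⟨?_, ?_, ?_⟩
    · simp only [e1, e2, e3, e5]
    · simp only [e1, e2, e3, e5]
    · simp only [e1, e2, e3, e5]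

end RA7
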