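import Pool.Agent.Helper74.RA7.Base

/-!
# RA7, module O5: witnesses of steps between invertible pairs lie below all three elements
-/

namespace RA7

open Relation

namespace O5

variable {N : Type} {S : NS N} {T : N → N → Prop}

theorem ninv_T (hT : TS S T) {p q : N} (h : NInv S p q) : T p q ∧ T q p := by
  obtain ⟨hne, h1, h2⟩ := h
  have key : ∀ a b : N × N, T a.1 a.2 → ReflTransGen (FImp S) a b → T b.1 b.2 := by
    intro a b ha hab
    induction hab with
    | refl => exact ha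
    | tail _ hs ih => exact hT.clos _ _ ih hs
  rcases hT.tot p q hne with h | h
  · exact ⟨h, key (p, q) (q, p) h h1⟩
  · exact ⟨key (q, p) (p, q) h h2, h⟩

theorem ninv_symm {p q : N} (h : NInv S p q) : NInv S q p := ⟨h.1.symm, h.2.2, h.2.1⟩

theorem tri (hT : TS S T) {p q : N} (h : p ≠ q) :
    (T p q ∧ ¬ T q p) ∨ (T q p ∧ ¬ T p q) ∨ NInv S p q := by
  by_cases h1 : T p q
  · by_cases h2 : T q p
    · exact Or.inr (Or.inr (hT.bi p q h1 h2))
    · exact Or.inl ⟨h1, h2⟩
  · rcases hT.tot p q h with h2 | h2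
    · exact absurd h2 h1
    · exact Or.inr (Or.inl ⟨h2, h1⟩)

theorem ninv_f (hT : TS S T) {f : N → N → N} (hf : FOp S T f) {p q : N} (h : NInv S p q) :
    f p q = p := hf.fa p q (fun h' => h'.2 (ninv_T hT h).1)

theorem ninv_R (hT : TS S T) {f : N → N → N} (hf : FOp S T f) {p q : N} (h : NInv S p q) :
    S.R p p q := hf.f1 p q (fun h' => h'.2 (ninv_T hT h).1)

theorem triple (hT : TS S T) {f : N → N → N} (hf : FOp S T f) {g : N → N → N → N} (hg : GOp S g)
    {u v w : N} (huv : NInv S u v) (huw : NInv S u w) (hvw : NInv S v w) : S.R u v w := by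
  have a1 : S.R u u v := ninv_R hT hf huv
  have a2 : S.R u u w := ninv_R hT hf huw
  have a3 : S.R v v u := ninv_R hT hf (ninv_symm huv)
  have a4 : S.R v v w := ninv_R hT hf hvw
  have a5 : S.R w w u := ninv_R hT hf (ninv_symm huw)
  have a6 : S.R w w v := ninv_R hT hf (ninv_symm hvw)
  rcases hg.cons u v w with h | h | h
  · have h1 := hg.pres v v u w v w w a3 (S.r23 _ _ _ a4) (S.r12 _ _ _ (S.r23 _ _ _ a6))
    rw [(hg.maj w v (ninv_symm hvw)).2.2, h] at h1
    exact S.r12 _ _ _ (S.r23 _ _ _ h1)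
  · have h1 := hg.pres u w u u v w w (S.r23 _ _ _ a2) a1 (S.r12 _ _ _ (S.r23 _ _ _ a5))
    rw [(hg.maj w u (ninv_symm huw)).2.1, h] at h1
    exact S.r23 _ _ _ h1
  · have h1 := hg.pres u v u v v u w (S.r23 _ _ _ a1) (S.r12 _ _ _ (S.r23 _ _ _ a3)) a2
    rw [(hg.maj v u (ninv_symm huv)).1, h] at h1
    exact h1

end O5

open O5 in
theorem o5 : StO4 → StO5 := by
  intro h4 N _ S T hT f hf g0 hg0 x z w y hR hn hzy hwy
  obtain ⟨g, hg, hgn⟩ := h4 N S T hT f hf g0 hg0
  have hyz := ninv_symm hzy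
  have hyw := ninv_symm hwy
  -- (0)
  have h0 : S.R x y y := by
    have h := hf.f2 x y z w hR
    rwa [ninv_f hT hf hyz, ninv_f hT hf hyw] at h
  -- (1)
  have hxy : x ≠ y := by
    intro h
    apply hn
    rw [h]
    exact S.r23 _ _ _ (ninv_R hT hf hyz)
  have hxz : x ≠ z := by
    intro h
    apply hn
    rw [h]
    exact ninv_R hT hf hzy
  have hWy : T y x ∧ ¬ T x y := by
    rcases tri hT hxy with h | h | h
    · exfalso
      have h' := hf.f2 z y x w (S.r12 _ _ _ hR)
      rw [hf.fb y x h.1 h.2, ninv_f hT hf hyw] at h'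
      exact hn (S.r12 _ _ _ h')
    · exact h
    · exfalso
      have hyx := ninv_symm h
      rcases tri hT hxz with h' | h' | h'
      · have h2 := hf.f2' z x y z (S.r23 _ _ _ (ninv_R hT hf hzy))
        rw [ninv_f hT hf hyx, hf.fb z x h'.1 h'.2] at h2
        exact hn (S.r12 _ _ _ (S.r23 _ _ _ h2))
      · have e1 : S.R y x x := S.r12 _ _ _ (S.r23 _ _ _ (ninv_R hT hf h))
        have e2 : S.R y y z := ninv_R hT hf hyz
        have h2 := hg.pres y x x x x y z e1 e1 e2
        rw [(hg.maj x y h).1, (hgn x z h'.1 h'.2).1] at h2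
        exact hn (S.r23 _ _ _ (S.r12 _ _ _ h2))
      · exact hn (triple hT hf hg h' h hzy)
  -- P1
  have hP1 : ¬ S.R x x z := by
    intro h
    have h' := hf.f2' x y x z h
    rw [hf.fb x y hWy.1 hWy.2, ninv_f hT hf hzy] at h'
    exact hn (S.r23 _ _ _ h')
  have hWz : T z x ∧ ¬ T x z := by
    by_contra h
    exact hP1 (hf.f1 x z h)
  have hWw : T w x ∧ ¬ T x w := by
    by_contra h
    have e1 : f x w = x := hf.fa x w h
    have e2 : f x x = x := hf.fa x x (fun h' => hT.irr x h'.1)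
    have h' := hf.f2 z x x w (S.r12 _ _ _ hR)
    rw [e1, e2] at h'
    exact hP1 (S.r23 _ _ _ (S.r12 _ _ _ h'))
  exact ⟨hWz, hWw, hWy⟩

end RA7
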