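import Pool.Agent.Helper74.RA7.Base

/-!
# Project RA7 (MP_65b7ad_lc): module O6 (Lemma D, local part)
-/

namespace RA7

open Relation

private theorem O6_walk {N : Type} {S : NS N} {T : N → N → Prop} (hT : TS S T) {a b : N × N}
    (h : ReflTransGen (FImp S) a b) (ha : T a.1 a.2) : T b.1 b.2 := by
  induction h with
  | refl => exact ha
  | tail _ hs ih => exact hT.clos _ _ ih hs

private theorem O6_both {N : Type} {S : NS N} {T : N → N → Prop} (hT : TS S T) {p q : N}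
    (h : NInv S p q) : T p q ∧ T q p := by
  obtain ⟨hne, h1, h2⟩ := h
  rcases hT.tot p q hne with h0 | h0
  · exact ⟨h0, O6_walk hT h1 h0⟩
  · exact ⟨O6_walk hT h2 h0, h0⟩

theorem o6 : StO5 → StO6 := by
  intro h5 N _ S T hT f hf g hg x z w y r hzw hzy hI hJ hK
  obtain ⟨⟨zx, xz⟩, -, ⟨yx, xy⟩⟩ := h5 N S T hT f hf g hg x z w y hzw hzy hI hJ
  obtain ⟨xr, rx⟩ := O6_both hT hK
  obtain ⟨Tzy, Tyz⟩ := O6_both hT hI
  have fxr : f x r = x := hf.fa x r (fun h => h.2 xr)
  have frx : f r x = r := hf.fa r x (fun h => h.2 rx)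
  have fxy : f x y = y := hf.fb x y yx xy
  have fxz : f x z = z := hf.fb x z zx xz
  have fzy : f z y = z := hf.fa z y (fun h => h.2 Tzy)
  -- first part
  have h1 : ¬ S.R r z y := by
    intro h
    have e := hf.f2 z x r y (S.r12 _ _ _ h)
    rw [fxr, fxy] at e
    exact hzy (S.r12 _ _ _ e)
  -- `f r z = z`
  have h2 : f r z = z := by
    by_cases hW : T z r ∧ ¬ T r z
    · exact hf.fb r z hW.1 hW.2
    · exfalso
      have frz : f r z = r := hf.fa r z hW
      have e1 : S.R x x r := hf.f1 x r (fun h => h.2 xr)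
      have e2 := hf.f2' x z x r e1
      rw [fxz, frz] at e2
      have e3 : S.R r x z := S.r12 _ _ _ (S.r23 _ _ _ e2)
      have e4 := hf.f2' r y x z e3
      rw [fxy, fzy] at e4
      exact h1 (S.r23 _ _ _ e4)
  refine ⟨?_, h1⟩
  have e5 : S.R w x z := S.r23 _ _ _ (S.r12 _ _ _ (S.r23 _ _ _ (S.r12 _ _ _ hzw)))
  have e6 := hf.f2 w r x z e5
  rw [frx, h2] at e6
  exact S.r23 _ _ _ (S.r12 _ _ _ e6)

end RA7
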