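import Pool.Agent.Helper74.RA7.Base

set_option autoImplicit false

/-!
# Project RA7, module O7: no invertible pairs at the N level
-/

namespace RA7

open Relation

namespace O7

variable {N : Type} (S : NS N) (p0 q0 : N)

/-- the strong component of `(p0, q0)` -/
def C (l : N × N) : Prop :=
  ReflTransGen (FImp S) (p0, q0) l ∧ ReflTransGen (FImp S) l (p0, q0)

/-- the elements of pairs of the component -/
def DD (a : N) : Prop := ∃ b, C S p0 q0 (a, b)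

/-- the witnesses of steps inside the component -/
def XX (x : N) : Prop :=
  ∃ z w y, C S p0 q0 (z, y) ∧ C S p0 q0 (w, y) ∧ S.R x z w ∧ ¬ S.R x z y

variable {S p0 q0}

theorem fimp_swap {a b : N × N} (h : FImp S a b) : FImp S b.swap a.swap := by
  obtain ⟨a1, a2⟩ := a
  obtain ⟨b1, b2⟩ := b
  rcases h with ⟨x, h1, h2, h3, h4⟩ | ⟨x, h1, h2, h3, h4⟩
  · obtain rfl : a2 = b2 := h4
    exact Or.inr ⟨x, S.r23 _ _ _ h1, fun h => h2 (S.r23 _ _ _ h), h3, rfl⟩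
  · obtain rfl : a1 = b1 := h4
    exact Or.inl ⟨x, S.r23 _ _ _ h1, fun h => h2 (S.r23 _ _ _ h), h3, rfl⟩

theorem rt_swap {a b : N × N} (h : ReflTransGen (FImp S) a b) :
    ReflTransGen (FImp S) b.swap a.swap := by
  induction h with
  | refl => exact ReflTransGen.refl
  | tail _ h2 ih => exact ReflTransGen.head (fimp_swap h2) ih

theorem nd {a b : N × N} (h : FImp S a b) : a.1 ≠ a.2 → b.1 ≠ b.2 := by
  obtain ⟨a1, a2⟩ := a
  obtain ⟨b1, b2⟩ := b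
  rcases h with ⟨x, h1, h2, _, h4⟩ | ⟨x, _, h2, h3, h4⟩
  · obtain rfl : a2 = b2 := h4
    intro _ h5
    obtain rfl : b1 = a2 := h5
    exact h2 h1
  · obtain rfl : a1 = b1 := h4
    intro _ h5
    obtain rfl : a1 = b2 := h5
    exact h2 h3

theorem rt_nd {a b : N × N} (h : ReflTransGen (FImp S) a b) (ha : a.1 ≠ a.2) : b.1 ≠ b.2 := by
  induction h with
  | refl => exact ha
  | tail _ h2 ih => exact nd h2 ih

theorem C_swap (h0 : NInv S p0 q0) {l : N × N} (h : C S p0 q0 l) : C S p0 q0 l.swap := by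
  obtain ⟨_, h01, h02⟩ := h0
  exact ⟨h01.trans (rt_swap h.2), (rt_swap h.1).trans h02⟩

theorem C_ninv (h0 : NInv S p0 q0) {p q : N} (h : C S p0 q0 (p, q)) : NInv S p q := by
  have h1 : C S p0 q0 (q, p) := C_swap h0 h
  exact ⟨rt_nd h.1 h0.1, h.2.trans h1.1, h1.2.trans h.1⟩

theorem C_ind (P : N × N → Prop) {l0 : N × N} (hl0 : C S p0 q0 l0) (h : P l0)
    (step : ∀ a b, C S p0 q0 a → C S p0 q0 b → FImp S a b → P a → P b) :
    ∀ l, C S p0 q0 l → P l := by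
  intro l hl
  have key : ∀ b, ReflTransGen (FImp S) l0 b → ReflTransGen (FImp S) b (p0, q0) →
      C S p0 q0 b ∧ P b := by
    intro b hb
    induction hb with
    | refl => exact fun _ => ⟨hl0, h⟩
    | tail _ h2 ih =>
      intro h3
      obtain ⟨h4, h5⟩ := ih (ReflTransGen.head h2 h3)
      exact ⟨⟨h4.1.tail h2, h3⟩, step _ _ h4 ⟨h4.1.tail h2, h3⟩ h2 h5⟩
  exact (key l (hl0.2.trans hl.1) hl.2).2

theorem rt_T {T : N → N → Prop} (hT : TS S T) {a b : N × N} (h : ReflTransGen (FImp S) a b)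
    (ha : T a.1 a.2) : T b.1 b.2 := by
  induction h with
  | refl => exact ha
  | tail _ h2 ih => exact hT.clos _ _ ih h2

theorem ninv_T {T : N → N → Prop} (hT : TS S T) {p q : N} (h : NInv S p q) : T p q ∧ T q p := by
  obtain ⟨h1, h2, h3⟩ := h
  rcases hT.tot p q h1 with h4 | h4
  · exact ⟨h4, rt_T hT h2 h4⟩
  · exact ⟨rt_T hT h3 h4, h4⟩

theorem ninv_symm {p q : N} (h : NInv S p q) : NInv S q p := ⟨h.1.symm, h.2.2, h.2.1⟩

/-- the relation (2) along a step -/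
theorem step2 (h0 : NInv S p0 q0) {T : N → N → Prop} (hT : TS S T) (x : N) (a b : N × N)
    (ha : C S p0 q0 a) (hb : C S p0 q0 b) (h : FImp S a b) (hP : T a.1 x ∨ T x a.2) :
    T b.1 x ∨ T x b.2 := by
  obtain ⟨p, q⟩ := a
  obtain ⟨p', q'⟩ := b
  have hpq := (ninv_T hT (C_ninv h0 ha)).1
  have hpq' := (ninv_T hT (C_ninv h0 hb)).1
  rcases h with ⟨x1, h1, h2, h3, h4⟩ | ⟨x1, h1, h2, h3, h4⟩
  · obtain rfl : q = q' := h4
    simp only at h1 h2 h3 hP ⊢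
    rcases hP with hP | hP
    · by_cases hx : S.R x1 p x
      · right
        exact hT.clos (p, q) (x, q) hpq (Or.inl ⟨x1, hx, h2, h3, rfl⟩)
      · left
        by_cases hxx : S.R x1 x x
        · exact hT.clos (p, x) (p', x) hP (Or.inl ⟨x1, h1, hx, hxx, rfl⟩)
        · exact (hT.unit p' x ⟨x1, p, h1, hx, hxx⟩).1
    · exact Or.inr hP
  · obtain rfl : p = p' := h4
    simp only at h1 h2 h3 hP ⊢
    rcases hP with hP | hP
    · exact Or.inl hP
    · by_cases hx : S.R x1 x q'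
      · by_cases hpx : S.R x1 p x
        · right
          by_cases hqq : S.R x1 q' q'
          · exact hT.clos (p, q') (x, q') hpq' (Or.inl ⟨x1, hpx, h2, hqq, rfl⟩)
          · exact (hT.unit x q' ⟨x1, p, hpx, h2, hqq⟩).1
        · left
          exact hT.clos (p, q') (p, x) hpq' (Or.inr ⟨x1, S.r23 _ _ _ hx, hpx, h3, rfl⟩)
      · by_cases hxx : S.R x1 x x
        · right
          exact hT.clos (x, q) (x, q') hP (Or.inr ⟨x1, h1, hx, hxx, rfl⟩)
        · exfalso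
          exact (hT.unit q x ⟨x1, q', S.r23 _ _ _ h1, fun h => hx (S.r23 _ _ _ h), hxx⟩).2 hP

/-- (1)-(3): every element of the component wins strictly against every witness -/
theorem strict (hO5 : StO5) (hO6 : StO6) [Finite N] (h0 : NInv S p0 q0) {T : N → N → Prop}
    (hT : TS S T) {f : N → N → N} (hf : FOp S T f) {g : N → N → N → N} (hg : GOp S g) {x : N}
    (hx : XX S p0 q0 x) : ∀ l, C S p0 q0 l → (T l.1 x ∧ ¬ T x l.1) ∧ (T l.2 x ∧ ¬ T x l.2) := by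
  obtain ⟨z, w, y, hzy, hwy, hR, hnR⟩ := hx
  have nzy := C_ninv h0 hzy
  have nwy := C_ninv h0 hwy
  obtain ⟨hWz, _, hWy⟩ := hO5 N S T hT f hf g hg x z w y hR hnR nzy nwy
  -- (1)
  have hU : ∀ r r', S.R r z w ∧ ¬ S.R r z y → NInv S r r' → S.R r' z w ∧ ¬ S.R r' z y :=
    fun r r' h1 h2 => hO6 N S T hT f hf g hg r z w y r' h1.1 h1.2 nzy nwy h2
  have hzU : ¬ (S.R z z w ∧ ¬ S.R z z y) := by
    rintro ⟨_, h⟩
    apply h
    apply hf.f1
    rintro ⟨_, h2⟩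
    exact h2 (ninv_T hT nzy).1
  have h1 : ∀ l, C S p0 q0 l →
      ¬ (S.R l.1 z w ∧ ¬ S.R l.1 z y) ∧ ¬ (S.R l.2 z w ∧ ¬ S.R l.2 z y) := by
    refine C_ind (fun l => ¬ (S.R l.1 z w ∧ ¬ S.R l.1 z y) ∧ ¬ (S.R l.2 z w ∧ ¬ S.R l.2 z y))
      hzy ?_ ?_
    · exact ⟨hzU, fun h => hzU (hU _ _ h (ninv_symm nzy))⟩
    · rintro ⟨p, q⟩ ⟨p', q'⟩ _ hb hstep ⟨hp, hq⟩
      have hn := C_ninv h0 hb
      rcases hstep with ⟨_, _, _, _, h4⟩ | ⟨_, _, _, _, h4⟩
      · obtain rfl : q = q' := h4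
        exact ⟨fun h => hq (hU _ _ h hn), hq⟩
      · obtain rfl : p = p' := h4
        exact ⟨hp, fun h => hp (hU _ _ h (ninv_symm hn))⟩
  have hxU : S.R x z w ∧ ¬ S.R x z y := ⟨hR, hnR⟩
  -- (2)
  have h2 : ∀ l, C S p0 q0 l → T l.1 x ∨ T x l.2 :=
    C_ind (fun l => T l.1 x ∨ T x l.2) hzy (Or.inl hWz.1)
      (fun a b ha hb hs hP => step2 h0 hT x a b ha hb hs hP)
  -- (3)
  have h3 : ∀ p q, C S p0 q0 (p, q) → (T p x ∧ ¬ T x p) → (T q x ∧ ¬ T x q) := by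
    intro p q hpq hW
    have hqp : C S p0 q0 (q, p) := C_swap h0 hpq
    have h4 : T q x := (h2 _ hqp).resolve_right hW.2
    refine ⟨h4, fun h5 => ?_⟩
    have h6 := hT.bi x q h5 h4
    exact (h1 _ hqp).1 (hU x q hxU h6)
  refine C_ind (fun l => (T l.1 x ∧ ¬ T x l.1) ∧ (T l.2 x ∧ ¬ T x l.2)) hzy ⟨hWz, hWy⟩ ?_
  rintro ⟨p, q⟩ ⟨p', q'⟩ _ hb hstep ⟨hp, hq⟩
  rcases hstep with ⟨_, _, _, _, h4⟩ | ⟨_, _, _, _, h4⟩
  · obtain rfl : q = q' := h4
    exact ⟨h3 q p' (C_swap h0 hb) hq, hq⟩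
  · obtain rfl : p = p' := h4
    exact ⟨hp, h3 p q' hb hp⟩

open Classical in
/-- the function of Theorem A -/
noncomputable def del (S : NS N) (p0 q0 : N) [Finite N] (a b : {a // DD S p0 q0 a}) : ℕ :=
  {x | XX S p0 q0 x ∧ ¬ S.R x a.1 b.1}.ncard

end O7

open O7 in
theorem o7 : StO5 → StO6 → StA → StO7 := by
  intro hO5 hO6 hA N _ S T hT f hf g hg ⟨p0, q0, h0⟩
  have hst := fun x (hx : XX S p0 q0 x) => strict hO5 hO6 h0 hT hf hg hx
  have hW : ∀ x a, XX S p0 q0 x → DD S p0 q0 a → T a x ∧ ¬ T x a := by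
    rintro x a hx ⟨b, hb⟩
    exact (hst x hx _ hb).1
  have hCD : ∀ p q, C S p0 q0 (p, q) → DD S p0 q0 p ∧ DD S p0 q0 q := fun p q h =>
    ⟨⟨q, h⟩, ⟨p, C_swap h0 h⟩⟩
  -- `R x a a`
  have hRaa : ∀ x a, XX S p0 q0 x → DD S p0 q0 a → S.R x a a := by
    intro x a hx ha
    have h1 := hW x a hx ha
    have h2 : S.R a a x := by
      apply hf.f1
      rintro ⟨h3, _⟩
      exact h1.2 h3
    exact S.r12 _ _ _ (S.r23 _ _ _ h2)
  -- (4)
  have hsub : ∀ x x', XX S p0 q0 x' → f x' x = x' → ∀ a b, DD S p0 q0 b → S.R x a b →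
      S.R x' a b := by
    intro x x' hx' hfx a b hb hR
    have h1 := hf.f2 a x' x b (S.r12 _ _ _ hR)
    have h2 := hW x' b hx' hb
    rw [hfx, hf.fb x' b h2.1 h2.2] at h1
    exact S.r12 _ _ _ h1
  have hnest : ∀ x x', XX S p0 q0 x → XX S p0 q0 x' →
      (∀ a b, DD S p0 q0 b → S.R x a b → S.R x' a b) ∨
      (∀ a b, DD S p0 q0 b → S.R x' a b → S.R x a b) := by
    intro x x' hx hx'
    by_cases h : T x x' ∧ ¬ T x' x
    · right
      apply hsub x' x hx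
      apply hf.fa
      rintro ⟨h1, _⟩
      exact h.2 h1
    · left
      apply hsub x x' hx'
      exact hf.fa _ _ h
  -- (5)
  have hlt : ∀ a b c d : {a // DD S p0 q0 a},
      del S p0 q0 a b < del S p0 q0 c d ↔
        ∃ x, XX S p0 q0 x ∧ S.R x a.1 b.1 ∧ ¬ S.R x c.1 d.1 := by
    intro a b c d
    constructor
    · intro h
      by_contra hcon
      push Not at hcon
      apply absurd h
      rw [not_lt]
      apply Set.ncard_le_ncard _ (Set.toFinite _)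
      rintro x ⟨hx, hx2⟩
      exact ⟨hx, fun h3 => hx2 (hcon x hx h3)⟩
    · rintro ⟨x, hx, h1, h2⟩
      apply Set.ncard_lt_ncard _ (Set.toFinite _)
      refine ⟨?_, ?_⟩
      · rintro x' ⟨hx', h3⟩
        refine ⟨hx', fun h4 => ?_⟩
        rcases hnest x x' hx hx' with h5 | h5
        · exact h3 (h5 _ _ b.2 h1)
        · exact h2 (h5 _ _ d.2 h4)
      · intro h3
        exact (h3 ⟨hx, h2⟩).2 h1
  have hmet : Met (del S p0 q0) := by
    constructor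
    · intro a b
      unfold del
      congr 1
      ext x
      exact and_congr_right fun _ => not_congr ⟨S.r23 _ _ _, S.r23 _ _ _⟩
    · intro a
      unfold del
      rw [Set.ncard_eq_zero (Set.toFinite _), Set.eq_empty_iff_forall_notMem]
      rintro x ⟨hx, h⟩
      exact h (hRaa x a.1 hx a.2)
  have hCF : ∀ a b : {a // DD S p0 q0 a} × {a // DD S p0 q0 a}, CImp (del S p0 q0) a b →
      FImp S (a.1.1, a.2.1) (b.1.1, b.2.1) := by
    rintro a b (⟨h1, h2⟩ | ⟨h1, h2⟩)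
    · obtain ⟨x, hx, h3, h4⟩ := (hlt _ _ _ _).1 h1
      exact Or.inl ⟨x, h3, h4, hRaa x _ hx a.2.2, congrArg Subtype.val h2⟩
    · obtain ⟨x, hx, h3, h4⟩ := (hlt _ _ _ _).1 h1
      exact Or.inr ⟨x, h3, h4, hRaa x _ hx a.1.2, congrArg Subtype.val h2⟩
  have hCFs : ∀ a b : {a // DD S p0 q0 a} × {a // DD S p0 q0 a},
      ReflTransGen (CImp (del S p0 q0)) a b →
      ReflTransGen (FImp S) (a.1.1, a.2.1) (b.1.1, b.2.1) := by
    intro a b h
    induction h with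
    | refl => exact ReflTransGen.refl
    | tail _ h2 ih => exact ih.tail (hCF _ _ h2)
  have hgD : ∀ a b c : {a // DD S p0 q0 a}, DD S p0 q0 (g a.1 b.1 c.1) := by
    intro a b c
    rcases hg.cons a.1 b.1 c.1 with h | h | h
    · rw [h]; exact a.2
    · rw [h]; exact b.2
    · rw [h]; exact c.2
  have hmaj : IsMaj (del S p0 q0) (fun a b c => ⟨g a.1 b.1 c.1, hgD a b c⟩) := by
    constructor
    · intro a b c
      rcases hg.cons a.1 b.1 c.1 with h | h | h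
      · exact Or.inl (Subtype.ext h)
      · exact Or.inr (Or.inl (Subtype.ext h))
      · exact Or.inr (Or.inr (Subtype.ext h))
    · intro a b c a' b' c'
      by_contra hcon
      rw [not_le, max_lt_iff, max_lt_iff] at hcon
      obtain ⟨h1, h2, h3⟩ := hcon
      have hle : ∀ u u' v v' : {a // DD S p0 q0 a}, del S p0 q0 v v' ≤ del S p0 q0 u u' →
          ∀ x, XX S p0 q0 x → S.R x u.1 u'.1 → S.R x v.1 v'.1 := by
        intro u u' v v' h x hx hu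
        by_contra hv
        exact absurd ((hlt _ _ _ _).2 ⟨x, hx, hu, hv⟩) (not_lt.2 h)
      have hfin : ∀ x, XX S p0 q0 x → ¬ S.R x (g a.1 b.1 c.1) (g a'.1 b'.1 c'.1) →
          S.R x a.1 a'.1 → S.R x b.1 b'.1 → S.R x c.1 c'.1 → False :=
        fun x _ h4 h5 h6 h7 => h4 (hg.pres x _ _ _ _ _ _ h5 h6 h7)
      rcases le_total (del S p0 q0 a a') (del S p0 q0 b b') with hab | hab
      · rcases le_total (del S p0 q0 b b') (del S p0 q0 c c') with hbc | hbc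
        · obtain ⟨x, hx, h4, h5⟩ := (hlt _ _ _ _).1 h3
          exact hfin x hx h5 (hle _ _ _ _ (hab.trans hbc) x hx h4) (hle _ _ _ _ hbc x hx h4) h4
        · obtain ⟨x, hx, h4, h5⟩ := (hlt _ _ _ _).1 h2
          exact hfin x hx h5 (hle _ _ _ _ hab x hx h4) h4 (hle _ _ _ _ hbc x hx h4)
      · rcases le_total (del S p0 q0 a a') (del S p0 q0 c c') with hac | hac
        · obtain ⟨x, hx, h4, h5⟩ := (hlt _ _ _ _).1 h3
          exact hfin x hx h5 (hle _ _ _ _ hac x hx h4) (hle _ _ _ _ (hab.trans hac) x hx h4) h4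
        · obtain ⟨x, hx, h4, h5⟩ := (hlt _ _ _ _).1 h1
          exact hfin x hx h5 h4 (hle _ _ _ _ hab x hx h4) (hle _ _ _ _ hac x hx h4)
    · rintro p q ⟨h1, h2, h3⟩
      have hn : NInv S p.1 q.1 := ⟨fun h => h1 (Subtype.ext h), hCFs _ _ h2, hCFs _ _ h3⟩
      obtain ⟨h4, h5, h6⟩ := hg.maj p.1 q.1 hn
      exact ⟨Subtype.ext h4, Subtype.ext h5, Subtype.ext h6⟩
  -- (6)
  have hC0 : C S p0 q0 (p0, q0) := ⟨ReflTransGen.refl, ReflTransGen.refl⟩
  have hp0 := (hCD p0 q0 hC0).1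
  have hq0 := (hCD p0 q0 hC0).2
  have hwalk : ∀ (u v : {a // DD S p0 q0 a}), C S p0 q0 (u.1, v.1) → ∀ l, C S p0 q0 l →
      ∀ h1 : DD S p0 q0 l.1, ∀ h2 : DD S p0 q0 l.2,
      ReflTransGen (CImp (del S p0 q0)) (u, v) (⟨l.1, h1⟩, ⟨l.2, h2⟩) := by
    intro u v huv
    refine C_ind (fun l => ∀ h1 : DD S p0 q0 l.1, ∀ h2 : DD S p0 q0 l.2,
      ReflTransGen (CImp (del S p0 q0)) (u, v) (⟨l.1, h1⟩, ⟨l.2, h2⟩)) huv ?_ ?_
    · intro h1 h2
      exact ReflTransGen.refl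
    · rintro ⟨p, q⟩ ⟨p', q'⟩ ha hb hstep ih h1 h2
      have h3 := hCD p q ha
      refine (ih h3.1 h3.2).tail ?_
      rcases hstep with ⟨x, r1, r2, _, h4⟩ | ⟨x, r1, r2, _, h4⟩
      · obtain rfl : q = q' := h4
        left
        refine ⟨(hlt _ _ _ _).2 ⟨x, ⟨p, p', q, ha, hb, r1, r2⟩, r1, r2⟩, rfl⟩
      · obtain rfl : p = p' := h4
        right
        refine ⟨(hlt _ _ _ _).2 ⟨x, ⟨q', q, p, C_swap h0 hb, C_swap h0 ha, S.r23 _ _ _ r1,
          fun h => r2 (S.r23 _ _ _ h)⟩, r1, r2⟩, rfl⟩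
  apply hA {a // DD S p0 q0 a} (del S p0 q0) hmet ⟨_, hmaj⟩
  refine ⟨⟨p0, hp0⟩, ⟨q0, hq0⟩, fun h => h0.1 (congrArg Subtype.val h), ?_, ?_⟩
  · exact hwalk ⟨p0, hp0⟩ ⟨q0, hq0⟩ hC0 (q0, p0) (C_swap h0 hC0) hq0 hp0
  · exact hwalk ⟨q0, hq0⟩ ⟨p0, hp0⟩ (C_swap h0 hC0) (p0, q0) hC0 hp0 hq0

end RA7
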