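import Pool.Agent.Helper74.RA7.Base

/-!
# Project RA7, module O8
-/

namespace RA7

open Relation

theorem o8 : StNI → StO8 := by
  intro hNI N _ S hH1 T hT hno
  have hanti : ∀ p q, T p q → ¬ T q p := by
    intro p q h1 h2
    exact hno ⟨p, q, hT.bi p q h1 h2⟩
  have hTour : Tour T := ⟨hT.irr, hanti, hT.tot⟩
  have hSym : SymF S.R := fun i p q h => S.r23 i p q h
  have hCl : ClosedT S.R T := by
    intro x p q r hpq hpr hnpq
    by_cases h : S.R x q q
    · exact hT.clos (p, q) (r, q) hpq (Or.inl ⟨x, hpr, hnpq, h, rfl⟩)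
    · exact (hT.unit r q ⟨x, p, hpr, hnpq, h⟩).1
  obtain ⟨L, hL, hLc, hLT⟩ := hNI N N S.R T hSym hTour hCl
  -- units
  have hU : ∀ w y, U1 S w y → L w y := by
    intro w y hwy
    apply hLT w y (hT.unit w y hwy).1
    intro hwalk
    obtain ⟨c, z, h1, h2, h3⟩ := hwy
    have hP : ∀ v, ReflTransGen T y v → ¬ S.R c v v ∧ ¬ S.R c z v := by
      intro v hv
      induction hv with
      | refl => exact ⟨h3, h2⟩
      | @tail v v' _ hvv' ih =>
        constructor
        · intro h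
          by_cases h4 : S.R c v v'
          · exact (hT.unit v' v ⟨c, v, h4, ih.1, ih.1⟩).2 hvv'
          · exact (hT.unit v' v ⟨c, v', h, fun h5 => h4 (S.r23 _ _ _ h5), ih.1⟩).2 hvv'
        · intro h
          exact (hT.unit v' v ⟨c, z, h, ih.2, ih.1⟩).2 hvv'
    exact (hP w hwalk).2 h1
  refine ⟨L, hL, ?_, ?_, ?_, ?_⟩
  · intro x z y w hzy hyw hR
    by_contra h
    exact hL.1.2.1 y w hyw (hLc x z y w hzy hR h)
  · intro x z y w hyz hyw hR
    by_contra h
    by_cases h1 : S.R x z y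
    · exact hL.1.2.1 y z hyz (hU z y ⟨x, y, S.r23 _ _ _ h1, h, h⟩)
    · exact hL.1.2.1 y w hyw (hU w y ⟨x, z, hR, h1, h⟩)
  · intro x y hxy
    by_contra h
    have h0 : ¬ S.R y x x := fun h1 => h (S.r23 _ _ _ (S.r12 _ _ _ h1))
    have hux : U1 S y x := by
      by_cases h1 : S.R y x y
      · exact ⟨y, x, h1, h0, h0⟩
      · exact ⟨y, y, hH1 y, fun h2 => h1 (S.r23 _ _ _ h2), h0⟩
    exact hL.1.2.1 x y hxy (hU y x hux)
  · intro x z w hzw hR
    by_contra h
    exact hL.1.2.1 z w hzw (hU w z ⟨x, z, hR, h, h⟩)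

end RA7
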