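import Pool.Agent.Helper74.RA7.Base

/-!
# Project RA7, module ORD: orderable iff no invertible pair
-/

namespace RA7

open Relation

namespace ORD

theorem skew {D : Type} {δ : D → D → ℕ} (hM : Met δ) {a b : D × D} (h : CImp δ a b) :
    CImp δ b.swap a.swap := by
  rcases h with ⟨h1, h2⟩ | ⟨h1, h2⟩
  · right
    refine ⟨?_, h2.symm⟩
    simp only [Prod.snd_swap, Prod.fst_swap]
    rw [hM.symm b.1 a.1, ← h2, hM.symm a.2 a.1]
    exact h1
  · left
    refine ⟨?_, h2.symm⟩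
    simp only [Prod.snd_swap, Prod.fst_swap]
    rw [hM.symm b.2 a.2, hM.symm b.2 b.1, ← h2]
    exact h1

theorem forward (hS : StSAT) (hN : StNI) (D : Type) [Finite D] (δ : D → D → ℕ) (hM : Met δ)
    (hI : ¬ ∃ p q, Inv δ p q) : Ordb δ := by
  obtain ⟨T0, -, hcl, htot, hbi⟩ := hS (D × D) Prod.swap (CImp δ) (fun _ => False)
    (fun a => Prod.swap_swap a) (fun a b h => skew hM h) (fun u v hu => hu.elim)
  have hTour : Tour (fun p q : D => p ≠ q ∧ T0 (p, q)) := by
    refine ⟨fun p h => h.1 rfl, ?_, ?_⟩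
    · rintro p q ⟨h1, h2⟩ ⟨-, h3⟩
      have h4 := hbi (p, q) h2 h3
      exact hI ⟨p, q, h1, h4.1, h4.2⟩
    · intro p q hpq
      rcases htot (p, q) with h | h
      · exact Or.inl ⟨hpq, h⟩
      · exact Or.inr ⟨hpq.symm, h⟩
  have hClosed : ClosedT (fun (k : ℕ) (a b : D) => δ a b ≤ k) (fun p q : D => p ≠ q ∧ T0 (p, q)) := by
    rintro i p q r ⟨h1, h2⟩ h3 h4
    have h5 : δ p r < δ p q := by omega
    refine ⟨?_, hcl (p, q) (r, q) h2 (Or.inl ⟨h5, rfl⟩)⟩
    rintro rfl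
    exact lt_irrefl _ h5
  obtain ⟨L, hL, hLc, -⟩ := hN D ℕ (fun (k : ℕ) (a b : D) => δ a b ≤ k)
    (fun p q : D => p ≠ q ∧ T0 (p, q))
    (fun i p q h => by
      have h' : δ p q ≤ i := h
      have h'' : δ q p ≤ i := by rw [hM.symm]; exact h'
      exact h'') hTour hClosed
  refine ⟨L, hL, ?_⟩
  intro x y z hxy hyz
  by_contra hcon
  have h1 := hLc (δ x z) x y z hxy (le_refl _) hcon
  exact hL.1.2.1 z y h1 hyz

theorem step {D : Type} {δ : D → D → ℕ} (hM : Met δ) {L : D → D → Prop} (hL : LinT L)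
    (hv : ∀ x y z, L x y → L y z → δ x y ≤ δ x z) {a b : D × D} (h : CImp δ a b)
    (ha : L a.1 a.2) : L b.1 b.2 := by
  obtain ⟨p, q⟩ := a
  obtain ⟨p', q'⟩ := b
  rcases h with ⟨h1, h2⟩ | ⟨h1, h2⟩
  · simp only at h1 h2 ha ⊢
    subst h2
    have hne : p' ≠ q := by
      rintro rfl
      exact lt_irrefl _ h1
    rcases hL.1.2.2 p' q hne with h | h
    · exact h
    · exact absurd (hv p q p' ha h) (not_le.2 h1)
  · simp only at h1 h2 ha ⊢
    subst h2
    have hne : p ≠ q' := by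
      rintro rfl
      rw [hM.zero] at h1
      exact absurd h1 (Nat.not_lt_zero _)
    rcases hL.1.2.2 p q' hne with h | h
    · exact h
    · have h3 := hv q' p q h ha
      rw [hM.symm q' p, hM.symm q' q] at h3
      exact absurd h3 (not_le.2 h1)

theorem walk {D : Type} {δ : D → D → ℕ} (hM : Met δ) {L : D → D → Prop} (hL : LinT L)
    (hv : ∀ x y z, L x y → L y z → δ x y ≤ δ x z) {a b : D × D}
    (h : ReflTransGen (CImp δ) a b) (ha : L a.1 a.2) : L b.1 b.2 := by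
  induction h with
  | refl => exact ha
  | tail _ h2 ih => exact step hM hL hv h2 ih

theorem backward (D : Type) (δ : D → D → ℕ) (hM : Met δ) (hO : Ordb δ) :
    ¬ ∃ p q, Inv δ p q := by
  obtain ⟨L, hL, hv⟩ := hO
  rintro ⟨p, q, hne, h1, h2⟩
  rcases hL.1.2.2 p q hne with h | h
  · exact hL.1.2.1 p q h (walk hM hL hv h1 h)
  · exact hL.1.2.1 q p h (walk hM hL hv h2 h)

end ORD

theorem ord : StSAT → StNI → StOrd := by
  intro hS hN D _ δ hM
  exact ⟨ORD.forward hS hN D δ hM, ORD.backward D δ hM⟩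

end RA7
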