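import Pool.Agent.Helper74.RA7.Base

/-!
# Project RA7, module RE: reordering a homogeneous strongly connected set
-/

namespace RA7

open Relation

namespace RE

variable {D I : Type}

/-- reversed form of closedness -/
lemma rev {E : I → D → D → Prop} {T : D → D → Prop} (hE : SymF E) (hT : Tour T) (hc : ClosedT E T)
    {i : I} {p q q' : D} (h1 : T p q) (h2 : E i q q') (h3 : ¬ E i p q') (h4 : p ≠ q') : T p q' := by
  rcases hT.2.2 p q' h4 with h | h
  · exact h
  · exact absurd (hc i q' p q h (hE i _ _ h2) (fun h5 => h3 (hE i _ _ h5))) (hT.2.1 p q h1)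

/-- (U) -/
lemma upper {E : I → D → D → Prop} {T : D → D → Prop} {Y : D → Prop} (hT : Tour T) (hc : ClosedT E T)
    (hS : SC T Y) {z : D} (hz : ∀ y, Y y → T z y) {i : I} {p q : D} (hp : Y p) (hq : Y q)
    (h : E i z p) : E i z q := by
  by_contra hq2
  have key : ∀ x, ReflTransGen (fun p q => Y p ∧ Y q ∧ T p q) q x → ¬ E i z x := by
    intro x hx
    induction hx with
    | refl => exact hq2
    | @tail b c _ hbc ih =>
      obtain ⟨hb, hcY, hT2⟩ := hbc
      intro h5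
      exact hT.2.1 _ _ hT2 (hc i z b c (hz b hb) h5 ih)
  exact key p (hS q p hq hp) h

lemma walk {T : D → D → Prop} {Y : D → Prop} {a b : D}
    (h : ReflTransGen (fun p q => Y p ∧ Y q ∧ T p q) a b) (ha : Y a) :
    ∀ hb : Y b, ∃ n, Wk (fun p q : {x // Y x} => T p.1 q.1) n ⟨a, ha⟩ ⟨b, hb⟩ := by
  induction h using ReflTransGen.head_induction_on with
  | refl => exact fun hb => ⟨0, rfl⟩
  | head h1 _ ih =>
    intro hb
    obtain ⟨n, hn⟩ := ih h1.2.1 hb
    exact ⟨n + 1, ⟨_, h1.2.1⟩, h1.2.2, hn⟩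

/-- (L) -/
lemma lower (hSP : StSP) {E : I → D → D → Prop} {T : D → D → Prop} {Y : D → Prop} (hE : SymF E)
    (hT : Tour T) (hc : ClosedT E T) (hS : SC T Y) {z : D} (hz : ∀ y, Y y → T y z) {i : I} {p q : D}
    (hp : Y p) (hq : Y q) (hpq : p ≠ q) (h : E i z q) : E i p q := by
  classical
  have hL1 : ∀ a, Y a → T q a → E i q a := by
    intro a ha hqa
    by_contra hn
    have haq : a ≠ q := by
      rintro rfl
      exact hT.1 _ hqa
    exact hT.2.1 _ _ hqa (rev hE hT hc (hz a ha) h (fun h5 => hn (hE i _ _ h5)) haq)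
  have hex := walk (hS q p hq hp) hq hp
  obtain ⟨n, hn, hmin⟩ : ∃ n, Wk (fun p q : {x // Y x} => T p.1 q.1) n ⟨q, hq⟩ ⟨p, hp⟩ ∧
      ∀ m, m < n → ¬ Wk (fun p q : {x // Y x} => T p.1 q.1) m ⟨q, hq⟩ ⟨p, hp⟩ :=
    ⟨Nat.find hex, Nat.find_spec hex, fun m hm => Nat.find_min hex hm⟩
  cases n with
  | zero =>
    have h6 : (⟨q, hq⟩ : {x // Y x}) = ⟨p, hp⟩ := hn
    exact absurd (congrArg Subtype.val h6).symm hpq
  | succ k =>
    obtain ⟨c, hc1, hc2⟩ := hn
    have hE' : SymF (fun i (a b : {x // Y x}) => E i a.1 b.1) := fun i a b h => hE i _ _ h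
    have hT' : Tour (fun p q : {x // Y x} => T p.1 q.1) := by
      refine ⟨fun a => hT.1 a.1, fun a b => hT.2.1 a.1 b.1, fun a b hab => hT.2.2 a.1 b.1 ?_⟩
      intro h7
      exact hab (Subtype.ext h7)
    have hc' : ClosedT (fun i (a b : {x // Y x}) => E i a.1 b.1) (fun p q : {x // Y x} => T p.1 q.1) :=
      fun i a b r => hc i a.1 b.1 r.1
    have := hSP {x // Y x} I _ _ hE' hT' hc' i k ⟨q, hq⟩ ⟨p, hp⟩ c hc1 hc2
      (fun j hj => hmin j (by omega)) (hL1 c.1 c.2 hc1)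
    exact hE i _ _ this

end RE

theorem re : StSP → StRE := by
  intro hSP D I E T Y hE hT hc hH hS LY hLT hLc
  refine ⟨⟨?_, ?_, ?_⟩, ?_⟩
  · rintro p (⟨hp, hq, h⟩ | ⟨-, h⟩)
    · exact hLT.1 _ h
    · exact hT.1 _ h
  · rintro p q (⟨hp, hq, h⟩ | ⟨hn, h⟩) (⟨hq', hp', h'⟩ | ⟨hn', h'⟩)
    · exact hLT.2.1 _ _ h h'
    · exact hn' ⟨hq, hp⟩
    · exact hn ⟨hp', hq'⟩
    · exact hT.2.1 _ _ h h'
  · intro p q hpq
    by_cases hYY : Y p ∧ Y q
    · have hne : (⟨p, hYY.1⟩ : {x // Y x}) ≠ ⟨q, hYY.2⟩ := fun h => hpq (congrArg Subtype.val h)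
      rcases hLT.2.2 _ _ hne with h | h
      · exact Or.inl (Or.inl ⟨hYY.1, hYY.2, h⟩)
      · exact Or.inr (Or.inl ⟨hYY.2, hYY.1, h⟩)
    · rcases hT.2.2 p q hpq with h | h
      · exact Or.inl (Or.inr ⟨hYY, h⟩)
      · exact Or.inr (Or.inr ⟨fun h5 => hYY ⟨h5.2, h5.1⟩, h⟩)
  · intro i p q r hpq hpr hnpq
    by_cases hp : Y p
    · by_cases hq : Y q
      · have hL : LY ⟨p, hp⟩ ⟨q, hq⟩ := by
          rcases hpq with ⟨_, _, h⟩ | ⟨hn, _⟩
          · exact h
          · exact absurd ⟨hp, hq⟩ hn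
        by_cases hr : Y r
        · exact Or.inl ⟨hr, hq, hLc i ⟨p, hp⟩ ⟨q, hq⟩ ⟨r, hr⟩ hL hpr hnpq⟩
        · rcases hH r hr with h | h
          · exact Or.inr ⟨fun h5 => hr h5.1, h q hq⟩
          · exfalso
            have hne : q ≠ p := by
              intro h5
              subst h5
              exact hLT.1 _ hL
            have h6 := RE.lower hSP hE hT hc hS h (i := i) hq hp hne (hE i _ _ hpr)
            exact hnpq (hE i _ _ h6)
      · have hTpq : T p q := by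
          rcases hpq with ⟨_, h, _⟩ | ⟨_, h⟩
          · exact absurd h hq
          · exact h
        by_cases hr : Y r
        · rcases hH q hq with h | h
          · exact absurd (h p hp) (hT.2.1 _ _ hTpq)
          · exact Or.inr ⟨fun h5 => hq h5.2, h r hr⟩
        · exact Or.inr ⟨fun h5 => hq h5.2, hc i p q r hTpq hpr hnpq⟩
    · have hTpq : T p q := by
        rcases hpq with ⟨h, _, _⟩ | ⟨_, h⟩
        · exact absurd h hp
        · exact h
      have hTrq := hc i p q r hTpq hpr hnpq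
      by_cases hYY : Y r ∧ Y q
      · rcases hH p hp with h | h
        · exact absurd (RE.upper hT hc hS h hYY.1 hYY.2 hpr) hnpq
        · exact absurd (h q hYY.2) (hT.2.1 _ _ hTpq)
      · exact Or.inr ⟨hYY, hTrq⟩

end RA7
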