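import Pool.Agent.Helper74.RA7.Base

set_option autoImplicit false

/-!
# Module S1: the separator argument
-/

namespace RA7

open Relation

namespace S1

variable {D I : Type} {E : I → D → D → Prop} {T : D → D → Prop}

private theorem cyc1 (hE : SymF E) (hT : Tour T) (hC : ClosedT E T) {x y z : D}
    (h : Cyc3 T x y z) {i : I} (h1 : E i z x) : E i x y := by
  by_contra h2
  exact hT.2.1 _ _ h.2.1 (hC i x y z h.1 (hE _ _ _ h1) h2)

private theorem rot {x y z : D} (h : Cyc3 T x y z) : Cyc3 T y z x := ⟨h.2.1, h.2.2, h.1⟩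

private theorem cyc_iff (hE : SymF E) (hT : Tour T) (hC : ClosedT E T) {x y z : D}
    (h : Cyc3 T x y z) (i : I) : E i y z ↔ E i x y := by
  constructor
  · intro h1
    exact cyc1 hE hT hC h (cyc1 hE hT hC (rot (rot h)) h1)
  · intro h1
    exact cyc1 hE hT hC (rot h) h1

private theorem f1a (hE : SymF E) (hC : ClosedT E T) {x y z u : D} (h : Cyc3 T x y z) {i : I}
    (hi : ¬ E i x y) (h1 : E i u x) : T u y := hC i x y u h.1 (hE _ _ _ h1) hi

private theorem f1b (hE : SymF E) (hT : Tour T) (hC : ClosedT E T) {x y z u : D}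
    (h : Cyc3 T x y z) {i : I} (hi : ¬ E i x y) (h1 : E i u x) (h2 : ¬ E i u z) : T z u := by
  have hne : u ≠ z := by
    rintro rfl
    exact hi (cyc1 hE hT hC h h1)
  rcases hT.2.2 u z hne with h3 | h3
  · exact absurd (hC i u z x h3 h1 h2) (hT.2.1 _ _ h.2.2)
  · exact h3

private theorem f2 (hE : SymF E) (hT : Tour T) (hC : ClosedT E T) {x y z u : D}
    (h : Cyc3 T x y z) {i : I} (hi : ¬ E i x y) (h1 : E i u x) (h2 : E i u z) :
    T u x ∧ T u y ∧ T u z ∧ E i u y := by
  have hzx : ¬ E i z x := fun h3 => hi (cyc1 hE hT hC h h3)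
  have hyz : ¬ E i y z := fun h3 => hi ((cyc_iff hE hT hC h i).1 h3)
  have a1 : T u x := hC i z x u h.2.2 (hE _ _ _ h2) hzx
  have a2 : T u y := f1a hE hC h hi h1
  have a3 : E i u y := by
    by_contra h3
    exact hT.2.1 _ _ h.2.1 (hC i u y z a2 h2 h3)
  have a4 : T u z := f1a hE hC (rot h) hyz a3
  exact ⟨a1, a2, a4, a3⟩

private theorem f3 (hE : SymF E) (hT : Tour T) (hC : ClosedT E T) {x y z u : D}
    (h : Cyc3 T x y z) {i : I} (hi : ¬ E i x y) (h1 : E i u x) (h2 : ¬ E i u z) :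
    Cyc3 T u y z ∧ ∀ j, E j u y ↔ E j x y := by
  have c : Cyc3 T u y z := ⟨f1a hE hC h hi h1, h.2.1, f1b hE hT hC h hi h1 h2⟩
  refine ⟨c, fun j => ?_⟩
  rw [← cyc_iff hE hT hC c j, cyc_iff hE hT hC h j]

/-- all three adjacent -/
def Wt (E : I → D → D → Prop) (x y z b : D) (i : I) : Prop := E i b x ∧ E i b y ∧ E i b z

/-- the dominating vertices -/
def BB (E : I → D → D → Prop) (x y z b : D) : Prop := ∃ i, ¬ E i x y ∧ Wt E x y z b i

/-- steps -/
def GG (E : I → D → D → Prop) (x y z u v : D) : Prop :=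
  ¬ BB E x y z u ∧ ¬ BB E x y z v ∧ ∃ i, ¬ E i x y ∧ E i u v

/-- connected by steps -/
def KK (E : I → D → D → Prop) (x y z : D) : D → D → Prop := ReflTransGen (GG E x y z)

/-- triples like `(x, y, z)` -/
def QQ (E : I → D → D → Prop) (T : D → D → Prop) (x y z u v w : D) : Prop :=
  Cyc3 T u v w ∧ (∀ j, E j u v ↔ E j x y) ∧
    ∀ b i, ¬ E i x y → (Wt E u v w b i ↔ Wt E x y z b i)

private theorem QQ_rot (hE : SymF E) (hT : Tour T) (hC : ClosedT E T) {x y z u v w : D}
    (h : QQ E T x y z u v w) : QQ E T x y z v w u := by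
  obtain ⟨h1, h2, h3⟩ := h
  refine ⟨rot h1, fun j => ?_, fun b i hi => ?_⟩
  · rw [cyc_iff hE hT hC h1 j]
    exact h2 j
  · rw [← h3 b i hi]
    unfold Wt
    tauto

private theorem QQ_step (hE : SymF E) (hT : Tour T) (hC : ClosedT E T) {x y z u v w u' : D}
    (h : QQ E T x y z u v w) (hg : GG E x y z u u') : QQ E T x y z u' v w := by
  obtain ⟨h1, h2, h3⟩ := h
  obtain ⟨-, hB, i, hi, he⟩ := hg
  have hi' : ¬ E i u v := fun h4 => hi ((h2 i).1 h4)
  have he' : E i u' u := hE _ _ _ he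
  have hw : ¬ E i u' w := by
    intro h4
    obtain ⟨-, -, -, h5⟩ := f2 hE hT hC h1 hi' he' h4
    exact hB ⟨i, hi, (h3 u' i hi).1 ⟨he', h5, h4⟩⟩
  obtain ⟨c, hj⟩ := f3 hE hT hC h1 hi' he' hw
  refine ⟨c, fun j => (hj j).trans (h2 j), fun b j hj' => ?_⟩
  have hjuv : ¬ E j u v := fun h4 => hj' ((h2 j).1 h4)
  have hjuv' : ¬ E j u' v := fun h4 => hjuv ((hj j).1 h4)
  constructor
  · rintro ⟨-, b2, b3⟩
    have hwu : ¬ E j w u := fun h4 => hjuv (cyc1 hE hT hC h1 h4)
    obtain ⟨-, -, -, b1⟩ := f2 hE hT hC (rot (rot h1)) hwu b3 b2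
    exact (h3 b j hj').1 ⟨b1, b2, b3⟩
  · intro hb
    obtain ⟨-, b2, b3⟩ := (h3 b j hj').2 hb
    have hwu : ¬ E j w u' := fun h4 => hjuv' (cyc1 hE hT hC c h4)
    obtain ⟨-, -, -, b1⟩ := f2 hE hT hC (rot (rot c)) hwu b3 b2
    exact ⟨b1, b2, b3⟩

private theorem QQ_K (hE : SymF E) (hT : Tour T) (hC : ClosedT E T) {x y z u v w u' : D}
    (h : QQ E T x y z u v w) (hg : KK E x y z u u') : QQ E T x y z u' v w := by
  induction hg with
  | refl => exact h
  | tail _ h2 ih => exact QQ_step hE hT hC ih h2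

private theorem QQ_all (hE : SymF E) (hT : Tour T) (hC : ClosedT E T) {x y z u v w : D}
    (h : Cyc3 T x y z) (hu : KK E x y z x u) (hv : KK E x y z y v) (hw : KK E x y z z w) :
    QQ E T x y z u v w := by
  have h0 : QQ E T x y z x y z := ⟨h, fun _ => Iff.rfl, fun _ _ _ => Iff.rfl⟩
  have h1 := QQ_rot hE hT hC (QQ_K hE hT hC h0 hu)
  have h2 := QQ_rot hE hT hC (QQ_K hE hT hC h1 hv)
  exact QQ_rot hE hT hC (QQ_K hE hT hC h2 hw)

private theorem G_symm (hE : SymF E) {x y z u v : D} (h : GG E x y z u v) : GG E x y z v u := by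
  obtain ⟨h1, h2, i, hi, h3⟩ := h
  exact ⟨h2, h1, i, hi, hE _ _ _ h3⟩

private theorem K_symm (hE : SymF E) {x y z u v : D} (h : KK E x y z u v) :
    KK E x y z v u := by
  induction h with
  | refl => exact ReflTransGen.refl
  | tail _ h2 ih => exact ReflTransGen.head (G_symm hE h2) ih

private theorem K_trans {x y z u v w : D} (h : KK E x y z u v) (h' : KK E x y z v w) :
    KK E x y z u w := ReflTransGen.trans h h'

private theorem K_B {x y z u v : D} (h : KK E x y z u v) (hu : ¬ BB E x y z u) :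
    ¬ BB E x y z v := by
  induction h with
  | refl => exact hu
  | tail _ h2 _ => exact h2.2.1

private theorem c3 {x y z u v : D} (hu : ¬ BB E x y z u) (hv : ¬ BB E x y z v)
    (hK : ¬ KK E x y z u v) (i : I) (hi : ¬ E i x y) : ¬ E i u v :=
  fun h => hK (ReflTransGen.single ⟨hu, hv, i, hi, h⟩)

private theorem c3a {x y z u u' v : D} (hC : ClosedT E T) (h : KK E x y z u u')
    (hK : ¬ KK E x y z u v) (hv : ¬ BB E x y z v) (ht : T u v) : T u' v := by
  induction h with
  | refl => exact ht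
  | tail h1 h2 ih =>
    rename_i b c
    obtain ⟨hb, hc, i, hi, he⟩ := h2
    have hKb : ¬ KK E x y z b v := fun h3 => hK (K_trans h1 h3)
    exact hC i b v c ih he (c3 hb hv hKb i hi)

private theorem c3b {x y z u u' v : D} (hE : SymF E) (hT : Tour T) (hC : ClosedT E T)
    (h : KK E x y z u u') (hK : ¬ KK E x y z u v) (hv : ¬ BB E x y z v) (ht : T v u) :
    T v u' := by
  have hne : v ≠ u' := by
    rintro rfl
    exact hK h
  rcases hT.2.2 v u' hne with h1 | h1
  · exact h1
  · exfalso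
    have hK' : ¬ KK E x y z u' v := fun h2 => hK (K_trans h h2)
    exact hT.2.1 _ _ ht (c3a hC (K_symm hE h) hK' hv h1)

/-- the good vertices -/
def AA (E : I → D → D → Prop) (x y z v : D) : Prop :=
  ¬ BB E x y z v ∧ ∀ b i v', ¬ E i x y → Wt E x y z b i → KK E x y z v v' → E i b v'

private theorem A_K {x y z v v' : D} (h : AA E x y z v) (hK : KK E x y z v v') :
    AA E x y z v' :=
  ⟨K_B hK h.1, fun b i v'' hi hb hK' => h.2 b i v'' hi hb (K_trans hK hK')⟩

/-- arcs between good vertices -/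
def TA (E : I → D → D → Prop) (T : D → D → Prop) (x y z p q : D) : Prop :=
  AA E x y z p ∧ AA E x y z q ∧ T p q

/-- the strong component -/
def YY (E : I → D → D → Prop) (T : D → D → Prop) (x y z v : D) : Prop :=
  AA E x y z v ∧ ReflTransGen (TA E T x y z) x v ∧ ReflTransGen (TA E T x y z) v x

private theorem sc_aux {x y z a b : D} (h : ReflTransGen (TA E T x y z) a b)
    (h1 : ReflTransGen (TA E T x y z) x a) (h2 : ReflTransGen (TA E T x y z) b x) :
    ReflTransGen (fun p q => YY E T x y z p ∧ YY E T x y z q ∧ T p q) a b := by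
  induction h with
  | refl => exact ReflTransGen.refl
  | tail h3 h4 ih =>
    rename_i c d
    have h5 : ReflTransGen (TA E T x y z) c x := ReflTransGen.head h4 h2
    have h6 : ReflTransGen (TA E T x y z) x c := h1.trans h3
    exact ReflTransGen.tail (ih h5)
      ⟨⟨h4.1, h6, h5⟩, ⟨h4.2.1, h6.tail h4, h2⟩, h4.2.2⟩

private theorem sc_YY (x y z : D) : SC T (YY E T x y z) := by
  intro a b ha hb
  exact sc_aux (ha.2.2.trans hb.2.1) ha.2.1 hb.2.2

private theorem enter (hE : SymF E) (hT : Tour T) (hC : ClosedT E T) {x y z e u : D}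
    (h : ReflTransGen (fun p q => YY E T x y z p ∧ YY E T x y z q ∧ T p q) e u)
    (hK : ¬ KK E x y z e u) : ∃ w, YY E T x y z w ∧ ¬ KK E x y z w u ∧ T w u := by
  induction h with
  | refl => exact absurd ReflTransGen.refl hK
  | @tail c d _ h2 ih =>
    by_cases hcd : KK E x y z c d
    · obtain ⟨w, w1, w2, w3⟩ := ih (fun h3 => hK (K_trans h3 hcd))
      refine ⟨w, w1, fun h3 => w2 (K_trans h3 (K_symm hE hcd)), ?_⟩
      exact c3b hE hT hC hcd (fun h3 => w2 (K_symm hE h3)) w1.1.1 w3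
    · exact ⟨c, h2.1, hcd, h2.2.2⟩

end S1

open S1 in
theorem s1 : StS1 := by
  intro D I _ E T hE hT hC _ x y z hcyc
  have hyz : ∀ i, ¬ E i x y → ¬ E i y z := fun i hi h => hi ((cyc_iff hE hT hC hcyc i).1 h)
  have hzx : ∀ i, ¬ E i x y → ¬ E i z x := fun i hi h => hi (cyc1 hE hT hC hcyc h)
  have hBx : ¬ BB E x y z x := by
    rintro ⟨i, hi, -, h, -⟩
    exact hi h
  have hBy : ¬ BB E x y z y := by
    rintro ⟨i, hi, -, -, h⟩
    exact hyz i hi h
  have hBz : ¬ BB E x y z z := by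
    rintro ⟨i, hi, h, -, -⟩
    exact hzx i hi h
  have hAx : AA E x y z x := by
    refine ⟨hBx, fun b i v' hi hb hK => ?_⟩
    exact ((QQ_all hE hT hC hcyc hK ReflTransGen.refl ReflTransGen.refl).2.2 b i hi).2 hb |>.1
  have hAy : AA E x y z y := by
    refine ⟨hBy, fun b i v' hi hb hK => ?_⟩
    exact ((QQ_all hE hT hC hcyc ReflTransGen.refl hK ReflTransGen.refl).2.2 b i hi).2 hb |>.2.1
  have hAz : AA E x y z z := by
    refine ⟨hBz, fun b i v' hi hb hK => ?_⟩
    exact ((QQ_all hE hT hC hcyc ReflTransGen.refl ReflTransGen.refl hK).2.2 b i hi).2 hb |>.2.2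
  have axy : TA E T x y z x y := ⟨hAx, hAy, hcyc.1⟩
  have ayz : TA E T x y z y z := ⟨hAy, hAz, hcyc.2.1⟩
  have azx : TA E T x y z z x := ⟨hAz, hAx, hcyc.2.2⟩
  have hYx : YY E T x y z x := ⟨hAx, ReflTransGen.refl, ReflTransGen.refl⟩
  have hYy : YY E T x y z y :=
    ⟨hAy, ReflTransGen.single axy, ReflTransGen.head ayz (ReflTransGen.single azx)⟩
  have hYz : YY E T x y z z :=
    ⟨hAz, ReflTransGen.head axy (ReflTransGen.single ayz), ReflTransGen.single azx⟩
  have hKxy : ¬ KK E x y z x y := by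
    intro h
    have h1 := (QQ_all hE hT hC hcyc h ReflTransGen.refl ReflTransGen.refl).1.1
    exact hT.1 _ h1
  have hw : ∀ u, YY E T x y z u → ∃ w, YY E T x y z w ∧ ¬ KK E x y z w u ∧ T w u := by
    intro u hu
    by_cases h1 : KK E x y z x u
    · have h2 : ¬ KK E x y z y u := fun h3 => hKxy (K_trans h1 (K_symm hE h3))
      exact enter hE hT hC (sc_YY x y z y u hYy hu) h2
    · exact enter hE hT hC (sc_YY x y z x u hYx hu) h1
  have hHom : Hom T (YY E T x y z) := by
    intro v hv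
    by_cases hB : BB E x y z v
    · left
      intro u hu
      obtain ⟨i, hi, hb⟩ := hB
      obtain ⟨w, w1, w2, w3⟩ := hw u hu
      have h1 : E i v w := w1.1.2 v i w hi hb ReflTransGen.refl
      exact hC i w u v w3 (hE _ _ _ h1) (c3 w1.1.1 hu.1.1 w2 i hi)
    · have key : ∀ u u2, YY E T x y z u → YY E T x y z u2 → T u v → T v u2 → False := by
        intro u u2 hu hu2 h1 h2
        by_cases hA : AA E x y z v
        · apply hv
          exact ⟨hA, hu.2.1.tail ⟨hu.1, hA, h1⟩, ReflTransGen.head ⟨hA, hu2.1, h2⟩ hu2.2.2⟩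
        · have hA' := hA
          unfold AA at hA'
          push Not at hA'
          obtain ⟨b, i, v', hi, hb, hK, hne⟩ := hA' hB
          have k1 : ¬ KK E x y z v u := fun h => hA (A_K hu.1 (K_symm hE h))
          have k2 : ¬ KK E x y z v u2 := fun h => hA (A_K hu2.1 (K_symm hE h))
          have t1 : T u v' := c3b hE hT hC hK k1 hu.1.1 h1
          have t2 : T v' u2 := c3a hC hK k2 hu2.1.1 h2
          have e1 : E i b u := hu.1.2 b i u hi hb ReflTransGen.refl
          have e2 : E i b u2 := hu2.1.2 b i u2 hi hb ReflTransGen.refl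
          have n1 : ¬ E i u v' := c3 hu.1.1 (K_B hK hB)
            (fun h => k1 (K_trans hK (K_symm hE h))) i hi
          have t3 : T b v' := hC i u v' b t1 (hE _ _ _ e1) n1
          exact hT.2.1 _ _ t2 (hC i b v' u2 t3 e2 hne)
      by_cases hall : ∀ u, YY E T x y z u → T v u
      · exact Or.inl hall
      · right
        push Not at hall
        obtain ⟨u', hu', hnt⟩ := hall
        have htu' : T u' v := by
          have hne : v ≠ u' := by
            rintro rfl
            exact hv hu'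
          rcases hT.2.2 v u' hne with h | h
          · exact absurd h hnt
          · exact h
        intro u hu
        have hne : v ≠ u := by
          rintro rfl
          exact hv hu
        rcases hT.2.2 v u hne with h | h
        · exact (key u' u hu' hu htu' h).elim
        · exact h
  by_cases hz : ∃ z0, ¬ YY E T x y z z0
  · left
    exact ⟨YY E T x y z, hHom, sc_YY x y z, ⟨x, y, z, hYx, hYy, hYz, hcyc⟩, hz⟩
  · right
    push Not at hz
    refine ⟨KK E x y z, ⟨fun _ => ReflTransGen.refl, fun h => K_symm hE h,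
      fun h h' => K_trans h h'⟩, hKxy, ?_, ?_⟩
    · intro u u' v h1 h2 h3
      exact c3a hC h1 h2 (hz v).1.1 h3
    · intro u v h1 i hi
      exact c3 (hz u).1.1 (hz v).1.1 h1 i hi

end RA7
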