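import Pool.Agent.Helper74.RA7.Base

namespace RA7

open Relation

namespace S2

theorem wk_of_rtg {D : Type} {T : D → D → Prop} {a b : D} (h : ReflTransGen T a b) :
    ∃ n, Wk T n a b := by
  induction h using ReflTransGen.head_induction_on with
  | refl => exact ⟨0, rfl⟩
  | head h1 _ ih =>
    obtain ⟨n, hn⟩ := ih
    exact ⟨n + 1, _, h1, hn⟩

theorem wk_class {D : Type} {T K : D → D → Prop} (hK : Equivalence K)
    (hc : ∀ u u' v, K u u' → ¬ K u v → T u v → T u' v) {u v : D} (huv : ¬ K v u) :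
    ∀ m a, K v a → Wk T m a u → ∃ j, j ≤ m ∧ Wk T j v u := by
  intro m
  induction m with
  | zero =>
    intro a h1 h2
    have h3 : a = u := h2
    subst h3
    exact absurd h1 huv
  | succ m ih =>
    intro a h1 h2
    obtain ⟨c, h3, h4⟩ := h2
    by_cases h5 : K v c
    · obtain ⟨j, hj, hj2⟩ := ih c h5 h4
      exact ⟨j, by omega, hj2⟩
    · refine ⟨m + 1, le_refl _, c, ?_, h4⟩
      exact hc a v c (hK.symm h1) (fun h6 => h5 (hK.trans h1 h6)) h3

theorem exit {D : Type} {T K : D → D → Prop} (hK : Equivalence K)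
    (hc : ∀ u u' v, K u u' → ¬ K u v → T u v → T u' v) {v o : D} (h : ReflTransGen T v o) :
    ¬ K v o → ∃ w, ¬ K v w ∧ T v w := by
  induction h with
  | refl => intro h1; exact absurd (hK.refl v) h1
  | @tail b c _ h2 ih =>
    intro h3
    by_cases h4 : K v b
    · exact ⟨c, h3, hc b v c (hK.symm h4) (fun h6 => h3 (hK.trans h4 h6)) h2⟩
    · exact ih h4

end S2

theorem s2 : StSP → StS1 → StS2 := by
  intro hSP hS1 D I _ E T hS hT hC hsc hex
  -- a cycle with maximal set
  let F : Set (Set I) := {S | ∃ x y z, Cyc3 T x y z ∧ S = {i | ¬ E i x y}}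
  have hF : F.Finite := by
    have h1 : (Set.range (fun p : D × D => {i | ¬ E i p.1 p.2})).Finite := Set.finite_range _
    refine h1.subset ?_
    rintro S ⟨x, y, z, _, rfl⟩
    exact ⟨(x, y), rfl⟩
  have hFn : F.Nonempty := by
    obtain ⟨x, y, z, h⟩ := hex
    exact ⟨_, x, y, z, h, rfl⟩
  obtain ⟨S, hSF, hmax⟩ := hF.exists_maximal hFn
  obtain ⟨x, y, z, hcyc, rfl⟩ := hSF
  rcases hS1 D I E T hS hT hC hsc x y z hcyc with h | ⟨K, hK, hxy, hc, hN⟩
  · exact Or.inl h
  refine Or.inr ⟨K, hK, ⟨x, y, hxy⟩, ?_⟩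
  intro i
  by_cases hi : E i x y
  swap
  · exact Or.inl fun u v h => hN u v h i hi
  right
  -- different classes
  have h1 : ∀ u v, ¬ K u v → T u v → E i u v := by
    intro u v huv hTuv
    by_contra hE
    have hvu : ¬ K v u := fun h => huv (hK.symm h)
    have hex2 : ∃ n, Wk T n v u := S2.wk_of_rtg (hsc v u)
    classical
    obtain ⟨n, hn, hmin⟩ : ∃ n, Wk T n v u ∧ ∀ j, j < n → ¬ Wk T j v u :=
      ⟨Nat.find hex2, Nat.find_spec hex2, fun j hj => Nat.find_min hex2 hj⟩
    have hne : v ≠ u := by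
      intro h; subst h; exact huv (hK.refl _)
    rcases n with _ | n
    · exact hne hn
    obtain ⟨a1, ha1, hw1⟩ := hn
    rcases n with _ | n
    · have h2 : a1 = u := hw1
      subst h2
      exact hT.2.1 _ _ hTuv ha1
    have hw1' := hw1
    obtain ⟨a2, ha2, hw2⟩ := hw1'
    have hKa : ¬ K v a1 := by
      intro h
      obtain ⟨j, hj, hj2⟩ := S2.wk_class hK hc hvu (n + 1) a1 h hw1
      exact hmin j (by omega) hj2
    have hne2 : a2 ≠ v := by
      intro h; subst h
      exact hmin n (by omega) hw2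
    have hT2 : ¬ T v a2 := by
      intro h
      exact hmin (n + 1) (by omega) ⟨a2, h, hw2⟩
    have hT3 : T a2 v := by
      rcases hT.2.2 a2 v hne2 with h | h
      · exact h
      · exact absurd h hT2
    have hE1 : ¬ E i v a1 := by
      intro h
      have := hSP D I E T hS hT hC i (n + 1) v u a1 ha1 hw1
        (fun j hj => hmin j (by omega)) h
      exact hE (hS i v u this)
    have hmem : {j | ¬ E j v a1} ∈ F := ⟨v, a1, a2, ⟨ha1, ha2, hT3⟩, rfl⟩
    have hsub : {j | ¬ E j x y} ≤ {j | ¬ E j v a1} := by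
      intro j hj
      exact hN v a1 hKa j hj
    have := hmax hmem hsub
    exact this hE1 hi
  have h2 : ∀ u v, ¬ K u v → E i u v := by
    intro u v huv
    have hne : u ≠ v := by
      intro h; subst h; exact huv (hK.refl _)
    rcases hT.2.2 u v hne with h | h
    · exact h1 u v huv h
    · exact hS i v u (h1 v u (fun h' => huv (hK.symm h')) h)
  have h3 : ∀ u v, K u v → T u v → E i u v := by
    intro u v huv hTuv
    by_contra hE
    have hw : ∃ w, ¬ K v w ∧ T v w := by
      by_cases hx : K v x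
      · have hy : ¬ K v y := fun h => hxy (hK.trans (hK.symm hx) h)
        exact S2.exit hK hc (hsc v y) hy
      · exact S2.exit hK hc (hsc v x) hx
    obtain ⟨w, hw1, hw2⟩ := hw
    have hE2 : E i u w := h2 u w (fun h => hw1 (hK.trans (hK.symm huv) h))
    exact hT.2.1 _ _ hw2 (hC i u v w hTuv hE2 hE)
  intro u v hne
  by_cases huv : K u v
  · rcases hT.2.2 u v hne with h | h
    · exact h3 u v huv h
    · exact hS i v u (h3 v u (hK.symm huv) h)
  · exact h2 u v huv

end RA7
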