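import Pool.Agent.Helper74.RA7.Base

namespace RA7

open Relation

theorem sat : StSAT := by
  intro Λ _ neg Im U hnn hskew hU
  classical
  have hW : ∀ a b, ReflTransGen Im a b → ReflTransGen Im (neg b) (neg a) := by
    intro a b h
    induction h with
    | refl => exact ReflTransGen.refl
    | tail _ h2 ih => exact ReflTransGen.head (hskew _ _ h2) ih
  have hW1 : ∀ a b, ReflTransGen Im a (neg b) → ReflTransGen Im b (neg a) := by
    intro a b h
    have := hW _ _ h
    rwa [hnn] at this
  have hW2 : ∀ a b, ReflTransGen Im (neg a) b → ReflTransGen Im (neg b) a := by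
    intro a b h
    have := hW _ _ h
    rwa [hnn] at this
  -- property of partial solutions
  let PS : (Λ → Prop) → Prop := fun T =>
    (∀ a b, T a → Im a b → T b) ∧
    (∀ a, T a → T (neg a) → ReflTransGen Im a (neg a) ∧ ReflTransGen Im (neg a) a) ∧
    (∀ u, U u → T u ∧ ¬ T (neg u)) ∧
    (∀ m, ReflTransGen Im m (neg m) → ReflTransGen Im (neg m) m → T m)
  let T0 : Λ → Prop := fun a => (∃ u, U u ∧ ReflTransGen Im u a) ∨
    (∃ m, ReflTransGen Im m (neg m) ∧ ReflTransGen Im (neg m) m ∧ ReflTransGen Im m a)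
  have hcl : ∀ T : Λ → Prop, (∀ a b, T a → Im a b → T b) →
      ∀ a b, T a → ReflTransGen Im a b → T b := by
    intro T hT a b ha hab
    induction hab with
    | refl => exact ha
    | tail _ h2 ih => exact hT _ _ ih h2
  have hT0 : PS T0 := by
    refine ⟨?_, ?_, ?_, ?_⟩
    · intro a b ha hab
      rcases ha with ⟨u, h1, h2⟩ | ⟨m, h1, h2, h3⟩
      · exact Or.inl ⟨u, h1, h2.tail hab⟩
      · exact Or.inr ⟨m, h1, h2, h3.tail hab⟩
    · intro a ha hna
      rcases ha with ⟨u, h1, h2⟩ | ⟨m, h1, h2, h3⟩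
      · rcases hna with ⟨v, h1', h2'⟩ | ⟨m', h1', h2', h3'⟩
        · exact absurd (h2.trans (hW1 _ _ h2')) (hU u v h1 h1')
        · -- m' ~> neg a, so a ~> neg m' ; u ~> neg m' ~> m' ; and u ~> neg m' => m' ~> neg u
          have h4 : ReflTransGen Im u (neg m') := h2.trans (hW1 _ _ h3')
          have h5 : ReflTransGen Im u (neg u) := (h4.trans h2').trans (hW1 _ _ h4)
          exact absurd h5 (hU u u h1 h1)
      · rcases hna with ⟨v, h1', h2'⟩ | ⟨m', h1', h2', h3'⟩
        · -- v ~> neg a ; m ~> a => neg a ~> neg m ; v ~> neg m ~> m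
          have h4 : ReflTransGen Im v (neg m) := h2'.trans (hW _ _ h3)
          have h5 : ReflTransGen Im v (neg v) := (h4.trans h2).trans (hW1 _ _ h4)
          exact absurd h5 (hU v v h1' h1')
        · exact ⟨((hW1 _ _ h3').trans h2').trans h3', ((hW _ _ h3).trans h2).trans h3⟩
    · intro u hu
      refine ⟨Or.inl ⟨u, hu, ReflTransGen.refl⟩, ?_⟩
      rintro (⟨v, h1, h2⟩ | ⟨m, h1, h2, h3⟩)
      · exact hU v u h1 hu h2
      · have h4 : ReflTransGen Im u (neg m) := hW1 _ _ h3
        exact hU u u hu hu ((h4.trans h2).trans h3)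
    · intro m h1 h2
      exact Or.inr ⟨m, h1, h2, ReflTransGen.refl⟩
  -- a maximal one
  have hfin : Finite (Set Λ) := inferInstance
  obtain ⟨T, hT, hmax⟩ : ∃ T : Set Λ, PS (fun a => a ∈ T) ∧ ∀ T' : Set Λ, PS (fun a => a ∈ T') →
      T ⊆ T' → T' = T := by
    obtain ⟨T, hT⟩ := Set.Finite.exists_maximal (Set.toFinite {T : Set Λ | PS (fun a => a ∈ T)})
      ⟨{a | T0 a}, hT0⟩
    exact ⟨T, hT.prop, fun T' hT' h => Set.Subset.antisymm (hT.le_of_ge hT' h) h⟩
  have htot : ∀ a, a ∈ T ∨ neg a ∈ T := by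
    -- if a, neg a ∉ T and not a ~> neg a then contradiction
    have key : ∀ a, a ∉ T → neg a ∉ T → ReflTransGen Im a (neg a) := by
      intro a ha hna
      by_contra hcon
      have hPS : PS (fun b => b ∈ (T ∪ {b | ReflTransGen Im a b})) := by
        refine ⟨?_, ?_, ?_, ?_⟩
        · rintro b c (hb | hb) hbc
          · exact Or.inl (hT.1 b c hb hbc)
          · exact Or.inr (ReflTransGen.tail hb hbc)
        · rintro k (hk | hk) (hnk | hnk)
          · exact hT.2.1 k hk hnk
          · exfalso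
            have h1 : ReflTransGen Im k (neg a) := hW1 _ _ hnk
            exact hna (hcl _ hT.1 k _ hk h1)
          · exfalso
            have h1 : ReflTransGen Im (neg k) (neg a) := hW _ _ hk
            exact hna (hcl _ hT.1 _ _ hnk h1)
          · exfalso
            have h1 : ReflTransGen Im k (neg a) := hW1 _ _ hnk
            exact hcon (ReflTransGen.trans hk h1)
        · intro u hu
          refine ⟨Or.inl (hT.2.2.1 u hu).1, ?_⟩
          rintro (h | h)
          · exact (hT.2.2.1 u hu).2 h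
          · have h1 : ReflTransGen Im u (neg a) := hW1 _ _ h
            exact hna (hcl _ hT.1 u _ (hT.2.2.1 u hu).1 h1)
        · intro m h1 h2
          exact Or.inl (hT.2.2.2 m h1 h2)
      have h1 := hmax _ hPS Set.subset_union_left
      have h2 : a ∈ T ∪ {b | ReflTransGen Im a b} := Or.inr ReflTransGen.refl
      rw [h1] at h2
      exact ha h2
    intro a
    by_contra hcon
    push Not at hcon
    obtain ⟨h1, h2⟩ := hcon
    have h3 := key a h1 h2
    have h4 := key (neg a) h2 (by rw [hnn]; exact h1)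
    rw [hnn] at h4
    exact h1 (hT.2.2.2 a h3 h4)
  exact ⟨fun a => a ∈ T, hT.2.2.1, hT.1, htot, hT.2.1⟩

end RA7
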