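import Pool.Agent.Helper74.RA7.Alg

set_option autoImplicit false

/-!
# Project RA7, module SH: the shift graph
-/

namespace RA7

open Relation Pool.Agent.Helper32.RA7

namespace MSH

/-- vertices of the shift graph -/
abbrev W (q : ℕ) : Type := {p : Fin (2 ^ q + 1) × Fin (2 ^ q + 1) // p.1 < p.2}

/-- edges of the shift graph -/
def E (q : ℕ) (v v' : W q) : Prop := v.1.2 = v'.1.1 ∨ v'.1.2 = v.1.1

theorem tri (q : ℕ) (u v w : W q) (h1 : E q u v) (h2 : E q v w) : ¬ E q u w := by
  obtain ⟨⟨u1, u2⟩, hu⟩ := u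
  obtain ⟨⟨v1, v2⟩, hv⟩ := v
  obtain ⟨⟨w1, w2⟩, hw⟩ := w
  simp only [E] at h1 h2 ⊢
  simp only at hu hv hw
  rw [Fin.lt_def] at hu hv hw
  rintro (h3 | h3)
  all_goals
    rw [Fin.ext_iff] at h3
    rcases h1 with h1 | h1 <;> rcases h2 with h2 | h2 <;>
      (rw [Fin.ext_iff] at h1 h2; omega)

end MSH

theorem m_SH : StSH := by
  intro q
  refine ⟨MSH.W q, inferInstance, MSH.E q, fun v v' h => h.symm, ?_, MSH.tri q, ?_⟩
  · intro v h
    rcases h with h | h
    · exact (ne_of_lt v.2) h.symm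
    · exact (ne_of_lt v.2) h.symm
  · intro Q _ hQ f
    by_contra hcon
    push Not at hcon
    let A : Fin (2 ^ q + 1) → Set Q := fun a => {x | ∃ (b : Fin (2 ^ q + 1)) (h : a < b),
      f ⟨(a, b), h⟩ = x}
    have key : ∀ a b : Fin (2 ^ q + 1), a < b → A a ≠ A b := by
      intro a b hab he
      have h1 : f ⟨(a, b), hab⟩ ∈ A a := ⟨b, hab, rfl⟩
      rw [he] at h1
      obtain ⟨c, hbc, hc⟩ := h1
      exact hcon ⟨(a, b), hab⟩ ⟨(b, c), hbc⟩ (Or.inl rfl) hc.symm
    have hinj : Function.Injective A := by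
      intro a b he
      rcases lt_trichotomy a b with h | h | h
      · exact absurd he (key a b h)
      · exact h
      · exact absurd he.symm (key b a h)
    have h1 := Nat.card_le_card_of_injective A hinj
    have := Fintype.ofFinite Q
    have h2 : Nat.card (Set Q) = 2 ^ Nat.card Q := by
      rw [Nat.card_eq_fintype_card, Fintype.card_set, Nat.card_eq_fintype_card]
    rw [h2, Nat.card_eq_fintype_card, Fintype.card_fin] at h1
    have h3 : 2 ^ Nat.card Q ≤ 2 ^ q := Nat.pow_le_pow_right (by norm_num) hQ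
    omega

end RA7
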