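import Pool.Agent.Helper74.RA7.Alg

namespace RA7

theorem m_UF : StUF := by
  intro A J J' h1 h1' h2 h2' h3 h4 S S'
  have hor : ∀ U, J U ∨ J Uᶜ := fun U => h2 U Uᶜ (by rw [Set.union_compl_self]; exact h1)
  have hnot : ∀ U, J U → ¬ J Uᶜ := by
    intro U hU hUc
    have a1 := h4 U hU
    have a2 := h4 Uᶜ hUc
    rw [compl_compl] at a2
    rcases h2' U Uᶜ (by rw [Set.union_compl_self]; exact h1') with h | h
    · exact a2 h
    · exact a1 h
  have hc : ∀ U, ¬ J U → J Uᶜ := fun U hU => (hor U).resolve_left hU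
  have hinter : ∀ U W, J U → J W → J (U ∩ W) := by
    intro U W hU hW
    by_contra h
    have h5 := hc _ h
    rw [Set.compl_inter] at h5
    rcases h2 _ _ h5 with h6 | h6
    · exact hnot U hU h6
    · exact hnot W hW h6
  have hdisj : ∀ U W, J U → J W → (∀ x, x ∈ U → x ∈ W → False) → False := by
    intro U W hU hW hd
    exact hnot U hU (h3 W Uᶜ (fun x hx hxU => hd x hxU hx) hW)
  constructor
  · intro h
    constructor
    · intro hS hS'
      refine hdisj _ _ h (hinter S S' hS hS') ?_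
      rintro x (⟨_, hx⟩ | ⟨_, hx⟩) ⟨hx1, hx2⟩
      · exact hx hx2
      · exact hx hx1
    · intro hS'
      by_contra hS
      have h5 := hinter _ _ (hc S hS) (hc S' hS')
      refine hdisj _ _ h h5 ?_
      rintro x (⟨hx, _⟩ | ⟨hx, _⟩) ⟨hx1, hx2⟩
      · exact hx1 hx
      · exact hx2 hx
  · intro h
    by_cases hS : J S
    · have hS' := h.1 hS
      refine h3 (S ∩ S'ᶜ) _ ?_ (hinter _ _ hS (hc _ hS'))
      rintro x ⟨hx1, hx2⟩
      exact Or.inl ⟨hx1, hx2⟩
    · have hS' : J S' := by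
        by_contra h5
        exact hS (h.2 h5)
      refine h3 (S' ∩ Sᶜ) _ ?_ (hinter _ _ hS' (hc _ hS))
      rintro x ⟨hx1, hx2⟩
      exact Or.inr ⟨hx1, hx2⟩

end RA7
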