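import Pool.Agent.Helper74.RA7.M_SP
import Pool.Agent.Helper74.RA7.M_RE
import Pool.Agent.Helper74.RA7.M_S1
import Pool.Agent.Helper74.RA7.M_S2
import Pool.Agent.Helper74.RA7.M_NI
import Pool.Agent.Helper74.RA7.M_SAT
import Pool.Agent.Helper74.RA7.M_ORD
import Pool.Agent.Helper74.RA7.M_A1
import Pool.Agent.Helper74.RA7.M_A3
import Pool.Agent.Helper74.RA7.M_A4
import Pool.Agent.Helper74.RA7.M_A5
import Pool.Agent.Helper74.RA7.M_A6
import Pool.Agent.Helper74.RA7.M_A7
import Pool.Agent.Helper74.RA7.M_A8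
import Pool.Agent.Helper74.RA7.M_A9
import Pool.Agent.Helper74.RA7.M_CTX
import Pool.Agent.Helper74.RA7.M_A
import Pool.Agent.Helper74.RA7.M_O1
import Pool.Agent.Helper74.RA7.M_O2
import Pool.Agent.Helper74.RA7.M_O3
import Pool.Agent.Helper74.RA7.M_O4
import Pool.Agent.Helper74.RA7.M_O5
import Pool.Agent.Helper74.RA7.M_O6
import Pool.Agent.Helper74.RA7.M_O7
import Pool.Agent.Helper74.RA7.M_O8
import Pool.Agent.Helper74.RA7.M_COMB
import Pool.Agent.Helper74.RA7.M_EXI
import Pool.Agent.Helper74.RA7.M_IU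
import Pool.Agent.Helper74.RA7.M_EMB
import Pool.Agent.Helper74.RA7.M_FA
import Pool.Agent.Helper74.RA7.M_FL
import Pool.Agent.Helper74.RA7.M_H1
import Pool.Agent.Helper74.RA7.M_GR
import Pool.Agent.Helper74.RA7.M_GA
import Pool.Agent.Helper74.RA7.M_UF
import Pool.Agent.Helper74.RA7.M_H2
import Pool.Agent.Helper74.RA7.M_SH
import Pool.Agent.Helper74.RA7.M_G
import Pool.Agent.Helper74.RA7.M_H4A
import Pool.Agent.Helper74.RA7.M_H4B
import Pool.Agent.Helper74.RA7.M_F1
import Pool.Agent.Helper74.RA7.M_F2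
import Pool.Agent.Helper74.RA7.M_CORE
import Pool.Agent.Helper32.RA7.M_IA
import Pool.Agent.Helper32.RA7.M_IB
import Pool.Agent.Helper32.RA7.M_IC

/-!
# Project RA7 (MP_65b7ad_lc): assembly of all modules: `stCore : StCore`
-/

namespace RA7

open Pool.Agent.Helper32.RA7

theorem stNI : StNI := ni (re sp) (s2 sp s1)
theorem stOrd : StOrd := ord sat stNI
theorem stA1 : StA1 := a1 stOrd
theorem stA3 : StA3 := a3 stOrd
theorem stA6 : StA6 := a6 stA1
theorem stA7 : StA7 := a7 stA1 stA3 a4 a5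
theorem stA8 : StA8 := a8 stA1
theorem stA9 : StA9 := a9 stA1
theorem stCtx : StCtx := ctx stOrd stA1 stA3 a5 stA6 stA7 stA8 stA9
theorem stA : StA := a stOrd stCtx
theorem stO5 : StO5 := o5 o4
theorem stO6 : StO6 := o6 stO5
theorem stO7 : StO7 := o7 stO5 stO6 stA
theorem stComb : StComb := comb (o1 sat) o2 o3 stO7 (o8 stNI)
theorem stFL : StFL := m_FL m_FA
theorem stH1 : StH1 := m_H1 stFL m_IC
theorem stH2 : StH2 := m_H2 (m_GR stFL) m_GA m_UF m_IC
theorem stH4A : StH4A := m_H4A m_EMB (m_G m_SH)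
theorem stH4B : StH4B := m_H4B m_IC
theorem stF2 : StF2 := m_F2 m_F1

/-- the combinatorial form of the main theorem -/
theorem stCore : StCore :=
  m_CORE m_EXI (m_IU (m_IB m_IA)) stH1 stH2 stH4A stH4B stComb stF2

end RA7
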