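import Pool.Agent.Helper74.RA7.Base

/-!
# Project RA7, module A8: the local inequality
-/

namespace RA7

open Relation

namespace A8

variable {D : Type} {δ : D → D → ℕ}

open Classical in
/-- the winner operation -/
private noncomputable def ff (δ : D → D → ℕ) (a b : D) : D := if WW δ b a then b else a

private lemma ff_w {a b : D} (h : WW δ b a) : ff δ a b = b := by simp [ff, h]

private lemma ff_n {a b : D} (h : ¬ WW δ b a) : ff δ a b = a := by simp [ff, h]

private lemma ff_cons (a b : D) : ff δ a b = a ∨ ff δ a b = b := by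
  by_cases h : WW δ b a
  · exact Or.inr (ff_w h)
  · exact Or.inl (ff_n h)

private lemma ff_ne (hF : Facts δ) (a b a' b' : D) :
    δ (ff δ a b) (ff δ a' b') ≤ max (δ a a') (δ b b') := by
  by_cases h : WW δ b a <;> by_cases h' : WW δ b' a'
  · rw [ff_w h, ff_w h']; exact le_max_right _ _
  · rw [ff_w h, ff_n h']
    have := hF.fne a' b' a b h' h
    rw [hF.met.symm b a', hF.met.symm a a', hF.met.symm b b']
    exact this
  · rw [ff_n h, ff_w h']; exact hF.fne a b a' b' h h'
  · rw [ff_n h, ff_n h']; exact le_max_left _ _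

private lemma ww_irr (hF : Facts δ) (a : D) : ¬ WW δ a a := fun h => hF.irr a h.1

private lemma inv_symm {p q : D} (h : Inv δ p q) : Inv δ q p := ⟨h.1.symm, h.2.2, h.2.1⟩

private lemma not_ww_of_inv (hF : Facts δ) {p q : D} (h : Inv δ p q) : ¬ WW δ p q := by
  intro hw
  exact hw.2 ((hF.inv p q).1 h).2

private lemma ff_inv (hF : Facts δ) {p q : D} (h : Inv δ p q) : ff δ p q = p :=
  ff_n (not_ww_of_inv hF (inv_symm h))

private lemma ff_self (hF : Facts δ) (p : D) : ff δ p p = p := ff_n (ww_irr hF p)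

/-- argument functions -/
private structure Arg (δ : D → D → ℕ) (π h : D → D → D → D) : Prop where
  cons : ∀ x y z, h x y z = x ∨ h x y z = y ∨ h x y z = z
  ne : ∀ x y z x' y' z', δ (h x y z) (h x' y' z') ≤ max (δ x x') (max (δ y y') (δ z z'))
  pr : ∀ p q, Inv δ p q → h p p q = π p p q ∧ h p q p = π p q p ∧ h q p p = π q p p

private lemma comp {g u v w : D → D → D → D} (hg : IsMaj δ g) (hu : Arg δ (fun x _ _ => x) u)
    (hv : Arg δ (fun _ y _ => y) v) (hw : Arg δ (fun _ _ z => z) w) :
    IsMaj δ (fun x y z => g (u x y z) (v x y z) (w x y z)) where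
  cons := by
    intro x y z
    rcases hg.cons (u x y z) (v x y z) (w x y z) with h | h | h <;> simp only [h]
    · exact hu.cons x y z
    · exact hv.cons x y z
    · exact hw.cons x y z
  nonexp := by
    intro a b c a' b' c'
    refine (hg.nonexp _ _ _ _ _ _).trans ?_
    exact max_le (hu.ne _ _ _ _ _ _) (max_le (hv.ne _ _ _ _ _ _) (hw.ne _ _ _ _ _ _))
  maj := by
    intro p q h
    obtain ⟨u1, u2, u3⟩ := hu.pr p q h
    obtain ⟨v1, v2, v3⟩ := hv.pr p q h
    obtain ⟨w1, w2, w3⟩ := hw.pr p q h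
    simp only [u1, u2, u3, v1, v2, v3, w1, w2, w3]
    exact hg.maj p q h

private lemma argx (δ : D → D → ℕ) : Arg δ (fun x _ _ => x) (fun x _ _ => x) :=
  ⟨fun _ _ _ => Or.inl rfl, fun _ _ _ _ _ _ => le_max_left _ _, fun _ _ _ => ⟨rfl, rfl, rfl⟩⟩

private lemma argy (δ : D → D → ℕ) : Arg δ (fun _ y _ => y) (fun _ y _ => y) :=
  ⟨fun _ _ _ => Or.inr (Or.inl rfl), fun _ _ _ _ _ _ => (le_max_left _ _).trans (le_max_right _ _),
    fun _ _ _ => ⟨rfl, rfl, rfl⟩⟩

private lemma argz (δ : D → D → ℕ) : Arg δ (fun _ _ z => z) (fun _ _ z => z) :=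
  ⟨fun _ _ _ => Or.inr (Or.inr rfl), fun _ _ _ _ _ _ => (le_max_right _ _).trans (le_max_right _ _),
    fun _ _ _ => ⟨rfl, rfl, rfl⟩⟩

private lemma arg_zx (hF : Facts δ) : Arg δ (fun _ _ z => z) (fun x _ z => ff δ z x) where
  cons := by
    intro x y z
    rcases ff_cons (δ := δ) z x with h | h
    · exact Or.inr (Or.inr h)
    · exact Or.inl h
  ne := by
    intro x y z x' y' z'
    refine (ff_ne hF _ _ _ _).trans (max_le ?_ (le_max_left _ _))
    exact (le_max_right _ _).trans (le_max_right _ _)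
  pr := fun p q h => ⟨ff_inv hF (inv_symm h), ff_self hF p, ff_inv hF h⟩

private lemma arg_zy (hF : Facts δ) : Arg δ (fun _ _ z => z) (fun _ y z => ff δ z y) where
  cons := by
    intro x y z
    rcases ff_cons (δ := δ) z y with h | h
    · exact Or.inr (Or.inr h)
    · exact Or.inr (Or.inl h)
  ne := by
    intro x y z x' y' z'
    refine (ff_ne hF _ _ _ _).trans (max_le ?_ ?_)
    · exact (le_max_right _ _).trans (le_max_right _ _)
    · exact (le_max_left _ _).trans (le_max_right _ _)
  pr := fun p q h => ⟨ff_inv hF (inv_symm h), ff_inv hF h, ff_self hF p⟩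

private lemma arg_yx (hF : Facts δ) : Arg δ (fun _ y _ => y) (fun x y _ => ff δ y x) where
  cons := by
    intro x y z
    rcases ff_cons (δ := δ) y x with h | h
    · exact Or.inr (Or.inl h)
    · exact Or.inl h
  ne := by
    intro x y z x' y' z'
    refine (ff_ne hF _ _ _ _).trans (max_le ?_ (le_max_left _ _))
    exact (le_max_left _ _).trans (le_max_right _ _)
  pr := fun p q h => ⟨ff_self hF p, ff_inv hF (inv_symm h), ff_inv hF h⟩

private lemma arg_xy (hF : Facts δ) : Arg δ (fun x _ _ => x) (fun x y _ => ff δ x y) where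
  cons := by
    intro x y z
    rcases ff_cons (δ := δ) x y with h | h
    · exact Or.inl h
    · exact Or.inr (Or.inl h)
  ne := by
    intro x y z x' y' z'
    refine (ff_ne hF _ _ _ _).trans (max_le (le_max_left _ _) ?_)
    exact (le_max_left _ _).trans (le_max_right _ _)
  pr := fun p q h => ⟨ff_self hF p, ff_inv hF h, ff_inv hF (inv_symm h)⟩

/-- first part of (c) -/
private lemma c1 (hF : Facts δ) {a b z : D} (hab : a ≠ b) (h1 : ¬ FF δ a b) (h2 : ¬ FF δ b a)
    (hz : FF δ z a) (hzb : z ≠ b) : FF δ z b ∧ δ z a = δ z b := by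
  have h3 : FF δ z b := (hF.nt z a b hz hzb.symm hab.symm).resolve_right h2
  refine ⟨h3, ?_⟩
  rcases lt_trichotomy (δ z a) (δ z b) with h | h | h
  · exact absurd (hF.s1 z b a h3 h) h1
  · exact h
  · exact absurd (hF.s1 z a b hz h) h2

/-- second part of (c) -/
private lemma c2 (hF : Facts δ) {a b z : D} (hab : a ≠ b) (h1 : ¬ FF δ a b)
    (hz : FF δ a z) (hzb : z ≠ b) : FF δ b z ∧ δ a b ≤ δ b z := by
  have h3 : FF δ b z := (hF.nt a z b hz hab.symm hzb.symm).resolve_left h1
  refine ⟨h3, ?_⟩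
  by_contra h
  push Not at h
  rw [hF.met.symm b z] at h
  exact h1 (hF.s2 a z b hz h)

end A8

open A8 in
theorem a8 : StA1 → StA8 := by
  intro hA1 D _ δ hC t ht p q d hpq hpt hqt hfor hdq hlt hnf
  have hF := hA1 D δ hC
  obtain ⟨g₀, hg₀⟩ := hC.maj
  have hsy := hF.met.symm
  have hz := hF.met.zero
  obtain ⟨fpq, fqp⟩ := (hF.inv p q).1 hpq
  -- nothing loses to `t`
  have htu : ∀ u, FF δ t u → FF δ u t := by
    intro u h
    by_contra h'
    exact ht u ⟨h, h'⟩
  -- (0)
  have h0p : ¬ WW δ p t := by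
    intro hw
    have hg := comp hg₀ (argx δ) (argy δ) (arg_zx hF)
    have h1 := hfor _ hg
    simp only [ff_w hw] at h1
    rw [(hg₀.maj p q hpq).2.1] at h1
    exact hpt h1
  have h0q : ¬ WW δ q t := by
    intro hw
    have hg := comp hg₀ (argx δ) (argy δ) (arg_zy hF)
    have h1 := hfor _ hg
    simp only [ff_w hw] at h1
    rw [(hg₀.maj q p (inv_symm hpq)).2.2] at h1
    exact hqt h1
  have hpt' : FF δ p t → FF δ t p := by
    intro h
    by_contra h'
    exact h0p ⟨h, h'⟩
  have hqt' : FF δ q t → FF δ t q := by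
    intro h
    by_contra h'
    exact h0q ⟨h, h'⟩
  have hdt : d ≠ t := by
    rintro rfl
    rw [hz] at hlt
    exact absurd hlt (Nat.not_lt_zero _)
  -- comparison of `g p d t` with `g p q t = t`
  have hcmp : ∀ g, IsMaj δ g → δ (g p d t) t ≤ δ d q := by
    intro g hg
    have h1 := hg.nonexp p d t p q t
    rw [hfor g hg, hz, hz] at h1
    simpa using h1
  have hnd : ∀ g, IsMaj δ g → g p d t ≠ d := by
    intro g hg h
    have h1 := hcmp g hg
    rw [h] at h1
    exact absurd hlt (not_lt.2 h1)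
  -- (1)
  have h1 : Inv δ q t := by
    by_contra hni
    have hn1 : ¬ FF δ q t := fun h => hni ((hF.inv q t).2 ⟨h, hqt' h⟩)
    have hn2 : ¬ FF δ t q := fun h => hni ((hF.inv q t).2 ⟨htu q h, h⟩)
    have fpt : FF δ p t := (hF.nt p q t fpq hpt.symm hqt.symm).resolve_right hn2
    have ftp : FF δ t p := hpt' fpt
    have hn3 : ¬ FF δ d t := fun h => hn1 (hF.s1 d t q h hlt)
    have hn4 : ¬ FF δ t d := fun h => hn3 (htu d h)
    have hdp : d ≠ p := by
      rintro rfl
      exact hn3 fpt
    have fpd : FF δ p d := (hF.nt p t d fpt hdp hdt).resolve_right hn3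
    have fdp : FF δ d p := (hF.nt t p d ftp hdt hdp).resolve_left hn4
    have hipd : Inv δ p d := (hF.inv p d).2 ⟨fpd, fdp⟩
    have hnf' := hnf hipd
    unfold Forced at hnf'
    push Not at hnf'
    obtain ⟨g, hg, hgt⟩ := hnf'
    have hgp : g p d t = p := by
      rcases hg.cons p d t with h | h | h
      · exact h
      · exact absurd h (hnd g hg)
      · exact absurd h hgt
    have h2 := hcmp g hg
    rw [hgp] at h2
    have h3 := (c2 hF hdt hn3 fdp hpt).2
    rw [hsy t p] at h3
    omega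
  obtain ⟨fqt, ftq⟩ := (hF.inv q t).1 h1
  -- (2)
  have ftd : FF δ t d := by
    refine hF.s2 t q d ftq ?_
    rw [hsy q d, hsy t d]
    exact hlt
  have fdt : FF δ d t := htu d ftd
  have h2 : Inv δ d t := (hF.inv d t).2 ⟨fdt, ftd⟩
  -- (3)
  have h3 : d ≠ p := by
    rintro rfl
    have h4 := hcmp g₀ hg₀
    rw [(hg₀.maj d t h2).1] at h4
    exact absurd hlt (not_lt.2 h4)
  refine ⟨h1, h2, h3, ?_⟩
  -- (4)
  by_cases hPD : FF δ p d
  · by_cases hDP : FF δ d p
    · -- invertible
      have hipd : Inv δ p d := (hF.inv p d).2 ⟨hPD, hDP⟩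
      have hnf' := hnf hipd
      unfold Forced at hnf'
      push Not at hnf'
      obtain ⟨g, hg, hgt⟩ := hnf'
      have hgp : g p d t = p := by
        rcases hg.cons p d t with h | h | h
        · exact h
        · exact absurd h (hnd g hg)
        · exact absurd h hgt
      have h4 := hcmp g hg
      rwa [hgp] at h4
    · -- `p` wins against `d`
      have hw : WW δ p d := ⟨hPD, hDP⟩
      have fpt : FF δ p t := (hF.nt d t p fdt h3.symm hpt).resolve_left hDP
      have hipt : Inv δ p t := (hF.inv p t).2 ⟨fpt, hpt' fpt⟩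
      have hg := comp hg₀ (argx δ) (arg_yx hF) (argz δ)
      have h4 := hcmp _ hg
      simp only [ff_w hw] at h4
      rwa [(hg₀.maj p t hipt).1] at h4
  · by_cases hDP : FF δ d p
    · have hw : WW δ d p := ⟨hDP, hPD⟩
      have hg := comp hg₀ (arg_xy hF) (argy δ) (argz δ)
      exfalso
      refine hnd _ hg ?_
      simp only [ff_w hw]
      exact (hg₀.maj d t h2).1
    · exfalso
      have h4 := c1 hF h3 hDP hPD ftd hpt.symm
      have h5 := c2 hF (Ne.symm h3) hPD fpq hdq.symm
      have h6 : g₀ p d t = t := by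
        rcases hg₀.cons p d t with h | h | h
        · have h7 := hcmp g₀ hg₀
          rw [h, hsy p t, ← h4.2, hsy t d] at h7
          exact absurd hlt (not_lt.2 h7)
        · exact absurd h (hnd g₀ hg₀)
        · exact h
      have h7 := hg₀.nonexp p d t d d t
      rw [h6, (hg₀.maj d t h2).1, hz, hz] at h7
      have h8 : δ t d ≤ δ p d := by simpa using h7
      rw [hsy t d] at h8
      have h9 := h5.2
      omega

end RA7
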