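import Mathlib
import Pool.Agent.Helper74.RA7.Alg
import Pool.Agent.Helper32.RA7.M_AS1

set_option autoImplicit false

namespace RA7

theorem m_F2' : StF2 := fun O _ T h hL => Pool.Agent.Helper32.RA7.m_AS1 O T h hL

theorem m_F2 : StF1 → StF2 := fun _ => m_F2'

end RA7
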