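import Pool.Agent.Helper74.RA7.Alg
import Pool.Agent.Helper32.RA7.M_ID

namespace RA7

open Pool.Agent.Helper32.RA7

theorem m_IU : StIB → StIU := by
  intro h O _ T l k hlk hs n hn V col hc
  obtain ⟨χ, h1, h2, h3⟩ := m_ID h O T l k hlk hs n hn V col hc
  exact ⟨χ, h1, h2, h3⟩

end RA7
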