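import Pool.Agent.Helper74.RA7.Base

/-!
# RA7, module SP: adjacency propagates along shortest paths
-/

set_option autoImplicit false

namespace RA7

private theorem cyc_SP {D I : Type} {E : I → D → D → Prop} {T : D → D → Prop} (hS : SymF E)
    (hT : Tour T) (hC : ClosedT E T) {i : I} {x y z : D} (h1 : T x y) (h2 : T y z)
    (h : E i z x) : E i x y := by
  by_contra hn
  exact hT.2.1 _ _ h2 (hC i x y z h1 (hS i z x h) hn)

theorem sp : StSP := by
  intro D I E T hS hT hC i k
  induction k with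
  | zero =>
    intro u v u1 _ hw _ hE
    have h : u1 = v := hw
    rw [← h]; exact hE
  | succ k ih =>
    intro u v u1 huu1 hw hmin hE
    obtain ⟨c, hc1, hc2⟩ := hw
    have hcu : c ≠ u := by
      intro h
      rw [h] at hc2
      exact hmin k (Nat.le_succ k) hc2
    have huc : ¬ T u c := fun h => hmin (k + 1) le_rfl ⟨c, h, hc2⟩
    have hcu' : T c u := (hT.2.2 c u hcu).resolve_right huc
    have hE1 : E i u1 c := cyc_SP hS hT hC hc1 hcu' hE
    have hmin1 : ∀ j, j ≤ k → ¬ Wk T j u1 v := fun j hj hj' =>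
      hmin (j + 1) (Nat.succ_le_succ hj) ⟨u1, huu1, hj'⟩
    have hE2 : E i u1 v := ih u1 v c hc1 hc2 hmin1 hE1
    have huv : u ≠ v := fun h => hmin 0 (Nat.zero_le _) h
    have huv' : ¬ T u v := fun h => hmin 1 (by omega) ⟨v, h, rfl⟩
    have hvu : T v u := (hT.2.2 u v huv).resolve_left huv'
    by_contra hn
    exact hT.2.1 _ _ huu1 (hC i v u u1 hvu (hS _ _ _ hE2) (fun h => hn (hS _ _ _ h)))

end RA7
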